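import Pool.Agent.HexSlit.Growth

set_option autoImplicit false

namespace HexSlit

open HexObs Complex Finset

/-- the self-avoiding words of length n (first vertices 0..n distinct) -/
def sawWords (n : ℕ) : Set (List Bool) :=
  {t | t.length = n ∧ ∀ i k, i < k → k ≤ t.length → vx o e0 t i ≠ vx o e0 t k}

lemma e0_dirs : e0 ∈ dirs := by decide

lemma dirs_abs : ∀ d ∈ dirs, |d.1| ≤ 1 ∧ |d.2| ≤ 1 := by decide

/-- coordinates grow at most by one per step -/
lemma vx_abs (t : List Bool) (i : ℕ) : |(vx o e0 t i).1| ≤ i ∧ |(vx o e0 t i).2| ≤ i := by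
  induction i with
  | zero =>
    have : vx o e0 t 0 = o := rfl
    rw [this]
    simp [o]
  | succ i ih =>
    have e : vx o e0 t (i + 1) = vx o e0 t i + ds e0 (tf t) i := rfl
    have h := dirs_abs _ (ds_mem e0_dirs (τ := tf t) i)
    rw [e, Prod.fst_add, Prod.snd_add]
    have h1 := abs_add_le (vx o e0 t i).1 (ds e0 (tf t) i).1
    have h2 := abs_add_le (vx o e0 t i).2 (ds e0 (tf t) i).2
    push_cast
    constructor <;> linarith [ih.1, ih.2, h.1, h.2]

/-- hexagonal vertices off the slit, in a box -/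
noncomputable def box (N : ℤ) : Finset Pt :=
  ((Finset.Icc (-N) N) ×ˢ (Finset.Icc (-N) N)).filter
    (fun p => ((p.1 - p.2) % 3 = 0 ∨ (p.1 - p.2) % 3 = 1) ∧ (p.2 ≠ 0 ∨ 0 < p.1))

lemma mem_box {N : ℤ} {p : Pt} : p ∈ box N ↔ (|p.1| ≤ N ∧ |p.2| ≤ N) ∧
    ((p.1 - p.2) % 3 = 0 ∨ (p.1 - p.2) % 3 = 1) ∧ (p.2 ≠ 0 ∨ 0 < p.1) := by
  unfold box
  rw [Finset.mem_filter, Finset.mem_product, Finset.mem_Icc, Finset.mem_Icc, abs_le, abs_le]

lemma off_iff (p : Pt) : Off e0 (p - o) ↔ (p.2 ≠ 0 ∨ 0 < 2 * p.1 + p.2) := by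
  have e1 : cross e0 (p - o) = p.2 := by
    simp [cross, e0, o]
  have e2 : ip (p - o) e0 = 2 * p.1 + p.2 := by
    simp only [ip, e0, o, Prod.fst_sub, Prod.snd_sub]
    ring
  unfold Off
  rw [e1, e2]

lemma off_iff' (p : Pt) : Off e0 (p - o) ↔ (p.2 ≠ 0 ∨ 0 < p.1) := by
  rw [off_iff]
  constructor
  · rintro (h | h)
    · exact Or.inl h
    · by_cases h2 : p.2 = 0
      · right; omega
      · exact Or.inl h2
  · rintro (h | h)
    · exact Or.inl h
    · by_cases h2 : p.2 = 0
      · right; omega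
      · exact Or.inl h2

lemma box_off (N : ℤ) : ∀ v ∈ box N, Off e0 (v - o) := by
  intro v hv
  rw [off_iff']
  exact (mem_box.1 hv).2.2

/-- the vertices of a word are hexagonal -/
lemma vx_cls (t : List Bool) (i : ℕ) : ((vx o e0 t i).1 - (vx o e0 t i).2) % 3 = 0 ∨
    ((vx o e0 t i).1 - (vx o e0 t i).2) % 3 = 1 := by
  have h := vx_hex o e0 t i
  unfold IsHex cl at h
  have e1 : (((o.1 - o.2 : ℤ)) : ZMod 3) = ((0 : ℤ) : ZMod 3) := by simp [o]
  have e2 : (((e0.1 - e0.2 : ℤ)) : ZMod 3) = ((1 : ℤ) : ZMod 3) := by simp [e0]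
  rw [e1, e2] at h
  rcases h with h | h
  · left
    have := (ZMod.intCast_eq_intCast_iff_dvd_sub _ _ 3).1 h
    omega
  · right
    rw [← Int.cast_add] at h
    have := (ZMod.intCast_eq_intCast_iff_dvd_sub _ _ 3).1 h
    omega

lemma sawWords_finite (n : ℕ) : (sawWords n).Finite :=
  (List.finite_length_eq Bool n).subset (fun _ h => h.1)

lemma cos5 : Real.cos ((5 : ℝ) * (Real.pi / 8)) = - Real.cos (3 * Real.pi / 8) := by
  rw [← Real.cos_pi_sub]
  congr 1
  ring

lemma cos4 : Real.cos ((4 : ℝ) * (Real.pi / 8)) = 0 := by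
  rw [show (4 : ℝ) * (Real.pi / 8) = Real.pi / 2 by ring, Real.cos_pi_div_two]

lemma cos3_nonneg : 0 ≤ Real.cos (3 * Real.pi / 8) := by
  apply Real.cos_nonneg_of_mem_Icc
  constructor <;> linarith [Real.pi_pos]

/-- real part of the graded identity -/
lemma graded_re (Ω : Finset Pt) (hoff : ∀ v ∈ Ω, Off e0 (v - o)) (n : ℕ) :
    ∑ t ∈ (arr Ω o e0).filter (fun t => t.length = n), Real.cos (HexObs.wind t * (Real.pi / 8)) * xc ^ t.length +
      ∑ t ∈ (exits Ω o e0).filter (fun t => t.length < n),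
        Real.cos (HexObs.wind t * (Real.pi / 8)) * xc ^ t.length = 1 := by
  have h1 := congrArg Complex.re (slit_graded Ω e0_dirs hoff n)
  rw [Complex.add_re, Complex.re_sum, Complex.re_sum, Complex.one_re] at h1
  have key : ∀ t : List Bool, (wt t).re = Real.cos (HexObs.wind t * (Real.pi / 8)) * xc ^ t.length := by
    intro t
    unfold wt
    rw [← Complex.ofReal_pow, Complex.re_mul_ofReal, Complex.exp_ofReal_mul_I_re]
  simp only [key] at h1
  exact h1

/-- short exits of the box are landings on the slit -/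
lemma hexit_box {n : ℕ} (hn : 1 ≤ n) {t : List Bool}
    (ht : t ∈ (exits (box (n : ℤ)) o e0).filter (fun t => t.length < n)) :
    HexObs.wind t = 4 ∨ HexObs.wind t = 5 ∨ HexObs.wind t = -4 ∨ HexObs.wind t = -5 := by
  rw [Finset.mem_filter, mem_exits] at ht
  obtain ⟨⟨harr, hout⟩, hlt⟩ := ht
  have hcl := vx_cls t (t.length + 1)
  have hab := vx_abs t (t.length + 1)
  have hnoff : ¬ Off e0 (tip o e0 t - o) := by
    intro hoff
    apply hout
    rw [mem_box]
    rw [off_iff'] at hoff
    have h3 : ((t.length + 1 : ℕ) : ℤ) ≤ n := by exact_mod_cast hlt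
    exact ⟨⟨le_trans hab.1 h3, le_trans hab.2 h3⟩, hcl, hoff⟩
  have hlen : 1 ≤ t.length := by
    by_contra hcon
    have hz : t = [] := List.length_eq_zero_iff.1 (by omega)
    apply hnoff
    rw [hz]
    have : tip o e0 [] = (1, 0) := rfl
    rw [this, off_iff']
    right
    decide
  rcases wind_slit e0_dirs (box_off _) harr hlen hnoff with h | h | h | h
  · exact Or.inl h.2
  · exact Or.inr (Or.inl h.2)
  · exact Or.inr (Or.inr (Or.inl h.2))
  · exact Or.inr (Or.inr (Or.inr h.2))

/-- the number of words is at least the landing weight -/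
theorem count_ge {n : ℕ} {r : ℤ} (hr : 1 ≤ r) (hn : 1 ≤ n) (hrn : (D0 r).card < n)
    (hbox : ∀ v ∈ D0 r, |v.1| ≤ n ∧ |v.2| ≤ n) :
    1 + Real.cos (3 * Real.pi / 8) * W (D0 r) 5 ≤ (sawWords n).ncard * xc ^ n := by
  classical
  set Ω := box (n : ℤ) with hΩ
  have hx := xc_pos
  have hg := graded_re Ω (box_off _) n
  have hc3 := cos3_nonneg
  -- first sum
  have s1 : ∑ t ∈ (arr Ω o e0).filter (fun t => t.length = n),
      Real.cos (HexObs.wind t * (Real.pi / 8)) * xc ^ t.length ≤ (sawWords n).ncard * xc ^ n := by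
    have h1 : ∑ t ∈ (arr Ω o e0).filter (fun t => t.length = n),
        Real.cos (HexObs.wind t * (Real.pi / 8)) * xc ^ t.length ≤
        ∑ t ∈ (arr Ω o e0).filter (fun t => t.length = n), xc ^ n := by
      apply Finset.sum_le_sum
      intro t ht
      rw [(Finset.mem_filter.1 ht).2]
      have := Real.cos_le_one (HexObs.wind t * (Real.pi / 8))
      have h2 := pow_pos hx n
      nlinarith
    refine h1.trans ?_
    rw [Finset.sum_const, nsmul_eq_mul]
    apply mul_le_mul_of_nonneg_right _ (pow_pos hx n).le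
    have h2 : (((arr Ω o e0).filter (fun t => t.length = n)).card : ℕ) ≤ (sawWords n).ncard := by
      rw [← Set.ncard_coe_finset]
      apply Set.ncard_le_ncard _ (sawWords_finite n)
      intro t ht
      rw [Finset.mem_coe, Finset.mem_filter, mem_arr] at ht
      exact ⟨ht.2, ht.1.inj⟩
    exact_mod_cast h2
  -- second sum
  have hexit : ∀ t ∈ (exits Ω o e0).filter (fun t => t.length < n),
      HexObs.wind t = 4 ∨ HexObs.wind t = 5 ∨ HexObs.wind t = -4 ∨ HexObs.wind t = -5 :=
    fun t ht => hexit_box hn ht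
  have s2 : ∑ t ∈ (exits Ω o e0).filter (fun t => t.length < n),
        Real.cos (HexObs.wind t * (Real.pi / 8)) * xc ^ t.length ≤
      - (Real.cos (3 * Real.pi / 8) * W (D0 r) 5) := by
    have hval : ∀ t ∈ (exits Ω o e0).filter (fun t => t.length < n),
        Real.cos (HexObs.wind t * (Real.pi / 8)) * xc ^ t.length ≤
        if HexObs.wind t = 5 then - (Real.cos (3 * Real.pi / 8) * xc ^ t.length) else 0 := by
      intro t ht
      have hp := pow_pos hx t.length
      rcases hexit t ht with h | h | h | h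
      · rw [h, if_neg (by norm_num)]
        push_cast
        rw [cos4, zero_mul]
      · rw [h, if_pos rfl]
        push_cast
        rw [cos5]
        linarith
      · rw [h, if_neg (by norm_num)]
        push_cast
        rw [neg_mul, Real.cos_neg, cos4, zero_mul]
      · rw [h, if_neg (by norm_num)]
        push_cast
        rw [neg_mul, Real.cos_neg, cos5]
        have := mul_nonneg hc3 hp.le
        linarith
    refine (Finset.sum_le_sum hval).trans ?_
    rw [← Finset.sum_filter]
    rw [Finset.sum_neg_distrib, neg_le_neg_iff, ← Finset.mul_sum]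
    apply mul_le_mul_of_nonneg_left _ hc3
    unfold W Wn
    apply Finset.sum_le_sum_of_subset_of_nonneg
    · intro t ht
      rw [Finset.mem_filter] at ht
      obtain ⟨hte, hw⟩ := ht
      have harr := (mem_exits.1 hte).1
      rw [Finset.mem_filter, Finset.mem_filter, mem_exits]
      refine ⟨⟨⟨⟨?_, harr.inj⟩, ?_⟩, ?_⟩, hw⟩
      · intro i h1 h2
        have h3 := harr.mem i h1 h2
        rw [hΩ, mem_box]
        have h4 := (off_iff' _).1 (dom_off hr _ h3)
        exact ⟨hbox _ h3, vx_cls t i, h4⟩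
      · -- the tip is on the slit
        intro htip
        have h5 : Off e0 (tip o e0 t - o) := box_off _ _ htip
        have := (exit_off_wind hr hte h5).2
        omega
      · exact lt_of_le_of_lt harr.length_le hrn
    · intro t _ _
      exact pow_nonneg hx.le _
  linarith

lemma D0_coord {r : ℤ} (hr : 1 ≤ r) : ∀ v ∈ D0 r, |v.1| ≤ 7 * r ∧ |v.2| ≤ 5 * r := by
  intro v hv
  unfold D0 at hv
  rw [mem_dom hr] at hv
  obtain ⟨h1, h2, h3, h4⟩ := hv
  rw [abs_le, abs_le]
  rcases lt_or_ge v.2 0 with h | h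
  · have := h4 h
    omega
  · have := h3 h
    omega

lemma D0_card {r : ℤ} (hr : 1 ≤ r) : ((D0 r).card : ℤ) ≤ 165 * r ^ 2 := by
  have hsub : D0 r ⊆ (Finset.Icc (-(7 * r)) (7 * r)) ×ˢ (Finset.Icc (-(5 * r)) (5 * r)) := by
    intro v hv
    have h := D0_coord hr v hv
    rw [abs_le, abs_le] at h
    rw [Finset.mem_product, Finset.mem_Icc, Finset.mem_Icc]
    exact h
  have h1 := Finset.card_le_card hsub
  rw [Finset.card_product, Int.card_Icc, Int.card_Icc] at h1
  have h2 : ((D0 r).card : ℤ) ≤ ((7 * r + 1 - -(7 * r)).toNat * (5 * r + 1 - -(5 * r)).toNat : ℕ) := by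
    exact_mod_cast h1
  rw [Nat.cast_mul, Int.toNat_of_nonneg (by omega), Int.toNat_of_nonneg (by omega)] at h2
  nlinarith

/-- the number of words is at least xc^{-n} -/
theorem count_one (n : ℕ) : 1 ≤ (sawWords n).ncard * xc ^ n := by
  rcases Nat.eq_zero_or_pos n with hn | hn
  · subst hn
    have : (sawWords 0) = {[]} := by
      ext t
      rw [Set.mem_singleton_iff]
      constructor
      · intro h
        exact List.length_eq_zero_iff.1 h.1
      · rintro rfl
        exact ⟨rfl, fun i k h1 h2 => absurd h2 (by simp; omega)⟩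
    rw [this]
    simp
  · -- the domain box, dropping the landings
    classical
    have hx := xc_pos
    have hg := graded_re (box (n : ℤ)) (box_off _) n
    have hc3 := cos3_nonneg
    have s1 : ∑ t ∈ (arr (box (n : ℤ)) o e0).filter (fun t => t.length = n),
        Real.cos (HexObs.wind t * (Real.pi / 8)) * xc ^ t.length ≤ (sawWords n).ncard * xc ^ n := by
      have h1 : ∑ t ∈ (arr (box (n : ℤ)) o e0).filter (fun t => t.length = n),
          Real.cos (HexObs.wind t * (Real.pi / 8)) * xc ^ t.length ≤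
          ∑ t ∈ (arr (box (n : ℤ)) o e0).filter (fun t => t.length = n), xc ^ n := by
        apply Finset.sum_le_sum
        intro t ht
        rw [(Finset.mem_filter.1 ht).2]
        have := Real.cos_le_one (HexObs.wind t * (Real.pi / 8))
        have h2 := pow_pos hx n
        nlinarith
      refine h1.trans ?_
      rw [Finset.sum_const, nsmul_eq_mul]
      apply mul_le_mul_of_nonneg_right _ (pow_pos hx n).le
      have h2 : (((arr (box (n : ℤ)) o e0).filter (fun t => t.length = n)).card : ℕ) ≤ (sawWords n).ncard := by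
        rw [← Set.ncard_coe_finset]
        apply Set.ncard_le_ncard _ (sawWords_finite n)
        intro t ht
        rw [Finset.mem_coe, Finset.mem_filter, mem_arr] at ht
        exact ⟨ht.2, ht.1.inj⟩
      exact_mod_cast h2
    have s2 : ∑ t ∈ (exits (box (n : ℤ)) o e0).filter (fun t => t.length < n),
        Real.cos (HexObs.wind t * (Real.pi / 8)) * xc ^ t.length ≤ 0 := by
      apply Finset.sum_nonpos
      intro t ht
      have hp := pow_pos hx t.length
      rcases hexit_box hn ht with h | h | h | h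
      · rw [h]
        push_cast
        rw [cos4, zero_mul]
      · rw [h]
        push_cast
        rw [cos5]
        have := mul_nonneg hc3 hp.le
        linarith
      · rw [h]
        push_cast
        rw [neg_mul, Real.cos_neg, cos4, zero_mul]
      · rw [h]
        push_cast
        rw [neg_mul, Real.cos_neg, cos5]
        have := mul_nonneg hc3 hp.le
        linarith
    linarith

theorem count_lower : ∃ c : ℝ, 0 < c ∧ ∀ n : ℕ, 1 ≤ n →
    c * (n : ℝ) ^ ((1 : ℝ) / 180) * (xc⁻¹) ^ n ≤ (sawWords n).ncard := by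
  obtain ⟨c, hc, hgr⟩ := growth
  have hx := xc_pos
  have hc3 := cos3_nonneg
  have hc3' : Real.cos (3 * Real.pi / 8) ≤ 1 := Real.cos_le_one _
  have hc3p : 0 < Real.cos (3 * Real.pi / 8) := by
    apply Real.cos_pos_of_mem_Ioo
    constructor <;> linarith [Real.pi_pos]
  refine ⟨min (1 / 2) (Real.cos (3 * Real.pi / 8) * c / 2), by positivity, ?_⟩
  intro n hn
  have hn0 : (0 : ℝ) < n := by exact_mod_cast hn
  rw [inv_pow, ← div_eq_mul_inv, div_le_iff₀ (pow_pos hx n)]
  by_cases hbig : 660 < n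
  · -- r with 165 r^2 < n <= 165 (r+1)^2
    obtain ⟨r, hr1, hr2, hr3⟩ : ∃ r : ℕ, 1 ≤ r ∧ 165 * r ^ 2 < n ∧ n ≤ 165 * (r + 1) ^ 2 := by
      have hex : ∃ m : ℕ, n ≤ 165 * (m + 1) ^ 2 := ⟨n, by nlinarith⟩
      classical
      refine ⟨Nat.find hex, ?_, ?_, Nat.find_spec hex⟩
      · by_contra hcon
        have h0 : Nat.find hex = 0 := by omega
        have := Nat.find_spec hex
        rw [h0] at this
        omega
      · have h1 : 1 ≤ Nat.find hex := by
          by_contra hcon
          have h0 : Nat.find hex = 0 := by omega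
          have := Nat.find_spec hex
          rw [h0] at this
          omega
        have h2 := Nat.find_min hex (m := Nat.find hex - 1) (by omega)
        rw [Nat.sub_add_cancel h1] at h2
        omega
    have hrz : (1 : ℤ) ≤ (r : ℤ) := by exact_mod_cast hr1
    have hcard : (D0 (r : ℤ)).card < n := by
      have h1 := D0_card hrz
      have h2 : ((165 * r ^ 2 : ℕ) : ℤ) < n := by exact_mod_cast hr2
      push_cast at h2
      have : ((D0 (r : ℤ)).card : ℤ) < n := by linarith
      exact_mod_cast this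
    have hbox : ∀ v ∈ D0 (r : ℤ), |v.1| ≤ (n : ℤ) ∧ |v.2| ≤ (n : ℤ) := by
      intro v hv
      have h1 := D0_coord hrz v hv
      have h2 : ((165 * r ^ 2 : ℕ) : ℤ) < n := by exact_mod_cast hr2
      push_cast at h2
      have h3 : 9 * (r : ℤ) ≤ n := by nlinarith
      exact ⟨by linarith [h1.1], by linarith [h1.2]⟩
    have key := count_ge hrz hn hcard hbox
    have hgr' := hgr (r : ℤ) hrz
    refine le_trans ?_ key
    have hr0 : (0 : ℝ) < r := by exact_mod_cast hr1
    -- n^(1/180) <= 2 r^(1/90)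
    have hpow : (n : ℝ) ^ ((1 : ℝ) / 180) ≤ 2 * (r : ℝ) ^ ((1 : ℝ) / 90) := by
      have h1 : (n : ℝ) ≤ (26 * r) ^ (2 : ℝ) := by
        rw [Real.rpow_two]
        have h2 : (n : ℝ) ≤ 165 * ((r : ℝ) + 1) ^ 2 := by exact_mod_cast hr3
        have h3 : (1 : ℝ) ≤ r := by exact_mod_cast hr1
        nlinarith
      have h2 : (n : ℝ) ^ ((1 : ℝ) / 180) ≤ ((26 * (r : ℝ)) ^ (2 : ℝ)) ^ ((1 : ℝ) / 180) :=
        Real.rpow_le_rpow hn0.le h1 (by norm_num)
      rw [← Real.rpow_mul (by positivity)] at h2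
      have e : (2 : ℝ) * (1 / 180) = 1 / 90 := by norm_num
      rw [e, Real.mul_rpow (by norm_num) hr0.le] at h2
      refine h2.trans ?_
      apply mul_le_mul_of_nonneg_right _ (Real.rpow_nonneg hr0.le _)
      have h4 : (26 : ℝ) ^ ((1 : ℝ) / 90) ≤ (2 ^ (90 : ℕ) : ℝ) ^ ((1 : ℝ) / 90) := by
        apply Real.rpow_le_rpow (by norm_num) _ (by norm_num)
        calc (26 : ℝ) ≤ 2 ^ 5 := by norm_num
          _ ≤ 2 ^ 90 := pow_le_pow_right₀ (by norm_num) (by norm_num)
      refine h4.trans (le_of_eq ?_)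
      rw [← Real.rpow_natCast, ← Real.rpow_mul (by norm_num)]
      norm_num
    have hm : min (1 / 2) (Real.cos (3 * Real.pi / 8) * c / 2) ≤ Real.cos (3 * Real.pi / 8) * c / 2 :=
      min_le_right _ _
    have hrp : 0 ≤ (r : ℝ) ^ ((1 : ℝ) / 90) := Real.rpow_nonneg hr0.le _
    have hW := W_nonneg (D0 (r : ℤ)) 5
    have hnp : 0 ≤ (n : ℝ) ^ ((1 : ℝ) / 180) := Real.rpow_nonneg hn0.le _
    have hcast : (((r : ℤ)) : ℝ) = (r : ℝ) := by push_cast; rfl
    rw [hcast] at hgr'
    calc min (1 / 2) (Real.cos (3 * Real.pi / 8) * c / 2) * (n : ℝ) ^ ((1 : ℝ) / 180)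
        ≤ (Real.cos (3 * Real.pi / 8) * c / 2) * (2 * (r : ℝ) ^ ((1 : ℝ) / 90)) :=
          mul_le_mul hm hpow hnp (by positivity)
      _ = Real.cos (3 * Real.pi / 8) * (c * (r : ℝ) ^ ((1 : ℝ) / 90)) := by ring
      _ ≤ Real.cos (3 * Real.pi / 8) * (1 + W (D0 (r : ℤ)) 5) := mul_le_mul_of_nonneg_left hgr' hc3
      _ ≤ 1 + Real.cos (3 * Real.pi / 8) * W (D0 (r : ℤ)) 5 := by linarith
  · have h1 := count_one n
    refine le_trans ?_ h1
    have hm : min (1 / 2) (Real.cos (3 * Real.pi / 8) * c / 2) ≤ 1 / 2 := min_le_left _ _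
    have hpow : (n : ℝ) ^ ((1 : ℝ) / 180) ≤ 2 := by
      have h2 : (n : ℝ) ≤ 2 ^ (180 : ℕ) := by
        have h3 : (n : ℝ) ≤ 660 := by exact_mod_cast (not_lt.1 hbig)
        calc (n : ℝ) ≤ 660 := h3
          _ ≤ 2 ^ 10 := by norm_num
          _ ≤ 2 ^ 180 := pow_le_pow_right₀ (by norm_num) (by norm_num)
      have h4 := Real.rpow_le_rpow hn0.le h2 (z := (1 : ℝ) / 180) (by norm_num)
      refine h4.trans (le_of_eq ?_)
      rw [← Real.rpow_natCast, ← Real.rpow_mul (by norm_num)]
      norm_num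
    have hnp : 0 ≤ (n : ℝ) ^ ((1 : ℝ) / 180) := Real.rpow_nonneg hn0.le _
    have hm0 : 0 ≤ min (1 / 2) (Real.cos (3 * Real.pi / 8) * c / 2) := by positivity
    nlinarith

end HexSlit
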