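import Pool.Agent.HexSlit.Loop

set_option autoImplicit false

namespace HexSlit

open HexObs Complex Finset

variable {Ω : Finset Pt} {v0 d0 : Pt}

lemma back_ret_slit (hoff : ∀ v ∈ Ω, Off d0 (v - v0)) {t : List Bool} (ht : t ∈ back Ω v0 d0) :
    1 ≤ ret v0 d0 t ∧ ret v0 d0 t ≤ t.length ∧ vx v0 d0 t (ret v0 d0 t) = tip v0 d0 t := by
  classical
  rw [mem_back] at ht
  obtain ⟨harr, hmem, hnot⟩ := ht
  push Not at hnot
  obtain ⟨i, hi, hv⟩ := hnot
  have hi1 : 1 ≤ i := by
    rcases Nat.eq_zero_or_pos i with h0 | h0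
    · exfalso
      rw [h0] at hv
      have h1 : v0 = tip v0 d0 t := hv
      have h2 := hoff _ hmem
      rw [← h1, sub_self] at h2
      rcases h2 with h2 | h2
      · exact h2 (by simp [cross])
      · simp [ip] at h2
    · exact h0
  rw [ret_unique harr hi1 hi hv]
  exact ⟨hi1, hi, hv⟩

/-- the winding of a word that came back, and of its reversal. -/
lemma wind_back_slit (h0 : d0 ∈ dirs) (hoff : ∀ v ∈ Ω, Off d0 (v - v0)) {t : List Bool}
    (h : IsArr Ω v0 d0 t) {j : ℕ} (hj : 1 ≤ j) (hjl : j ≤ t.length) (hv : vx v0 d0 t j = tip v0 d0 t) :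
    HexObs.wind t = ∑ i ∈ range (j - 1), sgn (tf t i) - 4 * sgn (tf t (j - 1)) := by
  rw [wind_sum]
  obtain ⟨m, hm⟩ : ∃ m, t.length = (j - 1) + 1 + m := ⟨t.length - j, by omega⟩
  rw [hm, Finset.sum_range_add, Finset.sum_range_succ]
  have := loop_turn_slit (τ := tf t) h0 hj hjl hv.symm h.inj (fun i h1 h2 => hoff _ (h.mem i h1 h2))
  have e1 : t.length - j = m := by omega
  rw [e1] at this
  have e2 : j - 1 + 1 = j := by omega
  rw [e2, this]
  ring

lemma wt_revw_slit (h0 : d0 ∈ dirs) (hoff : ∀ v ∈ Ω, Off d0 (v - v0)) {t : List Bool}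
    (h : IsArr Ω v0 d0 t) {j : ℕ} (hj : 1 ≤ j) (hjl : j ≤ t.length) (hv : vx v0 d0 t j = tip v0 d0 t) :
    wt t + wt (revw t j) = 0 := by
  obtain ⟨h', hv', -⟩ := revw_back h0 h hj hjl hv
  have hl := revw_length t j
  have w1 := wind_back_slit h0 hoff h hj hjl hv
  have w2 := wind_back_slit h0 hoff h' hj (by omega) hv'
  have e1 : ∑ i ∈ range (j - 1), sgn (tf (revw t j) i) = ∑ i ∈ range (j - 1), sgn (tf t i) := by
    apply Finset.sum_congr rfl
    intro i hi
    rw [mem_range] at hi
    rw [tf_revw (by omega), revτ_lt (by omega)]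
  have e2 : sgn (tf (revw t j) (j - 1)) = - sgn (tf t (j - 1)) := by
    rw [tf_revw (by omega), revτ_eq hj, sgn_not]
  rw [e1, e2] at w2
  have e3 : HexObs.wind (revw t j) = HexObs.wind t + 8 * sgn (tf t (j - 1)) := by
    rw [w1, w2]
    ring
  unfold wt
  rw [hl, e3]
  have e4 : (((((HexObs.wind t + 8 * sgn (tf t (j - 1)) : ℤ) : ℝ) * (Real.pi / 8) : ℝ)) : ℂ) * I =
      (((HexObs.wind t : ℝ) * (Real.pi / 8) : ℝ) : ℂ) * I + (sgn (tf t (j - 1)) : ℂ) * (Real.pi * I) := by
    push_cast
    ring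
  rw [e4, Complex.exp_add]
  have e5 : Complex.exp ((sgn (tf t (j - 1)) : ℂ) * (Real.pi * I)) = -1 := by
    cases tf t (j - 1)
    · simp only [sgn, Bool.false_eq_true, if_false]
      push_cast
      rw [neg_one_mul, Complex.exp_neg, Complex.exp_pi_mul_I]
      norm_num
    · simp only [sgn, if_true]
      push_cast
      rw [one_mul, Complex.exp_pi_mul_I]
  rw [e5]
  ring

/-- the words that came back cancel, also with a prescribed length -/
theorem sum_back_slit (h0 : d0 ∈ dirs) (hoff : ∀ v ∈ Ω, Off d0 (v - v0)) (P : ℕ → Prop) [DecidablePred P] :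
    ∑ t ∈ (back Ω v0 d0).filter (fun t => P t.length), wt t = 0 := by
  refine Finset.sum_involution (fun t _ => revw t (ret v0 d0 t)) ?_ ?_ ?_ ?_
  · intro t ht
    rw [Finset.mem_filter] at ht
    obtain ⟨h1, h2, h3⟩ := back_ret_slit hoff ht.1
    exact wt_revw_slit h0 hoff (mem_back.1 ht.1).1 h1 h2 h3
  · intro t ht _
    rw [Finset.mem_filter] at ht
    obtain ⟨h1, h2, h3⟩ := back_ret_slit hoff ht.1
    exact revw_ne h1 h2
  · intro t ht
    rw [Finset.mem_filter] at ht
    obtain ⟨h1, h2, h3⟩ := back_ret_slit hoff ht.1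
    obtain ⟨h', hv', ht'⟩ := revw_back h0 (mem_back.1 ht.1).1 h1 h2 h3
    rw [Finset.mem_filter, mem_back]
    refine ⟨⟨h', ?_, ?_⟩, ?_⟩
    · rw [ht']
      exact (mem_back.1 ht.1).2.1
    · push Not
      exact ⟨ret v0 d0 t, by rw [revw_length]; exact h2, hv'⟩
    · rw [revw_length]
      exact ht.2
  · intro t ht
    rw [Finset.mem_filter] at ht
    obtain ⟨h1, h2, h3⟩ := back_ret_slit hoff ht.1
    obtain ⟨h', hv', ht'⟩ := revw_back h0 (mem_back.1 ht.1).1 h1 h2 h3
    show revw (revw t (ret v0 d0 t)) (ret v0 d0 (revw t (ret v0 d0 t))) = t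
    rw [ret_unique h' h1 (by rw [revw_length]; exact h2) hv']
    exact revw_revw h1 h2

theorem slit_identity (Ω : Finset Pt) {v0 d0 : Pt} (h0 : d0 ∈ dirs) (hoff : ∀ v ∈ Ω, Off d0 (v - v0)) :
    ∑ t ∈ exits Ω v0 d0, wt t = 1 := by
  have h1 := sum_arr Ω v0 d0 wt
  have h2 := sum_back_slit h0 hoff (fun _ => True)
  rw [Finset.filter_true_of_mem (fun _ _ => trivial)] at h2
  rw [sum_arr' Ω v0 d0, h2] at h1
  linear_combination -h1

/-- one step -/
lemma arr_step (Ω : Finset Pt) (v0 d0 : Pt) (n : ℕ) :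
    ∑ t ∈ (arr Ω v0 d0).filter (fun t => t.length = n + 1), wt t =
      ∑ t ∈ (exte Ω v0 d0).filter (fun t => t.length = n), wt t := by
  classical
  have h1 : ∑ t ∈ (exte Ω v0 d0).filter (fun t => t.length = n), wt t =
      ∑ t ∈ (exte Ω v0 d0).filter (fun t => t.length = n), ∑ b : Bool, wt (t ++ [b]) := by
    apply Finset.sum_congr rfl
    intro t _
    rw [Fintype.sum_bool, wt_extend]
  rw [h1, ← Finset.sum_product']
  symm
  refine Finset.sum_bij (fun p _ => p.1 ++ [p.2]) ?_ ?_ ?_ ?_
  · rintro ⟨t, b⟩ hp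
    rw [Finset.mem_product, Finset.mem_filter, mem_exte] at hp
    rw [Finset.mem_filter, mem_arr]
    exact ⟨isArr_append_one.2 hp.1.1, by simp [hp.1.2]⟩
  · rintro ⟨t, b⟩ _ ⟨s, c⟩ _ h
    have := List.append_inj' h rfl
    simp only [List.cons.injEq, and_true] at this
    exact Prod.ext this.1 this.2
  · intro t ht
    rw [Finset.mem_filter, mem_arr] at ht
    obtain ⟨harr, hlen⟩ := ht
    have hne : t ≠ [] := by
      rintro rfl
      simp at hlen
    have h2 := List.dropLast_append_getLast hne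
    refine ⟨(t.dropLast, t.getLast hne), ?_, h2⟩
    rw [Finset.mem_product, Finset.mem_filter, mem_exte]
    refine ⟨⟨?_, ?_⟩, Finset.mem_univ _⟩
    · rw [← h2] at harr
      exact isArr_append_one.1 harr
    · show t.dropLast.length = n
      rw [List.length_dropLast, hlen]
      rfl
  · intro p _
    rfl

theorem slit_graded (Ω : Finset Pt) {v0 d0 : Pt} (h0 : d0 ∈ dirs) (hoff : ∀ v ∈ Ω, Off d0 (v - v0)) (n : ℕ) :
    ∑ t ∈ (arr Ω v0 d0).filter (fun t => t.length = n), wt t +
      ∑ t ∈ (exits Ω v0 d0).filter (fun t => t.length < n), wt t = 1 := by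
  classical
  induction n with
  | zero =>
    have e1 : (arr Ω v0 d0).filter (fun t => t.length = 0) = {[]} := by
      ext t
      rw [Finset.mem_filter, Finset.mem_singleton, List.length_eq_zero_iff, mem_arr]
      constructor
      · exact fun h => h.2
      · rintro rfl
        exact ⟨isArr_nil Ω v0 d0, rfl⟩
    have e2 : (exits Ω v0 d0).filter (fun t => t.length < 0) = ∅ := by
      apply Finset.filter_eq_empty_iff.2
      intro t _
      omega
    rw [e1, e2, Finset.sum_singleton, Finset.sum_empty, wt_nil, add_zero]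
  | succ n ih =>
    rw [arr_step]
    -- split the words of length n
    have h1 := Finset.sum_filter_add_sum_filter_not ((arr Ω v0 d0).filter (fun t => t.length = n))
      (fun t => tip v0 d0 t ∈ Ω) wt
    have h2 := Finset.sum_filter_add_sum_filter_not
      (((arr Ω v0 d0).filter (fun t => t.length = n)).filter (fun t => tip v0 d0 t ∈ Ω))
      (fun t => ∀ i, i ≤ t.length → vx v0 d0 t i ≠ tip v0 d0 t) wt
    have f1 : ((((arr Ω v0 d0).filter (fun t => t.length = n)).filter (fun t => tip v0 d0 t ∈ Ω)).filter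
        (fun t => ∀ i, i ≤ t.length → vx v0 d0 t i ≠ tip v0 d0 t)) =
        (exte Ω v0 d0).filter (fun t => t.length = n) := by
      ext t
      simp only [Finset.mem_filter, mem_exte, mem_arr]
      tauto
    have f2 : ((((arr Ω v0 d0).filter (fun t => t.length = n)).filter (fun t => tip v0 d0 t ∈ Ω)).filter
        (fun t => ¬ ∀ i, i ≤ t.length → vx v0 d0 t i ≠ tip v0 d0 t)) =
        (back Ω v0 d0).filter (fun t => t.length = n) := by
      ext t
      simp only [Finset.mem_filter, mem_back, mem_arr]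
      tauto
    have f3 : (((arr Ω v0 d0).filter (fun t => t.length = n)).filter (fun t => ¬ tip v0 d0 t ∈ Ω)) =
        (exits Ω v0 d0).filter (fun t => t.length = n) := by
      ext t
      simp only [Finset.mem_filter, mem_exits, mem_arr]
      tauto
    rw [f1, f2, sum_back_slit h0 hoff (fun m => m = n), add_zero] at h2
    rw [f3, ← h2] at h1
    have f4 : (exits Ω v0 d0).filter (fun t => t.length < n + 1) =
        (exits Ω v0 d0).filter (fun t => t.length < n) ∪ (exits Ω v0 d0).filter (fun t => t.length = n) := by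
      ext t
      simp only [Finset.mem_filter, Finset.mem_union]
      constructor
      · rintro ⟨h3, h4⟩
        rcases Nat.lt_or_ge t.length n with h5 | h5
        · exact Or.inl ⟨h3, h5⟩
        · exact Or.inr ⟨h3, by omega⟩
      · rintro (⟨h3, h4⟩ | ⟨h3, h4⟩)
        · exact ⟨h3, by omega⟩
        · exact ⟨h3, by omega⟩
    have f5 : Disjoint ((exits Ω v0 d0).filter (fun t => t.length < n))
        ((exits Ω v0 d0).filter (fun t => t.length = n)) := by
      rw [Finset.disjoint_left]
      intro t h3 h4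
      rw [Finset.mem_filter] at h3 h4
      omega
    rw [f4, Finset.sum_union f5]
    linear_combination h1 + ih

end HexSlit
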