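import Pool.Agent.HexSlit.Defs

set_option autoImplicit false

namespace HexSlit

open HexObs Complex Finset

private lemma arg_re_im {d p : Pt} :
    (emb p / emb d).re = (ip p d : ℝ) / 2 * (Complex.normSq (emb d))⁻¹ ∧
      (emb p / emb d).im = (cross d p : ℝ) * (Real.sqrt 3 / 2) * (Complex.normSq (emb d))⁻¹ := by
  have h : emb p / emb d =
      (((Complex.normSq (emb d))⁻¹ : ℝ) : ℂ) * (emb p * (starRingEnd ℂ) (emb d)) := by
    rw [div_eq_mul_inv, Complex.inv_def, Complex.ofReal_inv]
    ring
  rw [h, Complex.re_ofReal_mul, Complex.im_ofReal_mul, re_emb_mul, im_emb_mul]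
  exact ⟨mul_comm _ _, mul_comm _ _⟩

/-- the position of the angle -/
private lemma arg_pos {d p : Pt} (hd : d ∈ dirs) (hp : Off d p) :
    emb p / emb d ≠ 0 ∧ arg (emb p / emb d) ≠ Real.pi ∧
      (0 ≤ cross d p → 0 ≤ arg (emb p / emb d)) ∧ (cross d p ≤ 0 → arg (emb p / emb d) ≤ 0) ∧
      (0 < ip p d → |arg (emb p / emb d)| < Real.pi / 2) := by
  have hn : 0 < (Complex.normSq (emb d))⁻¹ := inv_pos.2 (Complex.normSq_pos.2 (emb_ne hd))
  have h3 : (0 : ℝ) < Real.sqrt 3 / 2 := by positivity
  obtain ⟨hre, him⟩ := arg_re_im (d := d) (p := p)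
  have hre' : 0 < ip p d → 0 < (emb p / emb d).re := fun h => by
    rw [hre]
    have : (0 : ℝ) < ip p d := by exact_mod_cast h
    positivity
  have him0 : 0 < cross d p → 0 < (emb p / emb d).im := fun h => by
    rw [him]
    have : (0 : ℝ) < cross d p := by exact_mod_cast h
    positivity
  have him1 : cross d p < 0 → (emb p / emb d).im < 0 := fun h => by
    rw [him]
    have : (cross d p : ℝ) < 0 := by exact_mod_cast h
    have h5 := mul_pos h3 hn
    rw [mul_assoc]
    exact mul_neg_of_neg_of_pos this h5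
  have him2 : cross d p = 0 → (emb p / emb d).im = 0 := fun h => by
    rw [him, h]
    simp
  have hsl : emb p / emb d ∈ slitPlane := by
    rw [Complex.mem_slitPlane_iff]
    rcases hp with hp | hp
    · right
      rcases lt_or_gt_of_ne hp with h | h
      · exact (him1 h).ne
      · exact (him0 h).ne'
    · left
      exact hre' hp
  obtain ⟨h1, h2⟩ := mem_slitPlane_iff_arg.1 hsl
  have hax : cross d p = 0 → arg (emb p / emb d) = 0 := by
    intro h
    have h6 : 0 < (emb p / emb d).re := by
      rcases hp with hp | hp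
      · exact absurd h hp
      · exact hre' hp
    have h7 : emb p / emb d = (((emb p / emb d).re : ℝ) : ℂ) := by
      apply Complex.ext
      · simp
      · rw [him2 h]
        simp
    rw [h7]
    exact Complex.arg_ofReal_of_nonneg h6.le
  refine ⟨h2, h1, ?_, ?_, ?_⟩
  · intro h
    rw [Complex.arg_nonneg_iff]
    rcases h.lt_or_eq with h | h
    · exact (him0 h).le
    · exact (him2 h.symm).ge
  · intro h
    rcases h.lt_or_eq with h | h
    · exact (Complex.arg_neg_iff.2 (him1 h)).le
    · exact (hax h).le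
  · intro h
    exact Complex.abs_arg_lt_pi_div_two_iff.2 (Or.inl (hre' h))

/- S1 -/
/-- additivity of angles seen from a point whose backward ray is avoided -/
theorem arg_step {d p q : Pt} (hd : d ∈ dirs) (hp : Off d p) (hq : Off d q)
    (h : (0 ≤ cross d p ∧ 0 ≤ cross d q) ∨ (cross d p ≤ 0 ∧ cross d q ≤ 0) ∨ (0 < ip p d ∧ 0 < ip q d)) :
    arg (emb q / emb p) = arg (emb q / emb d) - arg (emb p / emb d) := by
  obtain ⟨p1, p2, p3, p4, p5⟩ := arg_pos hd hp
  obtain ⟨q1, q2, q3, q4, q5⟩ := arg_pos hd hq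
  have hd0 : emb d ≠ 0 := emb_ne hd
  have e1 : emb q / emb p = (emb q / emb d) * (emb p / emb d)⁻¹ := by
    rw [inv_div, div_mul_div_cancel₀ hd0]
  have e2 : arg (emb p / emb d)⁻¹ = -arg (emb p / emb d) := by
    rw [Complex.arg_inv, if_neg p2]
  have hpi := Real.pi_pos
  have p6 := Complex.neg_pi_lt_arg (emb p / emb d)
  have q6 := Complex.neg_pi_lt_arg (emb q / emb d)
  have p7 : arg (emb p / emb d) < Real.pi := lt_of_le_of_ne (Complex.arg_le_pi _) p2
  have q7 : arg (emb q / emb d) < Real.pi := lt_of_le_of_ne (Complex.arg_le_pi _) q2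
  rw [e1, Complex.arg_mul q1 (inv_ne_zero p1), e2]
  · ring
  · rw [e2]
    rcases h with ⟨h1, h2⟩ | ⟨h1, h2⟩ | ⟨h1, h2⟩
    · have := p3 h1
      have := q3 h2
      constructor <;> linarith
    · have := p4 h1
      have := q4 h2
      constructor <;> linarith
    · have a1 := abs_lt.1 (p5 h1)
      have a2 := abs_lt.1 (q5 h2)
      constructor <;> linarith [a1.1, a1.2, a2.1, a2.2]

end HexSlit
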