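import Pool.Agent.HexSlit.Dom
import Pool.Agent.HexSlit.Ident

/-!
The wedge of 300 degrees on the honeycomb lattice: the critical weight from the apex to the hexagon of
radius R stays between 1 and sqrt 2.
Start edge from o = (0,0) in direction e0 = (1,0); a = p.1 + 2 p.2, b = p.1 - p.2.
-/

set_option autoImplicit false

namespace HexSlit

open HexObs Complex Finset

/-- the wedge of 300 degrees: union of two half planes. -/
def Wg (p : Pt) : Prop := 3 ≤ p.1 + 2 * p.2 ∨ 3 ≤ p.1 - p.2

instance (p : Pt) : Decidable (Wg p) := by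
  unfold Wg
  infer_instance

/-- the vertices of the wedge inside the hexagon, and the vertex (1,0) at the apex. -/
def InC (R : ℤ) (p : Pt) : Prop :=
  (((p.1 - p.2) % 3 = 0 ∨ (p.1 - p.2) % 3 = 1) ∧ Wg p ∧
    -(3 * R) ≤ p.1 + 2 * p.2 ∧ p.1 + 2 * p.2 ≤ 3 * R + 1 ∧ -(3 * R) ≤ p.1 - p.2 ∧ p.1 - p.2 ≤ 3 * R + 1 ∧
    2 * p.1 + p.2 ≤ 3 * R) ∨ p = (1, 0)

instance (R : ℤ) (p : Pt) : Decidable (InC R p) := by
  unfold InC
  infer_instance

/-- the domain as a finset -/
noncomputable def cor (R : ℤ) : Finset Pt :=
  ((Finset.Icc (-(3 * R + 1)) (3 * R + 1)) ×ˢ (Finset.Icc (-(3 * R + 1)) (3 * R + 1))).filter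
    (fun p => InC R p)

theorem mem_cor {R : ℤ} (hR : 1 ≤ R) {p : Pt} : p ∈ cor R ↔ InC R p := by
  unfold cor
  rw [Finset.mem_filter, Finset.mem_product, Finset.mem_Icc, Finset.mem_Icc]
  constructor
  · exact fun h => h.2
  · intro h
    refine ⟨?_, h⟩
    rcases h with h | h
    · omega
    · rw [h]
      simp only
      omega

theorem cor_off {R : ℤ} (hR : 1 ≤ R) : ∀ v ∈ cor R, Off e0 (v - o) := by
  intro v hv
  rw [mem_cor hR] at hv
  unfold Off cross ip e0 o
  simp only [Prod.fst_sub, Prod.snd_sub]
  rcases hv with ⟨_, h, _⟩ | h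
  · unfold Wg at h
    omega
  · rw [h]
    simp only
    omega

/-- the classes and the directions of the last edge. -/
lemma cor_last (t : List Bool) :
    (((vx o e0 t t.length).1 - (vx o e0 t t.length).2) % 3 = 0 ∧ Even t.length ∧
      (dx e0 t t.length = (1, 0) ∨ dx e0 t t.length = (-1, 1) ∨ dx e0 t t.length = (0, -1))) ∨
    (((vx o e0 t t.length).1 - (vx o e0 t t.length).2) % 3 = 1 ∧ ¬ Even t.length ∧
      (dx e0 t t.length = (-1, 0) ∨ dx e0 t t.length = (0, 1) ∨ dx e0 t t.length = (1, -1))) := by
  have h0 : e0 ∈ dirs := by decide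
  have hc := cl_vx o e0 t t.length
  by_cases he : Even t.length
  · left
    rw [if_pos he] at hc
    refine ⟨?_, he, ?_⟩
    · have h1 : (((vx o e0 t t.length).1 - (vx o e0 t t.length).2 : ℤ) : ZMod 3) = 0 := by
        have h2 : cl o = 0 := by decide
        rw [h2] at hc
        exact hc
      exact Int.emod_eq_zero_of_dvd ((ZMod.intCast_zmod_eq_zero_iff_dvd _ 3).1 h1)
    · rcases step_even h0 t he with ⟨h, _⟩ | ⟨h, _⟩ | ⟨h, _⟩
      · left
        rw [h]
        rfl
      · right; left
        rw [h]
        decide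
      · right; right
        rw [h]
        decide
  · right
    rw [if_neg he] at hc
    refine ⟨?_, he, ?_⟩
    · have h1 : (((vx o e0 t t.length).1 - (vx o e0 t t.length).2 - 1 : ℤ) : ZMod 3) = 0 := by
        have h2 : cl o + cl e0 = 1 := by decide
        rw [h2] at hc
        unfold cl at hc
        push_cast at hc ⊢
        rw [hc]
        ring
      have h3 := (ZMod.intCast_zmod_eq_zero_iff_dvd _ 3).1 h1
      push_cast at h3
      omega
    · rcases step_odd h0 t he with ⟨h, _⟩ | ⟨h, _⟩ | ⟨h, _⟩
      · left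
        rw [h]
        decide
      · right; left
        rw [h]
        decide
      · right; right
        rw [h]
        decide

/-- the steps out of the domain. -/
lemma cor_step {R : ℤ} (hR : 1 ≤ R) {p q d : Pt} (hq : q = p + d)
    (hp : InC R p) (hnq : ¬ InC R q)
    (hd : ((p.1 - p.2) % 3 = 0 ∧ (d = (1, 0) ∨ d = (-1, 1) ∨ d = (0, -1))) ∨
      ((p.1 - p.2) % 3 = 1 ∧ (d = (-1, 0) ∨ d = (0, 1) ∨ d = (1, -1)))) :
    (d = (1, 0) ∧ 2 * p.1 + p.2 = 3 * R) ∨
    (d = (0, 1) ∧ p.1 + 2 * p.2 = 3 * R + 1) ∨
    (d = (1, -1) ∧ p.1 - p.2 = 3 * R + 1) ∨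
    (d = (-1, 1) ∧ 3 ≤ p.1 + 2 * p.2 ∧ p.1 - p.2 = -(3 * R)) ∨
    (d = (0, -1) ∧ 3 ≤ p.1 - p.2 ∧ p.1 + 2 * p.2 = -(3 * R)) ∨
    (d = (-1, 1) ∧ p.1 - p.2 = 3 ∧ p.1 + 2 * p.2 < 0) ∨
    (d = (0, -1) ∧ p.1 + 2 * p.2 = 3 ∧ p.1 - p.2 < 0) ∨
    (d = (-1, 0) ∧ p = (1, 0)) := by
  obtain ⟨p1, p2⟩ := p
  obtain ⟨q1, q2⟩ := q
  unfold InC Wg at hp hnq
  simp only [Prod.mk.injEq] at hp hnq hd ⊢
  rcases hd with ⟨hm, rfl | rfl | rfl⟩ | ⟨hm, rfl | rfl | rfl⟩ <;>
    simp only [Prod.mk_add_mk, Prod.mk.injEq] at hq <;> obtain ⟨rfl, rfl⟩ := hq <;>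
    simp (config := { decide := true }) only [false_and, or_false, false_or, true_and] <;> omega

lemma cor_len {R : ℤ} (hR : 1 ≤ R) {t : List Bool} (ht : t ∈ exits (cor R) o e0) : 1 ≤ t.length := by
  obtain ⟨hA, htip⟩ := mem_exits.1 ht
  by_contra h
  have h1 : t = [] := List.eq_nil_of_length_eq_zero (by omega)
  rw [h1] at htip
  apply htip
  rw [mem_cor hR]
  exact Or.inr rfl

lemma vx_one (t : List Bool) : vx o e0 t 1 = (1, 0) := by
  show o + e0 = (1, 0)
  decide

/-- after the apex the walk never goes back. -/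
lemma cor_first {R : ℤ} {t : List Bool} (hA : IsArr (cor R) o e0 t) (hlen : 1 ≤ t.length)
    (hp : vx o e0 t t.length = (1, 0)) : dx e0 t t.length ≠ (-1, 0) := by
  have h1 : t.length = 1 := by
    by_contra hne
    apply hA.inj 1 t.length (by omega) le_rfl
    rw [vx_one, hp]
  rw [h1, dx_succ]
  have h2 : dx e0 t 0 = e0 := rfl
  rw [h2]
  cases tf t 0 <;> decide

lemma off_e0 {v : Pt} (h : v.2 ≠ 0 ∨ 0 < v.1) : Off e0 (v - o) := by
  unfold Off cross ip e0 o
  simp only [Prod.fst_sub, Prod.snd_sub]
  omega

lemma cross_sum (p q : Pt) : cross e0 (p + q - (o + o)) = p.2 + q.2 := by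
  unfold cross e0 o
  simp only [Prod.fst_sub, Prod.snd_sub, Prod.fst_add, Prod.snd_add]
  ring

lemma off_dn {p q : Pt} (h : p.2 ≠ q.2 ∨ 2 * p.1 + p.2 < 2 * q.1 + q.2) : Off (-1, 0) (p - q) := by
  unfold Off cross ip
  simp only [Prod.fst_sub, Prod.snd_sub]
  omega

/-- the vertices of the walk -/
lemma cor_vx {R : ℤ} (hR : 1 ≤ R) {t : List Bool} (hA : IsArr (cor R) o e0 t) (i : ℕ) (hi : i ≤ t.length) :
    vx o e0 t i = (0, 0) ∨ InC R (vx o e0 t i) := by
  rcases Nat.eq_zero_or_pos i with h | h
  · left
    rw [h]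
    rfl
  · right
    exact (mem_cor hR).1 (hA.mem i h hi)

/-- the winding of the walks that leave through the right side. -/
lemma cor_right {R : ℤ} (hR : 1 ≤ R) {t : List Bool} (ht : t ∈ exits (cor R) o e0)
    (hd : dx e0 t t.length = (-1, 1)) (hb : (vx o e0 t t.length).1 - (vx o e0 t t.length).2 = 3)
    (ha : (vx o e0 t t.length).1 + 2 * (vx o e0 t t.length).2 ≤ -3) : HexObs.wind t = -4 := by
  obtain ⟨hA, htip⟩ := mem_exits.1 ht
  have h0 : e0 ∈ dirs := by decide
  have hv := cor_vx hR hA
  have hq : tip o e0 t = vx o e0 t t.length + dx e0 t t.length := vx_succ o e0 t t.length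
  rw [hd] at hq
  have hq1 : (tip o e0 t).1 = (vx o e0 t t.length).1 - 1 := by
    rw [hq]
    rfl
  have hq2 : (tip o e0 t).2 = (vx o e0 t t.length).2 + 1 := by
    rw [hq]
    rfl
  set s : List Bool := t ++ [true] with hs
  have hl : s.length = t.length + 1 := by simp [hs]
  have hA' : IsArr (insert (tip o e0 t) (cor R)) o e0 s := by
    rw [hs, isArr_append_one]
    refine ⟨⟨fun i h1 h2 => Finset.mem_insert_of_mem (hA.mem i h1 h2), hA.inj⟩,
      Finset.mem_insert_self _ _, ?_⟩
    intro i hi heq
    rcases hv i hi with h | h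
    · rw [h] at heq
      rw [← heq] at hq1 hq2
      simp only at hq1 hq2
      omega
    · exact htip (by rw [← heq]; exact (mem_cor hR).2 h)
  have hoff' : ∀ v ∈ insert (tip o e0 t) (cor R), Off e0 (v - o) := by
    intro v hv'
    rw [Finset.mem_insert] at hv'
    rcases hv' with h | h
    · rw [h]
      apply off_e0
      omega
    · exact cor_off hR v h
  have hds : dx e0 s s.length = (-1, 0) := by
    rw [hl, dx_succ, hs, dx_append le_rfl, hd]
    have h1 : tf (t ++ [true]) t.length = true := by
      have h2 := @tf_append_right t [true] 0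
      rw [Nat.add_zero] at h2
      rw [h2]
      rfl
    rw [h1]
    decide
  have hvs : vx o e0 s s.length = tip o e0 t := by
    rw [hl, hs, vx_append le_rfl]
    rfl
  have hts : tip o e0 s = tip o e0 t + (-1, 0) := by
    have h1 : tip o e0 s = vx o e0 s s.length + dx e0 s s.length := vx_succ o e0 s s.length
    rw [h1, hds, hvs]
  have ht1 : (tip o e0 s).1 = (vx o e0 t t.length).1 - 2 := by
    rw [hts]
    show (tip o e0 t).1 + -1 = _
    rw [hq1]
    ring
  have ht2 : (tip o e0 s).2 = (vx o e0 t t.length).2 + 1 := by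
    rw [hts]
    show (tip o e0 t).2 + 0 = _
    rw [hq2]
    ring
  have hw := (wind_right (Ω := insert (tip o e0 t) (cor R)) h0 hoff' hA' (by omega) ?_ ?_).2.2.2
    (by rw [hds]; decide)
  · have h1 : HexObs.wind s = HexObs.wind t + 1 := by
      rw [hs, wind_append]
      rfl
    omega
  · intro i hi
    rw [hds]
    apply off_dn
    rw [ht1, ht2]
    rcases Nat.lt_or_ge t.length i with h | h
    · have h1 : i = s.length := by omega
      rw [h1, hvs, hq1, hq2]
      right
      omega
    · have h1 : vx o e0 s i = vx o e0 t i := by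
        rw [hs, vx_append (by omega)]
      rw [h1]
      rcases hv i h with h2 | h2
      · rw [h2]
        simp only
        omega
      · unfold InC Wg at h2
        rcases h2 with h2 | h2
        · omega
        · rw [h2]
          simp only
          omega
  · rw [hvs, cross_sum, ht2, hq2]
    omega

/-- the winding of the walks that leave through the left side. -/
lemma cor_left {R : ℤ} (hR : 1 ≤ R) {t : List Bool} (ht : t ∈ exits (cor R) o e0)
    (hd : dx e0 t t.length = (0, -1)) (hb : (vx o e0 t t.length).1 - (vx o e0 t t.length).2 ≤ -3)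
    (ha : (vx o e0 t t.length).1 + 2 * (vx o e0 t t.length).2 = 3) : HexObs.wind t = 4 := by
  obtain ⟨hA, htip⟩ := mem_exits.1 ht
  have h0 : e0 ∈ dirs := by decide
  have hv := cor_vx hR hA
  have hq : tip o e0 t = vx o e0 t t.length + dx e0 t t.length := vx_succ o e0 t t.length
  rw [hd] at hq
  have hq1 : (tip o e0 t).1 = (vx o e0 t t.length).1 := by
    rw [hq]
    exact add_zero _
  have hq2 : (tip o e0 t).2 = (vx o e0 t t.length).2 - 1 := by
    rw [hq]
    rfl
  set s : List Bool := t ++ [false] with hs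
  have hl : s.length = t.length + 1 := by simp [hs]
  have hA' : IsArr (insert (tip o e0 t) (cor R)) o e0 s := by
    rw [hs, isArr_append_one]
    refine ⟨⟨fun i h1 h2 => Finset.mem_insert_of_mem (hA.mem i h1 h2), hA.inj⟩,
      Finset.mem_insert_self _ _, ?_⟩
    intro i hi heq
    rcases hv i hi with h | h
    · rw [h] at heq
      rw [← heq] at hq1 hq2
      simp only at hq1 hq2
      omega
    · exact htip (by rw [← heq]; exact (mem_cor hR).2 h)
  have hoff' : ∀ v ∈ insert (tip o e0 t) (cor R), Off e0 (v - o) := by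
    intro v hv'
    rw [Finset.mem_insert] at hv'
    rcases hv' with h | h
    · rw [h]
      apply off_e0
      omega
    · exact cor_off hR v h
  have hds : dx e0 s s.length = (-1, 0) := by
    rw [hl, dx_succ, hs, dx_append le_rfl, hd]
    have h1 : tf (t ++ [false]) t.length = false := by
      have h2 := @tf_append_right t [false] 0
      rw [Nat.add_zero] at h2
      rw [h2]
      rfl
    rw [h1]
    decide
  have hvs : vx o e0 s s.length = tip o e0 t := by
    rw [hl, hs, vx_append le_rfl]
    rfl
  have hts : tip o e0 s = tip o e0 t + (-1, 0) := by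
    have h1 : tip o e0 s = vx o e0 s s.length + dx e0 s s.length := vx_succ o e0 s s.length
    rw [h1, hds, hvs]
  have ht1 : (tip o e0 s).1 = (vx o e0 t t.length).1 - 1 := by
    rw [hts]
    show (tip o e0 t).1 + -1 = _
    rw [hq1]
    ring
  have ht2 : (tip o e0 s).2 = (vx o e0 t t.length).2 - 1 := by
    rw [hts]
    show (tip o e0 t).2 + 0 = _
    rw [hq2]
    ring
  have hw := (wind_left (Ω := insert (tip o e0 t) (cor R)) h0 hoff' hA' (by omega) ?_ ?_).2.2.2
    (by rw [hds]; decide)
  · have h1 : HexObs.wind s = HexObs.wind t - 1 := by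
      rw [hs, wind_append]
      rfl
    omega
  · intro i hi
    rw [hds]
    apply off_dn
    rw [ht1, ht2]
    rcases Nat.lt_or_ge t.length i with h | h
    · have h1 : i = s.length := by omega
      rw [h1, hvs, hq1, hq2]
      right
      omega
    · have h1 : vx o e0 s i = vx o e0 t i := by
        rw [hs, vx_append (by omega)]
      rw [h1]
      rcases hv i h with h2 | h2
      · rw [h2]
        simp only
        omega
      · unfold InC Wg at h2
        rcases h2 with h2 | h2
        · omega
        · rw [h2]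
          simp only
          omega
  · rw [hvs, cross_sum, ht2, hq2]
    omega

/-- the windings of all the exits. -/
theorem cor_wind {R : ℤ} (hR : 1 ≤ R) {t : List Bool} (ht : t ∈ exits (cor R) o e0) :
    (Wg (tip o e0 t) ∧ -2 ≤ HexObs.wind t ∧ HexObs.wind t ≤ 2) ∨
    (¬ Wg (tip o e0 t) ∧ (HexObs.wind t = 4 ∨ HexObs.wind t = -4)) := by
  obtain ⟨hA, htip⟩ := mem_exits.1 ht
  have h0 : e0 ∈ dirs := by decide
  have hoff := cor_off hR
  have hlen := cor_len hR ht
  have hp : InC R (vx o e0 t t.length) := (mem_cor hR).1 (hA.mem _ hlen le_rfl)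
  have hv := cor_vx hR hA
  have hnq : ¬ InC R (tip o e0 t) := fun h => htip ((mem_cor hR).2 h)
  have hq : tip o e0 t = vx o e0 t t.length + dx e0 t t.length := vx_succ o e0 t t.length
  have hlast := cor_last t
  have hstep := cor_step hR hq hp hnq (by
    rcases hlast with h | h
    · exact Or.inl ⟨h.1, h.2.2⟩
    · exact Or.inr ⟨h.1, h.2.2⟩)
  have hL := wind_left h0 hoff hA hlen
  have hRt := wind_right h0 hoff hA hlen
  have hU := wind_up h0 hoff hA hlen
  have hfirst := cor_first hA hlen
  have hr := cor_right hR ht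
  have hl := cor_left hR ht
  have hm : ((vx o e0 t t.length).1 - (vx o e0 t t.length).2) % 3 = 0 ∨
      ((vx o e0 t t.length).1 - (vx o e0 t t.length).2) % 3 = 1 := by
    rcases hlast with h | h
    · exact Or.inl h.1
    · exact Or.inr h.1
  rw [cross_sum] at hL hRt hU
  rcases hstep with ⟨hd, h1⟩ | ⟨hd, h1⟩ | ⟨hd, h1⟩ | ⟨hd, h1, h2⟩ | ⟨hd, h1, h2⟩ | ⟨hd, h1, h2⟩ |
    ⟨hd, h1, h2⟩ | ⟨hd, h1⟩
  · left
    have hfree : ∀ i, i ≤ t.length → Off (dx e0 t t.length) (tip o e0 t - vx o e0 t i) := by
      intro i hi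
      rw [hd] at hq ⊢
      generalize tip o e0 t = q at *
      generalize vx o e0 t t.length = p at *
      have e1 : q.1 = p.1 + 1 := by rw [hq]; rfl
      have e2 : q.2 = p.2 + 0 := by rw [hq]; rfl
      right
      rcases hv i hi with h | h
      · rw [h]
        unfold ip
        simp only [Prod.fst_sub, Prod.snd_sub]
        omega
      · unfold InC Wg at h
        generalize vx o e0 t i = w at *
        unfold ip
        simp only [Prod.fst_sub, Prod.snd_sub]
        rcases h with h | h
        · omega
        · rw [h]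
          simp only
          omega
    have e1 : (tip o e0 t).1 = (vx o e0 t t.length).1 + 1 := by rw [hq, hd]; rfl
    have e2 : (tip o e0 t).2 = (vx o e0 t t.length).2 + 0 := by rw [hq, hd]; rfl
    refine ⟨?_, ?_⟩
    · unfold Wg
      omega
    · have hw : HexObs.wind t = 0 := by
        rcases lt_trichotomy ((vx o e0 t t.length).2 + (tip o e0 t).2) 0 with h | h | h
        · exact (hRt hfree h).1 hd
        · exact hU hfree h hd
        · exact (hL hfree h).1 hd
      omega
  · left
    have hfree : ∀ i, i ≤ t.length → Off (dx e0 t t.length) (tip o e0 t - vx o e0 t i) := by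
      intro i hi
      rw [hd] at hq ⊢
      generalize tip o e0 t = q at *
      generalize vx o e0 t t.length = p at *
      have e1 : q.1 = p.1 + 0 := by rw [hq]; rfl
      have e2 : q.2 = p.2 + 1 := by rw [hq]; rfl
      right
      rcases hv i hi with h | h
      · rw [h]
        unfold ip
        simp only [Prod.fst_sub, Prod.snd_sub]
        omega
      · unfold InC Wg at h
        generalize vx o e0 t i = w at *
        unfold ip
        simp only [Prod.fst_sub, Prod.snd_sub]
        rcases h with h | h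
        · omega
        · rw [h]
          simp only
          omega
    have e1 : (tip o e0 t).1 = (vx o e0 t t.length).1 + 0 := by rw [hq, hd]; rfl
    have e2 : (tip o e0 t).2 = (vx o e0 t t.length).2 + 1 := by rw [hq, hd]; rfl
    have hp' : 2 * (vx o e0 t t.length).1 + (vx o e0 t t.length).2 ≤ 3 * R := by
      rcases hp with h | h
      · exact h.2.2.2.2.2.2
      · rw [h]
        simp only
        omega
    refine ⟨?_, ?_⟩
    · unfold Wg
      omega
    · have hw : HexObs.wind t = 1 := (hL hfree (by omega)).2.1 (by rw [hd]; decide)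
      omega
  · left
    have hfree : ∀ i, i ≤ t.length → Off (dx e0 t t.length) (tip o e0 t - vx o e0 t i) := by
      intro i hi
      rw [hd] at hq ⊢
      generalize tip o e0 t = q at *
      generalize vx o e0 t t.length = p at *
      have e1 : q.1 = p.1 + 1 := by rw [hq]; rfl
      have e2 : q.2 = p.2 + -1 := by rw [hq]; rfl
      right
      rcases hv i hi with h | h
      · rw [h]
        unfold ip
        simp only [Prod.fst_sub, Prod.snd_sub]
        omega
      · unfold InC Wg at h
        generalize vx o e0 t i = w at *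
        unfold ip
        simp only [Prod.fst_sub, Prod.snd_sub]
        rcases h with h | h
        · omega
        · rw [h]
          simp only
          omega
    have e1 : (tip o e0 t).1 = (vx o e0 t t.length).1 + 1 := by rw [hq, hd]; rfl
    have e2 : (tip o e0 t).2 = (vx o e0 t t.length).2 + -1 := by rw [hq, hd]; rfl
    have hp' : 2 * (vx o e0 t t.length).1 + (vx o e0 t t.length).2 ≤ 3 * R := by
      rcases hp with h | h
      · exact h.2.2.2.2.2.2
      · rw [h]
        simp only
        omega
    refine ⟨?_, ?_⟩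
    · unfold Wg
      omega
    · have hw : HexObs.wind t = -1 := (hRt hfree (by omega)).2.1 (by rw [hd]; decide)
      omega
  · left
    have hfree : ∀ i, i ≤ t.length → Off (dx e0 t t.length) (tip o e0 t - vx o e0 t i) := by
      intro i hi
      rw [hd] at hq ⊢
      generalize tip o e0 t = q at *
      generalize vx o e0 t t.length = p at *
      have e1 : q.1 = p.1 + -1 := by rw [hq]; rfl
      have e2 : q.2 = p.2 + 1 := by rw [hq]; rfl
      right
      rcases hv i hi with h | h
      · rw [h]
        unfold ip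
        simp only [Prod.fst_sub, Prod.snd_sub]
        omega
      · unfold InC Wg at h
        generalize vx o e0 t i = w at *
        unfold ip
        simp only [Prod.fst_sub, Prod.snd_sub]
        rcases h with h | h
        · omega
        · rw [h]
          simp only
          omega
    have e1 : (tip o e0 t).1 = (vx o e0 t t.length).1 + -1 := by rw [hq, hd]; rfl
    have e2 : (tip o e0 t).2 = (vx o e0 t t.length).2 + 1 := by rw [hq, hd]; rfl
    have hp' : 2 * (vx o e0 t t.length).1 + (vx o e0 t t.length).2 ≤ 3 * R := by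
      rcases hp with h | h
      · exact h.2.2.2.2.2.2
      · rw [h]
        simp only
        omega
    refine ⟨?_, ?_⟩
    · unfold Wg
      omega
    · have hw : HexObs.wind t = 2 := (hL hfree (by omega)).2.2.1 (by rw [hd]; decide)
      omega
  · left
    have hfree : ∀ i, i ≤ t.length → Off (dx e0 t t.length) (tip o e0 t - vx o e0 t i) := by
      intro i hi
      rw [hd] at hq ⊢
      generalize tip o e0 t = q at *
      generalize vx o e0 t t.length = p at *
      have e1 : q.1 = p.1 + 0 := by rw [hq]; rfl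
      have e2 : q.2 = p.2 + -1 := by rw [hq]; rfl
      right
      rcases hv i hi with h | h
      · rw [h]
        unfold ip
        simp only [Prod.fst_sub, Prod.snd_sub]
        omega
      · unfold InC Wg at h
        generalize vx o e0 t i = w at *
        unfold ip
        simp only [Prod.fst_sub, Prod.snd_sub]
        rcases h with h | h
        · omega
        · rw [h]
          simp only
          omega
    have e1 : (tip o e0 t).1 = (vx o e0 t t.length).1 + 0 := by rw [hq, hd]; rfl
    have e2 : (tip o e0 t).2 = (vx o e0 t t.length).2 + -1 := by rw [hq, hd]; rfl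
    have hp' : 2 * (vx o e0 t t.length).1 + (vx o e0 t t.length).2 ≤ 3 * R := by
      rcases hp with h | h
      · exact h.2.2.2.2.2.2
      · rw [h]
        simp only
        omega
    refine ⟨?_, ?_⟩
    · unfold Wg
      omega
    · have hw : HexObs.wind t = -2 := (hRt hfree (by omega)).2.2.1 (by rw [hd]; decide)
      omega
  · right
    have e1 : (tip o e0 t).1 = (vx o e0 t t.length).1 + -1 := by rw [hq, hd]; rfl
    have e2 : (tip o e0 t).2 = (vx o e0 t t.length).2 + 1 := by rw [hq, hd]; rfl
    refine ⟨?_, Or.inr (hr hd h1 (by omega))⟩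
    unfold Wg
    omega
  · right
    have e1 : (tip o e0 t).1 = (vx o e0 t t.length).1 + 0 := by rw [hq, hd]; rfl
    have e2 : (tip o e0 t).2 = (vx o e0 t t.length).2 + -1 := by rw [hq, hd]; rfl
    refine ⟨?_, Or.inl (hl hd (by omega) h1)⟩
    unfold Wg
    omega
  · exact absurd hd (hfirst h1)

/-- the critical weight of the walks from the apex of the wedge of 300 degrees that stay in the wedge and
leave the hexagon of radius R -/
noncomputable def cornerSum (R : ℤ) : ℝ :=
  ∑ t ∈ (exits (cor R) o e0).filter (fun t => Wg (tip o e0 t)), xc ^ t.length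

theorem corner_re {R : ℤ} (hR : 1 ≤ R) :
    ∑ t ∈ (exits (cor R) o e0).filter (fun t => Wg (tip o e0 t)),
      xc ^ t.length * Real.cos ((HexObs.wind t : ℝ) * (Real.pi / 8)) = 1 := by
  have h1 := slit_identity (cor R) (by decide : e0 ∈ dirs) (cor_off hR)
  have h2 := congrArg Complex.re h1
  rw [Complex.re_sum, Complex.one_re] at h2
  rw [← h2, Finset.sum_filter]
  apply Finset.sum_congr rfl
  intro t ht
  have e : (wt t).re = xc ^ t.length * Real.cos ((HexObs.wind t : ℝ) * (Real.pi / 8)) := by
    unfold wt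
    rw [← Complex.ofReal_pow, Complex.mul_re, Complex.ofReal_re, Complex.ofReal_im, mul_zero, sub_zero,
      Complex.exp_ofReal_mul_I_re, mul_comm]
  rw [e]
  rcases cor_wind hR ht with ⟨h, _⟩ | ⟨h, hw⟩
  · rw [if_pos h]
  · rw [if_neg h]
    have hc : Real.cos ((HexObs.wind t : ℝ) * (Real.pi / 8)) = 0 := by
      rcases hw with hw | hw
      · rw [hw]
        rw [show ((4 : ℤ) : ℝ) * (Real.pi / 8) = Real.pi / 2 by push_cast; ring]
        exact Real.cos_pi_div_two
      · rw [hw]
        rw [show ((-4 : ℤ) : ℝ) * (Real.pi / 8) = -(Real.pi / 2) by push_cast; ring, Real.cos_neg]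
        exact Real.cos_pi_div_two
    rw [hc, mul_zero]

/-- the weight from the apex of the wedge of 300 degrees to the hexagon of radius R is in [1, sqrt 2]. -/
theorem corner300 {R : ℤ} (hR : 1 ≤ R) : 1 ≤ cornerSum R ∧ cornerSum R ≤ Real.sqrt 2 := by
  have h1 := corner_re hR
  have hx := xc_pos
  constructor
  · rw [← h1]
    unfold cornerSum
    apply Finset.sum_le_sum
    intro t _
    have := Real.cos_le_one ((HexObs.wind t : ℝ) * (Real.pi / 8))
    have h2 : 0 < xc ^ t.length := pow_pos hx _
    nlinarith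
  · have h2 : cornerSum R * (Real.sqrt 2 / 2) ≤ 1 := by
      rw [← h1]
      unfold cornerSum
      rw [Finset.sum_mul]
      apply Finset.sum_le_sum
      intro t ht
      rw [Finset.mem_filter] at ht
      apply mul_le_mul_of_nonneg_left _ (pow_pos hx _).le
      rcases cor_wind hR ht.1 with ⟨_, hw1, hw2⟩ | ⟨h, _⟩
      · rw [← Real.cos_pi_div_four]
        have hpi := Real.pi_pos
        have hw1' : (-2 : ℝ) ≤ (HexObs.wind t : ℝ) := by exact_mod_cast hw1
        have hw2' : (HexObs.wind t : ℝ) ≤ 2 := by exact_mod_cast hw2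
        rw [← Real.cos_abs ((HexObs.wind t : ℝ) * (Real.pi / 8))]
        apply Real.cos_le_cos_of_nonneg_of_le_pi (abs_nonneg _) (by linarith)
        rw [abs_le]
        constructor <;> nlinarith
      · exact absurd ht.2 h
    have h3 : Real.sqrt 2 * Real.sqrt 2 = 2 := Real.mul_self_sqrt (by norm_num)
    have h4 : 0 < Real.sqrt 2 := Real.sqrt_pos.2 (by norm_num)
    nlinarith

end HexSlit
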