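import Pool.Agent.HexObs.Im
import Pool.Agent.HexObs.Sym

/-!
Slit plane on the honeycomb lattice: definitions (project SLIT, captain helper26).
Start edge from o = (0,0) in direction e0 = (1,0). For a point p:
a = ip p (rotL e0) = p.1 + 2 p.2, b = ip p (rotR e0) = p.1 - p.2, level a + b = ip p e0 = 2 p.1 + p.2,
cross e0 p = p.2 (left iff p.2 > 0). Slit: p.2 = 0, p.1 <= 0.
-/

set_option autoImplicit false

namespace HexSlit

open HexObs

/-- `p` is not on the closed ray `{- k d : k ≥ 0}`. -/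
def Off (d p : Pt) : Prop := cross d p ≠ 0 ∨ 0 < ip p d

/-- the start vertex -/
def o : Pt := (0, 0)

/-- the first direction -/
def e0 : Pt := (1, 0)

/-- The domain with parameters: hexagonal vertices off the slit; left part (and axis)
`a < la`, `lb < b`, `lh < a + b < 6 r - 1`; right part `b < 3 r`, `1 - 3 r < a + b`. -/
def InDom (r la lb lh : ℤ) (p : Pt) : Prop :=
  ((p.1 - p.2) % 3 = 0 ∨ (p.1 - p.2) % 3 = 1) ∧ (p.2 ≠ 0 ∨ 0 < p.1) ∧
  (0 ≤ p.2 → p.1 + 2 * p.2 < la ∧ lb < p.1 - p.2 ∧ lh < 2 * p.1 + p.2 ∧ 2 * p.1 + p.2 < 6 * r - 1) ∧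
  (p.2 < 0 → p.1 - p.2 < 3 * r ∧ 1 - 9 * r < 2 * p.1 + p.2)

instance (r la lb lh : ℤ) (p : Pt) : Decidable (InDom r la lb lh p) := by
  unfold InDom
  infer_instance

/-- the domain as a finset (the box is large enough for `1 ≤ r`, see `mem_dom`) -/
noncomputable def dom (r la lb lh : ℤ) : Finset Pt :=
  ((Finset.Icc (-(|la| + |lb| + |lh| + 6 * r)) (|la| + |lb| + |lh| + 6 * r)) ×ˢ
    (Finset.Icc (-(|la| + |lb| + |lh| + 6 * r)) (|la| + |lb| + |lh| + 6 * r))).filter
    (fun p => InDom r la lb lh p)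

/-- the four domains -/
noncomputable def D0 (r : ℤ) : Finset Pt := dom r (3 * r) (1 - 12 * r) (1 - 9 * r)
noncomputable def E2 (r : ℤ) : Finset Pt := dom r (18 * r) (1 - 12 * r) (1 - 9 * r)
noncomputable def E3 (r : ℤ) : Finset Pt := dom r (18 * r) (1 - 27 * r) (1 - 9 * r)
noncomputable def E4 (r : ℤ) : Finset Pt := dom r (18 * r) (1 - 27 * r) (-(54 * r))

/-- generating function of the exits with winding `n` -/
noncomputable def W (Ω : Finset Pt) (n : ℤ) : ℝ := Wn Ω o e0 n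

lemma W_nonneg (Ω : Finset Pt) (n : ℤ) : 0 ≤ W Ω n := Wn_nonneg Ω o e0 n

end HexSlit
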