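import Pool.Agent.HexSlit.Arg

set_option autoImplicit false

namespace HexSlit

open HexObs Complex Finset

private lemma ws_cross_dir : ∀ d ∈ dirs, ∀ e ∈ dirs, -1 ≤ cross d e ∧ cross d e ≤ 1 := by
  decide

private lemma ws_ip_dir : ∀ d ∈ dirs, ∀ e ∈ dirs, cross d e ≠ 0 → -1 ≤ ip e d ∧ ip e d ≤ 1 := by
  decide

private lemma ws_dir_pos : ∀ d ∈ dirs, ∀ e ∈ dirs, 0 < cross d e → e = rotL d ∨ e = rotL (rotL d) := by
  decide

private lemma ws_dir_neg : ∀ d ∈ dirs, ∀ e ∈ dirs, cross d e < 0 → e = rotR d ∨ e = rotR (rotR d) := by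
  decide

private lemma ws_dir_zero : ∀ d ∈ dirs, ∀ e ∈ dirs, cross d e = 0 → e = d ∨ e = -d := by
  decide

private lemma ws_turn_ne : ∀ d ∈ dirs, ∀ b : Bool, turn b d ≠ d ∧ turn b d ≠ -d := by
  decide

private lemma ws_cross_add (d p q : Pt) : cross d (p + q) = cross d p + cross d q := by
  simp only [cross, Prod.fst_add, Prod.snd_add]
  ring

private lemma ws_cross_sub (d p q : Pt) : cross d (p - q) = cross d p - cross d q := by
  simp only [cross, Prod.fst_sub, Prod.snd_sub]
  ring

private lemma ws_cross_neg_left (d p : Pt) : cross (-d) p = - cross d p := by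
  simp only [cross, Prod.fst_neg, Prod.snd_neg]
  ring

private lemma ws_ip_neg_right (p d : Pt) : ip p (-d) = - ip p d := by
  simp only [ip, Prod.fst_neg, Prod.snd_neg]
  ring

private lemma ws_cross_self (d : Pt) : cross d d = 0 := by
  unfold cross
  ring

/-- telescoping of the angles -/
private lemma ws_tel {d : Pt} (hd : d ∈ dirs) (q : ℕ → Pt) (n : ℕ) (hoff : ∀ i, i ≤ n → Off d (q i))
    (hstep : ∀ i, i < n → (0 ≤ cross d (q i) ∧ 0 ≤ cross d (q (i + 1))) ∨
      (cross d (q i) ≤ 0 ∧ cross d (q (i + 1)) ≤ 0) ∨ (0 < ip (q i) d ∧ 0 < ip (q (i + 1)) d)) :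
    ∑ i ∈ range n, arg (emb (q (i + 1)) / emb (q i)) =
      arg (emb (q n) / emb d) - arg (emb (q 0) / emb d) := by
  have e : ∀ i ∈ range n, arg (emb (q (i + 1)) / emb (q i)) =
      arg (emb (q (i + 1)) / emb d) - arg (emb (q i) / emb d) := by
    intro i hi
    rw [mem_range] at hi
    exact arg_step hd (hoff i (by omega)) (hoff (i + 1) (by omega)) (hstep i hi)
  rw [Finset.sum_congr rfl e, Finset.sum_range_sub (fun j => arg (emb (q j) / emb d))]

private lemma ws_step_sign {d p e : Pt} (hd : d ∈ dirs) (he : e ∈ dirs) :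
    (0 ≤ cross d (p + p) ∧ 0 ≤ cross d (p + p + e)) ∨ (cross d (p + p) ≤ 0 ∧ cross d (p + p + e) ≤ 0) := by
  have h := ws_cross_dir d hd e he
  have a1 := ws_cross_add d p p
  have a2 := ws_cross_add d (p + p) e
  omega

private lemma ws_step_sign2 {d p e : Pt} (hd : d ∈ dirs) (he : e ∈ dirs) :
    (0 ≤ cross d (p + p) ∧ 0 ≤ cross d ((p + e) + (p + e))) ∨
      (cross d (p + p) ≤ 0 ∧ cross d ((p + e) + (p + e)) ≤ 0) := by
  have h := ws_cross_dir d hd e he
  have a1 := ws_cross_add d p p
  have a2 := ws_cross_add d (p + e) (p + e)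
  have a3 := ws_cross_add d p e
  omega

private lemma ws_off_two {d p : Pt} (h : Off d p) : Off d (p + p) := by
  rcases h with h | h
  · left
    rw [ws_cross_add]
    omega
  · right
    rw [ip_add_left]
    omega

private lemma ws_im {d P : Pt} (hd : d ∈ dirs) : (emb P / emb d).im = (cross d P : ℝ) * (Real.sqrt 3 / 2) := by
  have hn : Complex.normSq (emb d) = 1 := by
    have h := Complex.mul_conj (emb d)
    have h1 := congrArg Complex.re h
    rw [re_emb_mul, ip_self_dir hd, Complex.ofReal_re] at h1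
    rw [← h1]
    norm_num
  rw [div_eq_mul_inv, Complex.inv_def, hn, inv_one, Complex.ofReal_one, mul_one, im_emb_mul]

/-- arguments of the four directions -/
private lemma ws_args : arg (-zt) = -(2 * (Real.pi / 3)) ∧ arg (-(zt * zt)) = - (Real.pi / 3) ∧
    arg (-zt⁻¹) = 2 * (Real.pi / 3) ∧ arg (-(zt⁻¹ * zt⁻¹)) = Real.pi / 3 := by
  have hpi := Real.pi_pos
  have h1 : arg zt = Real.pi / 3 := arg_zt
  have hi : arg zt⁻¹ = - (Real.pi / 3) := arg_zt_inv
  have hz2 : arg (zt * zt) = 2 * (Real.pi / 3) := by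
    rw [Complex.arg_mul zt_ne zt_ne, arg_zt]
    · ring
    · rw [arg_zt]
      constructor <;> linarith
  have hz2i : arg (zt⁻¹ * zt⁻¹) = - (2 * (Real.pi / 3)) := by
    rw [Complex.arg_mul (inv_ne_zero zt_ne) (inv_ne_zero zt_ne), hi]
    · ring
    · rw [hi]
      constructor <;> linarith
  have pos : ∀ w : ℂ, 0 < arg w → arg w < Real.pi → 0 < w.im := by
    intro w a b
    by_contra hcon
    push Not at hcon
    rcases lt_or_eq_of_le hcon with h | h
    · have := Complex.arg_neg_iff.2 h
      linarith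
    · rcases le_or_gt 0 w.re with hr | hr
      · have := Complex.arg_eq_zero_iff.2 ⟨hr, h⟩
        linarith
      · have := Complex.arg_eq_pi_iff.2 ⟨hr, h⟩
        linarith
  have neg : ∀ w : ℂ, arg w < 0 → w.im < 0 := fun w a => Complex.arg_neg_iff.1 a
  refine ⟨?_, ?_, ?_, ?_⟩
  · rw [Complex.arg_neg_eq_arg_sub_pi_of_im_pos (pos _ (by rw [h1]; positivity) (by rw [h1]; linarith)), h1]
    ring
  · rw [Complex.arg_neg_eq_arg_sub_pi_of_im_pos (pos _ (by rw [hz2]; positivity) (by rw [hz2]; linarith)), hz2]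
    ring
  · rw [Complex.arg_neg_eq_arg_add_pi_of_im_neg (neg _ (by rw [hi]; linarith)), hi]
    ring
  · rw [Complex.arg_neg_eq_arg_add_pi_of_im_neg (neg _ (by rw [hz2i]; linarith)), hz2i]
    ring

/-- the winding of a landing on the slit -/
private lemma ws_key {Ω : Finset Pt} {v0 d0 : Pt} (h0 : d0 ∈ dirs) (hoff : ∀ v ∈ Ω, Off d0 (v - v0))
    {t : List Bool} (ht : IsArr Ω v0 d0 t) (hlen : 1 ≤ t.length) (htip : ¬ Off d0 (tip v0 d0 t - v0)) :
    cross d0 (dx d0 t t.length) ≠ 0 ∧
    cross d0 (vx v0 d0 t t.length + tip v0 d0 t - (v0 + v0)) = - cross d0 (dx d0 t t.length) ∧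
    (wind t : ℝ) * (Real.pi / 3) =
      arg (emb (vx v0 d0 t t.length + tip v0 d0 t - (v0 + v0)) / emb d0) +
      arg (emb (dx d0 t t.length) / emb (-d0)) -
      arg (emb (vx v0 d0 t t.length + tip v0 d0 t - (v0 + v0)) / emb (-d0)) := by
  obtain ⟨l, hl⟩ : ∃ l, t.length = l + 1 := ⟨t.length - 1, by omega⟩
  set d1 := dx d0 t t.length with hd1
  have hd1m : d1 ∈ dirs := ds_mem h0 _
  have htipe : tip v0 d0 t = vx v0 d0 t t.length + d1 := rfl
  set Z : Pt := vx v0 d0 t t.length + vx v0 d0 t t.length + d1 with hZ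
  have hZ2 : vx v0 d0 t t.length + tip v0 d0 t = Z := by
    rw [htipe, hZ]
    abel
  rw [hZ2]
  have hvs : ∀ i, vx v0 d0 t (i + 1) = vx v0 d0 t i + dx d0 t i := fun i => rfl
  have hdxm : ∀ i, dx d0 t i ∈ dirs := fun i => ds_mem h0 _
  have hv0 : vx v0 d0 t 0 = v0 := rfl
  have hv1 : vx v0 d0 t 1 = v0 + d0 := rfl
  -- the tip
  have hc : cross d0 (tip v0 d0 t - v0) = 0 := by
    by_contra h
    exact htip (Or.inl h)
  have hip : ip (tip v0 d0 t - v0) d0 ≤ 0 := by
    by_contra h
    exact htip (Or.inr (by omega))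
  have hlast := hoff _ (ht.mem t.length hlen le_rfl)
  have hlc : cross d0 (vx v0 d0 t t.length - v0) = - cross d0 d1 := by
    have e : tip v0 d0 t - v0 = (vx v0 d0 t t.length - v0) + d1 := by
      rw [htipe]
      abel
    rw [e, ws_cross_add] at hc
    omega
  have hli : ip (vx v0 d0 t t.length - v0) d0 ≤ - ip d1 d0 := by
    have e : tip v0 d0 t - v0 = (vx v0 d0 t t.length - v0) + d1 := by
      rw [htipe]
      abel
    rw [e, ip_add_left] at hip
    omega
  have hcd : cross d0 d1 ≠ 0 := by
    intro h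
    have hl0 : cross d0 (vx v0 d0 t t.length - v0) = 0 := by
      rw [hlc, h, neg_zero]
    have hlp : 0 < ip (vx v0 d0 t t.length - v0) d0 := by
      rcases hlast with h' | h'
      · exact absurd hl0 h'
      · exact h'
    rcases ws_dir_zero d0 h0 d1 hd1m h with h' | h'
    · rw [h', ip_self_dir h0] at hli
      omega
    · -- last vertex = v0 + d0
      have hs : ip d1 d0 = -2 := by
        rw [h']
        have : ip (-d0) d0 = - ip d0 d0 := by
          simp only [ip, Prod.fst_neg, Prod.snd_neg]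
          ring
        rw [this, ip_self_dir h0]
      rw [hs] at hli
      have hkey : vx v0 d0 t t.length - v0 = d0 := by
        have hall : ∀ d ∈ dirs, ∀ w : Pt, cross d w = 0 → 0 < ip w d → ip w d ≤ 2 → w = d := by
          intro d hd w h1 h2 h3
          obtain ⟨w1, w2⟩ := w
          have hd' : d = (1, 0) ∨ d = (0, 1) ∨ d = (-1, 1) ∨ d = (-1, 0) ∨ d = (0, -1) ∨ d = (1, -1) := by
            simpa [dirs] using hd
          unfold cross at h1
          unfold ip at h2 h3
          rcases hd' with rfl | rfl | rfl | rfl | rfl | rfl <;> simp at h1 h2 h3 <;>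
            refine Prod.ext ?_ ?_ <;> simp <;> omega
        exact hall d0 h0 _ hl0 hlp (by omega)
      have hvl : vx v0 d0 t t.length = vx v0 d0 t 1 := by
        rw [hv1]
        exact sub_eq_iff_eq_add'.1 hkey
      rcases Nat.lt_or_ge 1 t.length with h1 | h1
      · exact ht.inj 1 t.length h1 le_rfl hvl.symm
      · have hone : t.length = 1 := by omega
        have hdd : d1 = turn (tf t 0) d0 := by
          rw [hd1, hone]
          rfl
        exact (ws_turn_ne d0 h0 (tf t 0)).2 (hdd ▸ h')
  have hcP : cross d0 (Z - (v0 + v0)) = - cross d0 d1 := by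
    have e : Z - (v0 + v0) = (vx v0 d0 t t.length - v0) + (vx v0 d0 t t.length - v0) + d1 := by
      rw [hZ]
      abel
    rw [e, ws_cross_add, ws_cross_add, hlc]
    ring
  refine ⟨hcd, hcP, ?_⟩
  have hc1 := ws_cross_dir d0 h0 d1 hd1m
  have hi1 := ws_ip_dir d0 h0 d1 hd1m hcd
  have hdnm : -d0 ∈ dirs := by
    have hall : ∀ d ∈ dirs, -d ∈ dirs := by decide
    exact hall d0 h0
  have E := hopf_half (v0 := v0) (τ := tf t) h0 (a := 0) (b := t.length) (by omega) (c := tf t (t.length - 1))
    (fun i k _ h1 h2 => ht.inj i k h1 h2)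
  have hds : turn (tf t (t.length - 1)) (ds d0 (tf t) (t.length - 1)) = d1 := by
    rw [hd1, hl]
    rfl
  rw [hds] at E
  have p1 : ∀ i, i ≤ t.length → poly v0 d0 (tf t) 0 t.length d1 i = vx v0 d0 t i + vx v0 d0 t i := by
    intro i hi
    unfold poly
    rw [if_pos (by omega), zero_add]
    rfl
  have p1z : poly v0 d0 (tf t) 0 t.length d1 (t.length + 1) = Z := by
    unfold poly
    rw [if_neg (by omega)]
    rfl
  simp only [Nat.sub_zero] at E
  -- the first sum
  have X1 : ∑ j ∈ range t.length, arg ((emb (poly v0 d0 (tf t) 0 t.length d1 (j + 2)) -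
        emb (poly v0 d0 (tf t) 0 t.length d1 0)) /
        (emb (poly v0 d0 (tf t) 0 t.length d1 (j + 1)) - emb (poly v0 d0 (tf t) 0 t.length d1 0))) =
      arg (emb (Z - (v0 + v0)) / emb d0) := by
    have T := ws_tel h0 (fun j => poly v0 d0 (tf t) 0 t.length d1 (j + 1) - (v0 + v0)) t.length ?_ ?_
    · have e0 : poly v0 d0 (tf t) 0 t.length d1 0 = v0 + v0 := by
        rw [p1 0 (by omega)]
        rfl
      have e1 : poly v0 d0 (tf t) 0 t.length d1 (0 + 1) - (v0 + v0) = d0 + d0 := by
        rw [p1 (0 + 1) (by omega), zero_add, hv1]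
        abel
      simp only [p1z, e1] at T
      have e2 : arg (emb (d0 + d0) / emb d0) = 0 := by
        rw [emb_two, mul_div_assoc, div_self (emb_ne h0), mul_one]
        exact Complex.arg_ofReal_of_nonneg (by norm_num)
      rw [e2, sub_zero] at T
      rw [← T]
      apply Finset.sum_congr rfl
      intro j _
      rw [e0, ← emb_sub, ← emb_sub]
    · intro i hi
      rcases Nat.lt_or_ge i t.length with h | h
      · show Off d0 (poly v0 d0 (tf t) 0 t.length d1 (i + 1) - (v0 + v0))
        rw [p1 (i + 1) (by omega)]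
        have h1 := ws_off_two (hoff _ (ht.mem (i + 1) (by omega) (by omega)))
        have e : vx v0 d0 t (i + 1) + vx v0 d0 t (i + 1) - (v0 + v0) =
            (vx v0 d0 t (i + 1) - v0) + (vx v0 d0 t (i + 1) - v0) := by abel
        rw [e]
        exact h1
      · have h' : i = t.length := by omega
        subst h'
        show Off d0 (poly v0 d0 (tf t) 0 t.length d1 (t.length + 1) - (v0 + v0))
        rw [p1z]
        left
        rw [hcP]
        omega
    · intro i hi
      show (0 ≤ cross d0 (poly v0 d0 (tf t) 0 t.length d1 (i + 1) - (v0 + v0)) ∧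
          0 ≤ cross d0 (poly v0 d0 (tf t) 0 t.length d1 (i + 1 + 1) - (v0 + v0))) ∨
        (cross d0 (poly v0 d0 (tf t) 0 t.length d1 (i + 1) - (v0 + v0)) ≤ 0 ∧
          cross d0 (poly v0 d0 (tf t) 0 t.length d1 (i + 1 + 1) - (v0 + v0)) ≤ 0) ∨ _
      rw [p1 (i + 1) (by omega)]
      have e : vx v0 d0 t (i + 1) + vx v0 d0 t (i + 1) - (v0 + v0) =
            (vx v0 d0 t (i + 1) - v0) + (vx v0 d0 t (i + 1) - v0) := by abel
      rcases Nat.lt_or_ge (i + 1) t.length with h | h
      · rw [p1 (i + 1 + 1) (by omega), e]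
        have e' : vx v0 d0 t (i + 1 + 1) + vx v0 d0 t (i + 1 + 1) - (v0 + v0) =
            (vx v0 d0 t (i + 1) - v0 + dx d0 t (i + 1)) + (vx v0 d0 t (i + 1) - v0 + dx d0 t (i + 1)) := by
          rw [hvs (i + 1)]
          abel
        rw [e', ← or_assoc]
        exact Or.inl (ws_step_sign2 h0 (hdxm _))
      · have h' : i + 1 = t.length := by omega
        have e'' : poly v0 d0 (tf t) 0 t.length d1 (i + 1 + 1) = Z := by
          rw [h']
          exact p1z
        rw [e'', e]
        have e' : Z - (v0 + v0) = (vx v0 d0 t (i + 1) - v0) + (vx v0 d0 t (i + 1) - v0) + d1 := by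
          rw [hZ, h']
          abel
        rw [e', ← or_assoc]
        exact Or.inl (ws_step_sign h0 hd1m)
  -- the second sum
  have hcr : ∀ i, cross (-d0) (Z - (vx v0 d0 t i + vx v0 d0 t i)) =
      cross d0 d1 + 2 * cross d0 (vx v0 d0 t i - v0) := by
    intro i
    have e : Z - (vx v0 d0 t i + vx v0 d0 t i) =
        (Z - (v0 + v0)) - ((vx v0 d0 t i - v0) + (vx v0 d0 t i - v0)) := by abel
    rw [ws_cross_neg_left, e, ws_cross_sub, ws_cross_add, hcP]
    ring
  have hir : ∀ i, ip d1 d0 + 2 * ip (vx v0 d0 t i - v0) d0 ≤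
      ip (Z - (vx v0 d0 t i + vx v0 d0 t i)) (-d0) := by
    intro i
    have e : Z - (vx v0 d0 t i + vx v0 d0 t i) =
        ((vx v0 d0 t t.length - v0) + (vx v0 d0 t t.length - v0) + d1) -
          ((vx v0 d0 t i - v0) + (vx v0 d0 t i - v0)) := by
      rw [hZ]
      abel
    have e2 : ip (Z - (vx v0 d0 t i + vx v0 d0 t i)) (-d0) =
        -(ip (vx v0 d0 t t.length - v0) d0 + ip (vx v0 d0 t t.length - v0) d0 + ip d1 d0 -
          (ip (vx v0 d0 t i - v0) d0 + ip (vx v0 d0 t i - v0) d0)) := by
      rw [e, ws_ip_neg_right]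
      generalize vx v0 d0 t t.length - v0 = A
      generalize vx v0 d0 t i - v0 = B
      simp only [ip, Prod.fst_add, Prod.snd_add, Prod.fst_sub, Prod.snd_sub]
      ring
    rw [e2]
    omega
  have X2 : ∑ i ∈ range t.length, arg ((emb (poly v0 d0 (tf t) 0 t.length d1 (t.length + 1)) -
        emb (poly v0 d0 (tf t) 0 t.length d1 (i + 1))) /
        (emb (poly v0 d0 (tf t) 0 t.length d1 (t.length + 1)) - emb (poly v0 d0 (tf t) 0 t.length d1 i))) =
      arg (emb d1 / emb (-d0)) - arg (emb (Z - (v0 + v0)) / emb (-d0)) := by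
    have T := ws_tel hdnm (fun j => Z - (vx v0 d0 t j + vx v0 d0 t j)) t.length ?_ ?_
    · have e1 : Z - (vx v0 d0 t t.length + vx v0 d0 t t.length) = d1 := by
        rw [hZ]
        abel
      simp only [e1, hv0] at T
      rw [← T]
      apply Finset.sum_congr rfl
      intro j hj
      rw [mem_range] at hj
      rw [p1z, p1 j (by omega), p1 (j + 1) (by omega), ← emb_sub, ← emb_sub]
    · intro i hi
      show Off (-d0) (Z - (vx v0 d0 t i + vx v0 d0 t i))
      left
      rw [hcr i]
      omega
    · intro i hi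
      show (0 ≤ cross (-d0) (Z - (vx v0 d0 t i + vx v0 d0 t i)) ∧
          0 ≤ cross (-d0) (Z - (vx v0 d0 t (i + 1) + vx v0 d0 t (i + 1)))) ∨
        (cross (-d0) (Z - (vx v0 d0 t i + vx v0 d0 t i)) ≤ 0 ∧
          cross (-d0) (Z - (vx v0 d0 t (i + 1) + vx v0 d0 t (i + 1))) ≤ 0) ∨
        (0 < ip (Z - (vx v0 d0 t i + vx v0 d0 t i)) (-d0) ∧
          0 < ip (Z - (vx v0 d0 t (i + 1) + vx v0 d0 t (i + 1))) (-d0))
      rw [hcr i, hcr (i + 1)]
      have hst : cross d0 (vx v0 d0 t (i + 1) - v0) = cross d0 (vx v0 d0 t i - v0) + cross d0 (dx d0 t i) := by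
        have e : vx v0 d0 t (i + 1) - v0 = (vx v0 d0 t i - v0) + dx d0 t i := by
          rw [hvs i]
          abel
        rw [e, ws_cross_add]
      have hsti : ip (vx v0 d0 t (i + 1) - v0) d0 = ip (vx v0 d0 t i - v0) d0 + ip (dx d0 t i) d0 := by
        have e : vx v0 d0 t (i + 1) - v0 = (vx v0 d0 t i - v0) + dx d0 t i := by
          rw [hvs i]
          abel
        rw [e, ip_add_left]
      have hb := ws_cross_dir d0 h0 _ (hdxm i)
      have hri := hir i
      have hri1 := hir (i + 1)
      by_cases hs : cross d0 (dx d0 t i) = 0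
      · rw [hst, hs]
        omega
      · have hib := ws_ip_dir d0 h0 _ (hdxm i) hs
        -- one of the two vertices is on the axis
        by_cases hA : cross d0 (vx v0 d0 t i - v0) = 0
        · rcases Nat.eq_zero_or_pos i with hi0 | hi0
          · exfalso
            rw [hi0] at hs
            apply hs
            exact ws_cross_self d0
          · have h3 : 0 < ip (vx v0 d0 t i - v0) d0 := by
              rcases hoff _ (ht.mem i hi0 (by omega)) with h' | h'
              · exact absurd hA h'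
              · exact h'
            have h4 : 2 ≤ ip (vx v0 d0 t i - v0) d0 := by
              have hall : ∀ d ∈ dirs, ∀ w : Pt, cross d w = 0 → 0 < ip w d → 2 ≤ ip w d := by
                intro d hd w h1 h2
                obtain ⟨w1, w2⟩ := w
                have hd' : d = (1, 0) ∨ d = (0, 1) ∨ d = (-1, 1) ∨ d = (-1, 0) ∨ d = (0, -1) ∨ d = (1, -1) := by
                  simpa [dirs] using hd
                unfold cross at h1
                unfold ip at h2 ⊢
                rcases hd' with rfl | rfl | rfl | rfl | rfl | rfl <;> simp at h1 h2 ⊢ <;> omega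
              exact hall d0 h0 _ hA h3
            right
            right
            constructor <;> omega
        · by_cases hB : cross d0 (vx v0 d0 t (i + 1) - v0) = 0
          · have h3 : 0 < ip (vx v0 d0 t (i + 1) - v0) d0 := by
              rcases hoff _ (ht.mem (i + 1) (by omega) (by omega)) with h' | h'
              · exact absurd hB h'
              · exact h'
            have h4 : 2 ≤ ip (vx v0 d0 t (i + 1) - v0) d0 := by
              have hall : ∀ d ∈ dirs, ∀ w : Pt, cross d w = 0 → 0 < ip w d → 2 ≤ ip w d := by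
                intro d hd w h1 h2
                obtain ⟨w1, w2⟩ := w
                have hd' : d = (1, 0) ∨ d = (0, 1) ∨ d = (-1, 1) ∨ d = (-1, 0) ∨ d = (0, -1) ∨ d = (1, -1) := by
                  simpa [dirs] using hd
                unfold cross at h1
                unfold ip at h2 ⊢
                rcases hd' with rfl | rfl | rfl | rfl | rfl | rfl <;> simp at h1 h2 ⊢ <;> omega
              exact hall d0 h0 _ hB h3
            right
            right
            constructor <;> omega
          · rw [← or_assoc]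
            left
            omega
  rw [X1, X2] at E
  have hW : ∑ k ∈ range (t.length - 1), (sgn (tf t (0 + k)) : ℝ) + (sgn (tf t (t.length - 1)) : ℝ) = (wind t : ℝ) := by
    rw [wind_sum, hl, Finset.sum_range_succ]
    simp
  rw [hW] at E
  rw [E]
  ring

/- S5 -/
/-- windings of the landings on the slit -/
theorem wind_slit {Ω : Finset Pt} {v0 d0 : Pt} (h0 : d0 ∈ dirs) (hoff : ∀ v ∈ Ω, Off d0 (v - v0))
    {t : List Bool} (ht : IsArr Ω v0 d0 t) (hlen : 1 ≤ t.length) (htip : ¬ Off d0 (tip v0 d0 t - v0)) :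
    (dx d0 t t.length = rotR (rotR d0) ∧ wind t = 4) ∨ (dx d0 t t.length = rotR d0 ∧ wind t = 5) ∨
    (dx d0 t t.length = rotL (rotL d0) ∧ wind t = -4) ∨ (dx d0 t t.length = rotL d0 ∧ wind t = -5) := by
  obtain ⟨hcd, hcP, K⟩ := ws_key h0 hoff ht hlen htip
  set P : Pt := vx v0 d0 t t.length + tip v0 d0 t - (v0 + v0) with hPdef
  have hpi := Real.pi_pos
  have hs3 : 0 < Real.sqrt 3 := Real.sqrt_pos.2 (by norm_num)
  have hd0 := emb_ne h0
  have hzn := zt_ne
  have eneg : emb P / emb (-d0) = -(emb P / emb d0) := by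
    rw [emb_neg, div_neg]
  have fin : ∀ k : ℤ, (wind t : ℝ) * (Real.pi / 3) = k * (Real.pi / 3) → wind t = k := by
    intro k hk
    have h1 := mul_right_cancel₀ (by positivity : (Real.pi / 3 : ℝ) ≠ 0) hk
    exact_mod_cast h1
  obtain ⟨a1, a2, a3, a4⟩ := ws_args
  have hd1m : dx d0 t t.length ∈ dirs := ds_mem h0 _
  rcases lt_or_gt_of_ne hcd with h | h
  · have him : 0 < (emb P / emb d0).im := by
      rw [ws_im h0, hcP]
      have : (0 : ℝ) < ((- cross d0 (dx d0 t t.length) : ℤ) : ℝ) := by exact_mod_cast (by omega : 0 < - cross d0 (dx d0 t t.length))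
      positivity
    rw [eneg, Complex.arg_neg_eq_arg_sub_pi_of_im_pos him] at K
    rcases ws_dir_neg d0 h0 _ hd1m h with h' | h'
    · right
      left
      refine ⟨h', fin 5 ?_⟩
      have e : emb (dx d0 t t.length) / emb (-d0) = -zt⁻¹ := by
        rw [h', emb_rotR, emb_neg]
        field_simp
      rw [K, e, a3]
      push_cast
      ring
    · left
      refine ⟨h', fin 4 ?_⟩
      have e : emb (dx d0 t t.length) / emb (-d0) = -(zt⁻¹ * zt⁻¹) := by
        rw [h', emb_rotR, emb_rotR, emb_neg]
        field_simp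
      rw [K, e, a4]
      push_cast
      ring
  · have him : (emb P / emb d0).im < 0 := by
      rw [ws_im h0, hcP]
      have : ((- cross d0 (dx d0 t t.length) : ℤ) : ℝ) < 0 := by exact_mod_cast (by omega : - cross d0 (dx d0 t t.length) < 0)
      nlinarith
    rw [eneg, Complex.arg_neg_eq_arg_add_pi_of_im_neg him] at K
    rcases ws_dir_pos d0 h0 _ hd1m h with h' | h'
    · right
      right
      right
      refine ⟨h', fin (-5) ?_⟩
      have e : emb (dx d0 t t.length) / emb (-d0) = -zt := by
        rw [h', emb_rotL, emb_neg]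
        field_simp
      rw [K, e, a1]
      push_cast
      ring
    · right
      right
      left
      refine ⟨h', fin (-4) ?_⟩
      have e : emb (dx d0 t t.length) / emb (-d0) = -(zt * zt) := by
        rw [h', emb_rotL, emb_rotL, emb_neg]
        field_simp
      rw [K, e, a2]
      push_cast
      ring

end HexSlit
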