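import Pool.Agent.HexSlit.WindOut
import Pool.Agent.HexSlit.WindSlit
import Pool.Agent.HexObs.Cut

set_option autoImplicit false

namespace HexSlit

open HexObs Complex Finset

/- S6 -/
theorem mem_dom {r la lb lh : ℤ} (hr : 1 ≤ r) {p : Pt} : p ∈ dom r la lb lh ↔ InDom r la lb lh p := by
  unfold dom
  rw [Finset.mem_filter, Finset.mem_product, Finset.mem_Icc, Finset.mem_Icc]
  constructor
  · exact fun h => h.2
  · intro h
    refine ⟨?_, h⟩
    unfold InDom at h
    have h1 := le_abs_self la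
    have h2 := neg_abs_le la
    have h3 := le_abs_self lb
    have h4 := neg_abs_le lb
    have h5 := le_abs_self lh
    have h6 := neg_abs_le lh
    generalize |la| = x at *
    generalize |lb| = y at *
    generalize |lh| = z at *
    obtain ⟨c1, c2, c3, c4⟩ := h
    rcases lt_or_ge p.2 0 with hp | hp
    · have := c4 hp
      omega
    · have := c3 hp
      omega

theorem dom_off {r la lb lh : ℤ} (hr : 1 ≤ r) : ∀ v ∈ dom r la lb lh, Off e0 (v - o) := by
  intro v hv
  rw [mem_dom hr] at hv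
  obtain ⟨_, h2, _⟩ := hv
  unfold Off cross ip e0 o
  simp only [Prod.fst_sub, Prod.snd_sub]
  omega

/-- the classes and the directions of the last edge. -/
private lemma dom_last (t : List Bool) :
    (((vx o e0 t t.length).1 - (vx o e0 t t.length).2) % 3 = 0 ∧
      (dx e0 t t.length = (1, 0) ∨ dx e0 t t.length = (-1, 1) ∨ dx e0 t t.length = (0, -1))) ∨
    (((vx o e0 t t.length).1 - (vx o e0 t t.length).2) % 3 = 1 ∧
      (dx e0 t t.length = (-1, 0) ∨ dx e0 t t.length = (0, 1) ∨ dx e0 t t.length = (1, -1))) := by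
  have h0 : e0 ∈ dirs := by decide
  have hc := cl_vx o e0 t t.length
  by_cases he : Even t.length
  · left
    rw [if_pos he] at hc
    constructor
    · have h1 : (((vx o e0 t t.length).1 - (vx o e0 t t.length).2 : ℤ) : ZMod 3) = 0 := by
        have h2 : cl o = 0 := by decide
        rw [h2] at hc
        exact hc
      exact Int.emod_eq_zero_of_dvd ((ZMod.intCast_zmod_eq_zero_iff_dvd _ 3).1 h1)
    · rcases step_even h0 t he with ⟨h, _⟩ | ⟨h, _⟩ | ⟨h, _⟩
      · left
        rw [h]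
        rfl
      · right; left
        rw [h]
        decide
      · right; right
        rw [h]
        decide
  · right
    rw [if_neg he] at hc
    constructor
    · have h1 : (((vx o e0 t t.length).1 - (vx o e0 t t.length).2 - 1 : ℤ) : ZMod 3) = 0 := by
        have h2 : cl o + cl e0 = 1 := by decide
        rw [h2] at hc
        unfold cl at hc
        push_cast at hc ⊢
        rw [hc]
        ring
      have h3 := (ZMod.intCast_zmod_eq_zero_iff_dvd _ 3).1 h1
      push_cast at h3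
      omega
    · rcases step_odd h0 t he with ⟨h, _⟩ | ⟨h, _⟩ | ⟨h, _⟩
      · left
        rw [h]
        decide
      · right; left
        rw [h]
        decide
      · right; right
        rw [h]
        decide

/-- the steps out of the domain. -/
private lemma dom_step {r la lb lh : ℤ} (hr : 1 ≤ r) (hla : la % 3 = 0) (hla' : 3 * r ≤ la) (hlb : lb % 3 = 1)
    (hlb' : lb ≤ 1 - 12 * r) (hlh : lh = 1 - 9 * r ∨ lh ≤ 2 * lb - 1) {p q d : Pt} (hq : q = p + d)
    (hp : InDom r la lb lh p) (hnq : ¬ InDom r la lb lh q) (hqo : q.2 ≠ 0 ∨ 0 < q.1)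
    (hd : ((p.1 - p.2) % 3 = 0 ∧ (d = (1, 0) ∨ d = (-1, 1) ∨ d = (0, -1))) ∨
      ((p.1 - p.2) % 3 = 1 ∧ (d = (-1, 0) ∨ d = (0, 1) ∨ d = (1, -1)))) :
    (d = (1, 0) ∧ 0 < p.2 ∧ 2 * p.1 + p.2 = 6 * r - 3) ∨
    (d = (0, 1) ∧ 0 ≤ p.2 ∧ p.1 + 2 * p.2 = la - 2) ∨
    (d = (-1, 1) ∧ 0 ≤ p.2 ∧ p.1 - p.2 = lb + 2) ∨
    (d = (-1, 0) ∧ 0 < p.2 ∧ lh = 1 - 9 * r ∧ 2 * p.1 + p.2 = 2 - 9 * r) ∨
    (d = (1, -1) ∧ p.2 ≤ 0 ∧ p.1 - p.2 = 3 * r - 2) ∨
    (d = (-1, 0) ∧ p.2 < 0 ∧ 2 * p.1 + p.2 = 2 - 9 * r) := by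
  unfold InDom at hp hnq
  rcases hd with ⟨hm, rfl | rfl | rfl⟩ | ⟨hm, rfl | rfl | rfl⟩
  · left
    have e1 : q.1 = p.1 + 1 := by rw [hq]; rfl
    have e2 : q.2 = p.2 + 0 := by rw [hq]; rfl
    refine ⟨rfl, ?_⟩
    rw [e1, e2] at hnq hqo
    omega
  · right; right; left
    have e1 : q.1 = p.1 + (-1) := by rw [hq]; rfl
    have e2 : q.2 = p.2 + 1 := by rw [hq]; rfl
    refine ⟨rfl, ?_⟩
    rw [e1, e2] at hnq hqo
    omega
  · exfalso
    have e1 : q.1 = p.1 + 0 := by rw [hq]; rfl
    have e2 : q.2 = p.2 + (-1) := by rw [hq]; rfl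
    rw [e1, e2] at hnq hqo
    omega
  · have e1 : q.1 = p.1 + (-1) := by rw [hq]; rfl
    have e2 : q.2 = p.2 + 0 := by rw [hq]; rfl
    rw [e1, e2] at hnq hqo
    rcases lt_or_ge p.2 0 with h | h
    · right; right; right; right; right
      refine ⟨rfl, h, ?_⟩
      omega
    · right; right; right; left
      refine ⟨rfl, ?_⟩
      omega
  · right; left
    have e1 : q.1 = p.1 + 0 := by rw [hq]; rfl
    have e2 : q.2 = p.2 + 1 := by rw [hq]; rfl
    refine ⟨rfl, ?_⟩
    rw [e1, e2] at hnq hqo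
    omega
  · right; right; right; right; left
    have e1 : q.1 = p.1 + 1 := by rw [hq]; rfl
    have e2 : q.2 = p.2 + (-1) := by rw [hq]; rfl
    refine ⟨rfl, ?_⟩
    rw [e1, e2] at hnq hqo
    omega

/-- exits are not empty. -/
private lemma exit_len {r la lb lh : ℤ} (hr : 1 ≤ r) (hla' : 3 * r ≤ la)
    (hlb' : lb ≤ 1 - 12 * r) (hlh : lh = 1 - 9 * r ∨ lh ≤ 2 * lb - 1) {t : List Bool}
    (ht : t ∈ exits (dom r la lb lh) o e0) : 1 ≤ t.length := by
  obtain ⟨hA, htip⟩ := mem_exits.1 ht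
  by_contra h
  have h1 : t = [] := List.eq_nil_of_length_eq_zero (by omega)
  rw [h1] at htip
  apply htip
  rw [mem_dom hr]
  have h2 : tip o e0 [] = (1, 0) := rfl
  rw [h2]
  unfold InDom
  simp only
  omega

/-- all the exits off the slit. -/
private lemma dom_exit_off {r la lb lh : ℤ} (hr : 1 ≤ r) (hla : la % 3 = 0) (hla' : 3 * r ≤ la) (hlb : lb % 3 = 1)
    (hlb' : lb ≤ 1 - 12 * r) (hlh : lh = 1 - 9 * r ∨ lh ≤ 2 * lb - 1) {t : List Bool}
    (ht : t ∈ exits (dom r la lb lh) o e0) (hs : Off e0 (tip o e0 t - o)) :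
    ∃ p : Pt, InDom r la lb lh p ∧
      ((0 < p.2 ∧ 2 * p.1 + p.2 = 6 * r - 3 ∧ HexObs.wind t = 0) ∨
       (0 ≤ p.2 ∧ p.1 + 2 * p.2 = la - 2 ∧ HexObs.wind t = 1) ∨
       (0 ≤ p.2 ∧ p.1 - p.2 = lb + 2 ∧ HexObs.wind t = 2) ∨
       (lh = 1 - 9 * r ∧ HexObs.wind t = 3) ∨ HexObs.wind t = -1 ∨ HexObs.wind t = -3) := by
  obtain ⟨hA, htip⟩ := mem_exits.1 ht
  have h0 : e0 ∈ dirs := by decide
  have hoff := dom_off (la := la) (lb := lb) (lh := lh) hr
  have hlen := exit_len hr hla' hlb' hlh ht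
  have hp : InDom r la lb lh (vx o e0 t t.length) := (mem_dom hr).1 (hA.mem _ hlen le_rfl)
  have hvx : ∀ i, i ≤ t.length → vx o e0 t i = (0, 0) ∨ InDom r la lb lh (vx o e0 t i) := by
    intro i hi
    rcases Nat.eq_zero_or_pos i with h | h
    · left
      rw [h]
      rfl
    · right
      exact (mem_dom hr).1 (hA.mem i h hi)
  refine ⟨_, hp, ?_⟩
  have hnq : ¬ InDom r la lb lh (tip o e0 t) := fun h => htip ((mem_dom hr).2 h)
  have hq : tip o e0 t = vx o e0 t t.length + dx e0 t t.length := vx_succ o e0 t t.length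
  have hqo : (tip o e0 t).2 ≠ 0 ∨ 0 < (tip o e0 t).1 := by
    generalize tip o e0 t = q at hs
    unfold Off cross ip e0 o at hs
    simp only [Prod.fst_sub, Prod.snd_sub] at hs
    omega
  have hstep := dom_step hr hla hla' hlb hlb' hlh hq hp hnq hqo (dom_last t)
  have hL := wind_left h0 hoff hA hlen
  have hR := wind_right h0 hoff hA hlen
  have hze : cross e0 (vx o e0 t t.length + tip o e0 t - (o + o)) =
      (vx o e0 t t.length).2 + (tip o e0 t).2 := by
    unfold cross e0 o
    simp only [Prod.fst_sub, Prod.snd_sub, Prod.fst_add, Prod.snd_add]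
    ring
  rw [hze] at hL hR
  rcases hstep with ⟨hd, h1, h2⟩ | ⟨hd, h1, h2⟩ | ⟨hd, h1, h2⟩ | ⟨hd, h1, h2, h3⟩ | ⟨hd, h1, h2⟩ | ⟨hd, h1, h2⟩
  · left
    rw [hd] at hq hL
    generalize hqq : tip o e0 t = q at *
    generalize hpp : vx o e0 t t.length = p at *
    have e1 : q.1 = p.1 + 1 := by rw [hq]; rfl
    have e2 : q.2 = p.2 + 0 := by rw [hq]; rfl
    refine ⟨h1, h2, (hL ?_ ?_).1 rfl⟩
    · intro i hi
      right
      rcases hvx i hi with h | h
      · rw [h]
        unfold ip
        simp only [Prod.fst_sub, Prod.snd_sub]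
        omega
      · unfold InDom at h
        generalize vx o e0 t i = w at *
        unfold ip
        simp only [Prod.fst_sub, Prod.snd_sub]
        omega
    · omega
  · right; left
    rw [hd] at hq hL
    generalize hqq : tip o e0 t = q at *
    generalize hpp : vx o e0 t t.length = p at *
    have e1 : q.1 = p.1 + 0 := by rw [hq]; rfl
    have e2 : q.2 = p.2 + 1 := by rw [hq]; rfl
    refine ⟨h1, h2, (hL ?_ ?_).2.1 rfl⟩
    · intro i hi
      right
      rcases hvx i hi with h | h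
      · rw [h]
        unfold ip
        simp only [Prod.fst_sub, Prod.snd_sub]
        omega
      · unfold InDom at h
        generalize vx o e0 t i = w at *
        unfold ip
        simp only [Prod.fst_sub, Prod.snd_sub]
        omega
    · omega
  · right; right; left
    rw [hd] at hq hL
    generalize hqq : tip o e0 t = q at *
    generalize hpp : vx o e0 t t.length = p at *
    have e1 : q.1 = p.1 + (-1) := by rw [hq]; rfl
    have e2 : q.2 = p.2 + 1 := by rw [hq]; rfl
    refine ⟨h1, h2, (hL ?_ ?_).2.2.1 (by decide)⟩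
    · intro i hi
      right
      rcases hvx i hi with h | h
      · rw [h]
        unfold ip
        simp only [Prod.fst_sub, Prod.snd_sub]
        omega
      · unfold InDom at h
        generalize vx o e0 t i = w at *
        unfold ip
        simp only [Prod.fst_sub, Prod.snd_sub]
        omega
    · omega
  · right; right; right; left
    rw [hd] at hq hL
    generalize hqq : tip o e0 t = q at *
    generalize hpp : vx o e0 t t.length = p at *
    have e1 : q.1 = p.1 + (-1) := by rw [hq]; rfl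
    have e2 : q.2 = p.2 + 0 := by rw [hq]; rfl
    refine ⟨h2, (hL ?_ ?_).2.2.2 (by decide)⟩
    · intro i hi
      right
      rcases hvx i hi with h | h
      · rw [h]
        unfold ip
        simp only [Prod.fst_sub, Prod.snd_sub]
        omega
      · unfold InDom at h
        generalize vx o e0 t i = w at *
        unfold ip
        simp only [Prod.fst_sub, Prod.snd_sub]
        omega
    · omega
  · right; right; right; right; left
    rw [hd] at hq hR
    generalize hqq : tip o e0 t = q at *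
    generalize hpp : vx o e0 t t.length = p at *
    have e1 : q.1 = p.1 + 1 := by rw [hq]; rfl
    have e2 : q.2 = p.2 + (-1) := by rw [hq]; rfl
    refine (hR ?_ ?_).2.1 (by decide)
    · intro i hi
      right
      rcases hvx i hi with h | h
      · rw [h]
        unfold ip
        simp only [Prod.fst_sub, Prod.snd_sub]
        omega
      · unfold InDom at h
        generalize vx o e0 t i = w at *
        unfold ip
        simp only [Prod.fst_sub, Prod.snd_sub]
        omega
    · omega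
  · right; right; right; right; right
    rw [hd] at hq hR
    generalize hqq : tip o e0 t = q at *
    generalize hpp : vx o e0 t t.length = p at *
    have e1 : q.1 = p.1 + (-1) := by rw [hq]; rfl
    have e2 : q.2 = p.2 + 0 := by rw [hq]; rfl
    refine (hR ?_ ?_).2.2.2 (by decide)
    · intro i hi
      unfold Off
      rcases hvx i hi with h | h
      · rw [h]
        unfold ip cross
        simp only [Prod.fst_sub, Prod.snd_sub]
        omega
      · unfold InDom at h
        generalize vx o e0 t i = w at *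
        unfold ip cross
        simp only [Prod.fst_sub, Prod.snd_sub]
        omega
    · omega

/-- all the exits. -/
private lemma dom_exit {r la lb lh : ℤ} (hr : 1 ≤ r) (hla : la % 3 = 0) (hla' : 3 * r ≤ la) (hlb : lb % 3 = 1)
    (hlb' : lb ≤ 1 - 12 * r) (hlh : lh = 1 - 9 * r ∨ lh ≤ 2 * lb - 1) {t : List Bool}
    (ht : t ∈ exits (dom r la lb lh) o e0) :
    ∃ p : Pt, InDom r la lb lh p ∧
      ((0 < p.2 ∧ 2 * p.1 + p.2 = 6 * r - 3 ∧ HexObs.wind t = 0) ∨
       (0 ≤ p.2 ∧ p.1 + 2 * p.2 = la - 2 ∧ HexObs.wind t = 1) ∨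
       (0 ≤ p.2 ∧ p.1 - p.2 = lb + 2 ∧ HexObs.wind t = 2) ∨
       (lh = 1 - 9 * r ∧ HexObs.wind t = 3) ∨ HexObs.wind t = -1 ∨ HexObs.wind t = -3 ∨
       HexObs.wind t = 4 ∨ HexObs.wind t = -4 ∨ HexObs.wind t = 5 ∨ HexObs.wind t = -5) := by
  by_cases hs : Off e0 (tip o e0 t - o)
  · obtain ⟨p, hp, h⟩ := dom_exit_off hr hla hla' hlb hlb' hlh ht hs
    refine ⟨p, hp, ?_⟩
    omega
  · have hA := (mem_exits.1 ht).1
    have h0 : e0 ∈ dirs := by decide
    have hoff := dom_off (la := la) (lb := lb) (lh := lh) hr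
    have hlen := exit_len hr hla' hlb' hlh ht
    have hp : InDom r la lb lh (vx o e0 t t.length) := (mem_dom hr).1 (hA.mem _ hlen le_rfl)
    refine ⟨_, hp, ?_⟩
    rcases wind_slit h0 hoff hA hlen hs with ⟨_, h⟩ | ⟨_, h⟩ | ⟨_, h⟩ | ⟨_, h⟩
    · omega
    · omega
    · omega
    · omega

/-- an exit of `D0 r` whose tip is not on the slit has winding at most three in absolute value. -/
theorem exit_off_wind {r : ℤ} (hr : 1 ≤ r) {t : List Bool} (ht : t ∈ exits (D0 r) o e0)
    (h : Off e0 (tip o e0 t - o)) : -3 ≤ HexObs.wind t ∧ HexObs.wind t ≤ 3 := by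
  obtain ⟨p, hp, h⟩ := dom_exit_off hr (by omega) (by omega) (by omega) (by omega) (by omega) ht h
  omega

/-- windings of the exits; `k` is the absent one -/
theorem D0_wind {r : ℤ} (hr : 1 ≤ r) {t : List Bool} (ht : t ∈ exits (D0 r) o e0) :
    HexObs.wind t = 1 ∨ HexObs.wind t = 3 ∨ HexObs.wind t = -1 ∨ HexObs.wind t = -3 ∨
    HexObs.wind t = 4 ∨ HexObs.wind t = -4 ∨ HexObs.wind t = 5 ∨ HexObs.wind t = -5 := by
  obtain ⟨p, hp, h⟩ := dom_exit hr (by omega) (by omega) (by omega) (by omega) (by omega) ht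
  unfold InDom at hp
  omega

theorem E2_wind {r : ℤ} (hr : 1 ≤ r) {t : List Bool} (ht : t ∈ exits (E2 r) o e0) :
    HexObs.wind t = 0 ∨ HexObs.wind t = 2 ∨ HexObs.wind t = 3 ∨ HexObs.wind t = -1 ∨ HexObs.wind t = -3 ∨
    HexObs.wind t = 4 ∨ HexObs.wind t = -4 ∨ HexObs.wind t = 5 ∨ HexObs.wind t = -5 := by
  obtain ⟨p, hp, h⟩ := dom_exit hr (by omega) (by omega) (by omega) (by omega) (by omega) ht
  unfold InDom at hp
  omega

theorem E3_wind {r : ℤ} (hr : 1 ≤ r) {t : List Bool} (ht : t ∈ exits (E3 r) o e0) :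
    HexObs.wind t = 0 ∨ HexObs.wind t = 1 ∨ HexObs.wind t = 3 ∨ HexObs.wind t = -1 ∨ HexObs.wind t = -3 ∨
    HexObs.wind t = 4 ∨ HexObs.wind t = -4 ∨ HexObs.wind t = 5 ∨ HexObs.wind t = -5 := by
  obtain ⟨p, hp, h⟩ := dom_exit hr (by omega) (by omega) (by omega) (by omega) (by omega) ht
  unfold InDom at hp
  omega

theorem E4_wind {r : ℤ} (hr : 1 ≤ r) {t : List Bool} (ht : t ∈ exits (E4 r) o e0) :
    HexObs.wind t = 0 ∨ HexObs.wind t = 1 ∨ HexObs.wind t = 2 ∨ HexObs.wind t = -1 ∨ HexObs.wind t = -3 ∨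
    HexObs.wind t = 4 ∨ HexObs.wind t = -4 ∨ HexObs.wind t = 5 ∨ HexObs.wind t = -5 := by
  obtain ⟨p, hp, h⟩ := dom_exit hr (by omega) (by omega) (by omega) (by omega) (by omega) ht
  unfold InDom at hp
  omega

end HexSlit
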