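import Pool.Agent.HexSlit.Sweep

set_option autoImplicit false

namespace HexSlit

open HexObs Complex Finset

private lemma growth_cos : (0.765 : ℝ) ≤ 2 * Real.cos (3 * Real.pi / 8) := by
  have h1 : Real.cos (3 * Real.pi / 8) = Real.sqrt (2 - Real.sqrt 2) / 2 := by
    rw [← Real.sin_pi_div_eight, ← Real.cos_pi_div_two_sub]
    congr 1
    ring
  have h2 : Real.sqrt 2 ≤ 1.4147 := by
    rw [Real.sqrt_le_left (by norm_num)]
    norm_num
  have h3 : (0.765 : ℝ) ≤ Real.sqrt (2 - Real.sqrt 2) := by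
    apply Real.le_sqrt_of_sq_le
    norm_num at h2 ⊢
    linarith
  rw [h1]
  linarith

private lemma growth_q : (6.25 : ℝ) ^ ((1 : ℝ) / 90) ≤ 1.0206 := by
  have h1 : (6.25 : ℝ) ≤ 1.0206 ^ 90 := by norm_num
  have h2 : (6.25 : ℝ) ^ ((1 : ℝ) / 90) ≤ ((1.0206 : ℝ) ^ 90) ^ ((1 : ℝ) / 90) :=
    Real.rpow_le_rpow (by norm_num) h1 (by norm_num)
  refine h2.trans (le_of_eq ?_)
  rw [← Real.rpow_natCast, ← Real.rpow_mul (by norm_num)]
  norm_num

private lemma growth_base {n : ℕ} (hn : n < 270) : (n : ℝ) ^ ((1 : ℝ) / 90) ≤ 2 := by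
  have h0 : (n : ℝ) ≤ 2 ^ 90 := by
    have h1 : (n : ℝ) ≤ 270 := by exact_mod_cast hn.le
    have h2 : (270 : ℝ) ≤ 2 ^ 9 := by norm_num
    exact h1.trans (h2.trans (pow_le_pow_right₀ (by norm_num) (by norm_num)))
  have h2 : (n : ℝ) ^ ((1 : ℝ) / 90) ≤ ((2 : ℝ) ^ 90) ^ ((1 : ℝ) / 90) :=
    Real.rpow_le_rpow (Nat.cast_nonneg n) h0 (by norm_num)
  refine h2.trans (le_of_eq ?_)
  rw [← Real.rpow_natCast, ← Real.rpow_mul (by norm_num)]
  norm_num

private lemma growth_step {s : ℤ} (hs : 1 ≤ s) :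
    1.0206 * (1 + W (D0 s) 5) ≤ 1 + W (D0 (6 * s + 6)) 5 := by
  have h1 := sweep (r := s + 1) (by omega)
  have h2 := E4_le (r := s + 1) (by omega)
  have h3 : 6 * (s + 1) = 6 * s + 6 := by ring
  have h4 := D0_mono (r := s) (s := s + 1) (by omega) (by omega)
  have h5 := W_nonneg (D0 s) 5
  have h6 := growth_cos
  rw [add_sub_cancel_right] at h1
  rw [h3] at h2
  have h7 : 0.765 * W (D0 s) 5 ≤ 2 * Real.cos (3 * Real.pi / 8) * W (D0 (s + 1)) 5 :=
    mul_le_mul h6 h4 h5 (le_trans (by norm_num) h6)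
  norm_num at h7 ⊢
  linarith

private lemma growth_nat (n : ℕ) : 1 ≤ n →
    1 / 2 * (n : ℝ) ^ ((1 : ℝ) / 90) ≤ 1 + W (D0 (n : ℤ)) 5 := by
  induction n using Nat.strong_induction_on with
  | _ n ih =>
    intro hn
    by_cases h : n < 270
    · have h1 := growth_base h
      have h2 := W_nonneg (D0 (n : ℤ)) 5
      linarith
    · push Not at h
      obtain ⟨s, hs⟩ : ∃ s, s = n / 6 - 1 := ⟨_, rfl⟩
      have hs44 : 44 ≤ s := by omega
      have hsn : s < n := by omega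
      have h11 : 6 * s + 6 ≤ n := by omega
      have h12 : n ≤ 6 * s + 11 := by omega
      have h1 := ih s hsn (by omega)
      have h2 := growth_step (s := (s : ℤ)) (by exact_mod_cast (by omega : 1 ≤ s))
      have h3 := D0_mono (r := 6 * (s : ℤ) + 6) (s := (n : ℤ)) (by omega) (by exact_mod_cast h11)
      have h4 : (n : ℝ) ^ ((1 : ℝ) / 90) ≤ 1.0206 * (s : ℝ) ^ ((1 : ℝ) / 90) := by
        have h5 : (n : ℝ) ≤ 6.25 * (s : ℝ) := by
          have h6 : (n : ℝ) ≤ 6 * (s : ℝ) + 11 := by exact_mod_cast h12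
          have h7 : (44 : ℝ) ≤ (s : ℝ) := by exact_mod_cast hs44
          linarith
        calc (n : ℝ) ^ ((1 : ℝ) / 90) ≤ (6.25 * (s : ℝ)) ^ ((1 : ℝ) / 90) :=
              Real.rpow_le_rpow (Nat.cast_nonneg n) h5 (by norm_num)
          _ = (6.25 : ℝ) ^ ((1 : ℝ) / 90) * (s : ℝ) ^ ((1 : ℝ) / 90) :=
              Real.mul_rpow (by norm_num) (Nat.cast_nonneg s)
          _ ≤ 1.0206 * (s : ℝ) ^ ((1 : ℝ) / 90) :=
              mul_le_mul_of_nonneg_right growth_q (Real.rpow_nonneg (Nat.cast_nonneg s) _)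
      norm_num at h1 h2 h3 h4 ⊢
      linarith

/- S10 -/
theorem growth : ∃ c : ℝ, 0 < c ∧ ∀ r : ℤ, 1 ≤ r → c * (r : ℝ) ^ ((1 : ℝ) / 90) ≤ 1 + W (D0 r) 5 := by
  refine ⟨1 / 2, by norm_num, fun r hr => ?_⟩
  obtain ⟨n, rfl⟩ := Int.eq_ofNat_of_zero_le (show (0 : ℤ) ≤ r by omega)
  have h := growth_nat n (by omega)
  exact_mod_cast h

end HexSlit
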