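import Pool.Agent.HexSlit.Mono
import Pool.Agent.HexObs.Cut
import Pool.Agent.HexObs.Strip2

set_option autoImplicit false

namespace HexSlit

open HexObs Complex Finset

/-- the classes and the directions of the edges. -/
private lemma inj_dom_last (t : List Bool) (i : ℕ) :
    (((vx o e0 t i).1 - (vx o e0 t i).2) % 3 = 0 ∧
      (dx e0 t i = (1, 0) ∨ dx e0 t i = (-1, 1) ∨ dx e0 t i = (0, -1))) ∨
    (((vx o e0 t i).1 - (vx o e0 t i).2) % 3 = 1 ∧
      (dx e0 t i = (-1, 0) ∨ dx e0 t i = (0, 1) ∨ dx e0 t i = (1, -1))) := by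
  have h0 : e0 ∈ dirs := by decide
  have hc := cl_vx o e0 t i
  by_cases he : Even i
  · left
    rw [if_pos he] at hc
    constructor
    · have h1 : (((vx o e0 t i).1 - (vx o e0 t i).2 : ℤ) : ZMod 3) = 0 := by
        have h2 : cl o = 0 := by decide
        rw [h2] at hc
        exact hc
      exact Int.emod_eq_zero_of_dvd ((ZMod.intCast_zmod_eq_zero_iff_dvd _ 3).1 h1)
    · rcases step_even h0 t he with ⟨h, _⟩ | ⟨h, _⟩ | ⟨h, _⟩
      · left
        rw [h]
        rfl
      · right; left
        rw [h]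
        decide
      · right; right
        rw [h]
        decide
  · right
    rw [if_neg he] at hc
    constructor
    · have h1 : (((vx o e0 t i).1 - (vx o e0 t i).2 - 1 : ℤ) : ZMod 3) = 0 := by
        have h2 : cl o + cl e0 = 1 := by decide
        rw [h2] at hc
        unfold cl at hc
        push_cast at hc ⊢
        rw [hc]
        ring
      have h3 := (ZMod.intCast_zmod_eq_zero_iff_dvd _ 3).1 h1
      push_cast at h3
      omega
    · rcases step_odd h0 t he with ⟨h, _⟩ | ⟨h, _⟩ | ⟨h, _⟩
      · left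
        rw [h]
        decide
      · right; left
        rw [h]
        decide
      · right; right
        rw [h]
        decide

/-- the steps out of the domain. -/
private lemma inj_dom_step {r la lb lh : ℤ} (hr : 1 ≤ r) (hla : la % 3 = 0) (hla' : 3 * r ≤ la) (hlb : lb % 3 = 1)
    (hlb' : lb ≤ 1 - 12 * r) (hlh : lh = 1 - 9 * r ∨ lh ≤ 2 * lb - 1) {p q d : Pt} (hq : q = p + d)
    (hp : InDom r la lb lh p) (hnq : ¬ InDom r la lb lh q) (hqo : q.2 ≠ 0 ∨ 0 < q.1)
    (hd : ((p.1 - p.2) % 3 = 0 ∧ (d = (1, 0) ∨ d = (-1, 1) ∨ d = (0, -1))) ∨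
      ((p.1 - p.2) % 3 = 1 ∧ (d = (-1, 0) ∨ d = (0, 1) ∨ d = (1, -1)))) :
    (d = (1, 0) ∧ 0 < p.2 ∧ 2 * p.1 + p.2 = 6 * r - 3) ∨
    (d = (0, 1) ∧ 0 ≤ p.2 ∧ p.1 + 2 * p.2 = la - 2) ∨
    (d = (-1, 1) ∧ 0 ≤ p.2 ∧ p.1 - p.2 = lb + 2) ∨
    (d = (-1, 0) ∧ 0 < p.2 ∧ lh = 1 - 9 * r ∧ 2 * p.1 + p.2 = 2 - 9 * r) ∨
    (d = (1, -1) ∧ p.2 ≤ 0 ∧ p.1 - p.2 = 3 * r - 2) ∨
    (d = (-1, 0) ∧ p.2 < 0 ∧ 2 * p.1 + p.2 = 2 - 9 * r) := by
  unfold InDom at hp hnq
  rcases hd with ⟨hm, rfl | rfl | rfl⟩ | ⟨hm, rfl | rfl | rfl⟩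
  · left
    have e1 : q.1 = p.1 + 1 := by rw [hq]; rfl
    have e2 : q.2 = p.2 + 0 := by rw [hq]; rfl
    refine ⟨rfl, ?_⟩
    rw [e1, e2] at hnq hqo
    omega
  · right; right; left
    have e1 : q.1 = p.1 + (-1) := by rw [hq]; rfl
    have e2 : q.2 = p.2 + 1 := by rw [hq]; rfl
    refine ⟨rfl, ?_⟩
    rw [e1, e2] at hnq hqo
    omega
  · exfalso
    have e1 : q.1 = p.1 + 0 := by rw [hq]; rfl
    have e2 : q.2 = p.2 + (-1) := by rw [hq]; rfl
    rw [e1, e2] at hnq hqo
    omega
  · have e1 : q.1 = p.1 + (-1) := by rw [hq]; rfl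
    have e2 : q.2 = p.2 + 0 := by rw [hq]; rfl
    rw [e1, e2] at hnq hqo
    rcases lt_or_ge p.2 0 with h | h
    · right; right; right; right; right
      refine ⟨rfl, h, ?_⟩
      omega
    · right; right; right; left
      refine ⟨rfl, ?_⟩
      omega
  · right; left
    have e1 : q.1 = p.1 + 0 := by rw [hq]; rfl
    have e2 : q.2 = p.2 + 1 := by rw [hq]; rfl
    refine ⟨rfl, ?_⟩
    rw [e1, e2] at hnq hqo
    omega
  · right; right; right; right; left
    have e1 : q.1 = p.1 + 1 := by rw [hq]; rfl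
    have e2 : q.2 = p.2 + (-1) := by rw [hq]; rfl
    refine ⟨rfl, ?_⟩
    rw [e1, e2] at hnq hqo
    omega

/-- exits are not empty. -/
private lemma inj_exit_len {r la lb lh : ℤ} (hr : 1 ≤ r) (hla' : 3 * r ≤ la)
    (hlb' : lb ≤ 1 - 12 * r) (hlh : lh = 1 - 9 * r ∨ lh ≤ 2 * lb - 1) {t : List Bool}
    (ht : t ∈ exits (dom r la lb lh) o e0) : 1 ≤ t.length := by
  obtain ⟨hA, htip⟩ := mem_exits.1 ht
  by_contra h
  have h1 : t = [] := List.eq_nil_of_length_eq_zero (by omega)
  rw [h1] at htip
  apply htip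
  rw [mem_dom hr]
  have h2 : tip o e0 [] = (1, 0) := rfl
  rw [h2]
  unfold InDom
  simp only
  omega

/-- all the exits off the slit. -/
private lemma inj_dom_exit_off {r la lb lh : ℤ} (hr : 1 ≤ r) (hla : la % 3 = 0) (hla' : 3 * r ≤ la) (hlb : lb % 3 = 1)
    (hlb' : lb ≤ 1 - 12 * r) (hlh : lh = 1 - 9 * r ∨ lh ≤ 2 * lb - 1) {t : List Bool}
    (ht : t ∈ exits (dom r la lb lh) o e0) (hs : Off e0 (tip o e0 t - o)) :
    ∃ p : Pt, InDom r la lb lh p ∧
      ((0 < p.2 ∧ 2 * p.1 + p.2 = 6 * r - 3 ∧ HexObs.wind t = 0) ∨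
       (0 ≤ p.2 ∧ p.1 + 2 * p.2 = la - 2 ∧ HexObs.wind t = 1) ∨
       (0 ≤ p.2 ∧ p.1 - p.2 = lb + 2 ∧ HexObs.wind t = 2) ∨
       (lh = 1 - 9 * r ∧ HexObs.wind t = 3) ∨ HexObs.wind t = -1 ∨ HexObs.wind t = -3) := by
  obtain ⟨hA, htip⟩ := mem_exits.1 ht
  have h0 : e0 ∈ dirs := by decide
  have hoff := dom_off (la := la) (lb := lb) (lh := lh) hr
  have hlen := inj_exit_len hr hla' hlb' hlh ht
  have hp : InDom r la lb lh (vx o e0 t t.length) := (mem_dom hr).1 (hA.mem _ hlen le_rfl)
  have hvx : ∀ i, i ≤ t.length → vx o e0 t i = (0, 0) ∨ InDom r la lb lh (vx o e0 t i) := by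
    intro i hi
    rcases Nat.eq_zero_or_pos i with h | h
    · left
      rw [h]
      rfl
    · right
      exact (mem_dom hr).1 (hA.mem i h hi)
  refine ⟨_, hp, ?_⟩
  have hnq : ¬ InDom r la lb lh (tip o e0 t) := fun h => htip ((mem_dom hr).2 h)
  have hq : tip o e0 t = vx o e0 t t.length + dx e0 t t.length := vx_succ o e0 t t.length
  have hqo : (tip o e0 t).2 ≠ 0 ∨ 0 < (tip o e0 t).1 := by
    generalize tip o e0 t = q at hs
    unfold Off cross ip e0 o at hs
    simp only [Prod.fst_sub, Prod.snd_sub] at hs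
    omega
  have hstep := inj_dom_step hr hla hla' hlb hlb' hlh hq hp hnq hqo (inj_dom_last t t.length)
  have hL := wind_left h0 hoff hA hlen
  have hR := wind_right h0 hoff hA hlen
  have hze : cross e0 (vx o e0 t t.length + tip o e0 t - (o + o)) =
      (vx o e0 t t.length).2 + (tip o e0 t).2 := by
    unfold cross e0 o
    simp only [Prod.fst_sub, Prod.snd_sub, Prod.fst_add, Prod.snd_add]
    ring
  rw [hze] at hL hR
  rcases hstep with ⟨hd, h1, h2⟩ | ⟨hd, h1, h2⟩ | ⟨hd, h1, h2⟩ | ⟨hd, h1, h2, h3⟩ | ⟨hd, h1, h2⟩ | ⟨hd, h1, h2⟩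
  · left
    rw [hd] at hq hL
    generalize hqq : tip o e0 t = q at *
    generalize hpp : vx o e0 t t.length = p at *
    have e1 : q.1 = p.1 + 1 := by rw [hq]; rfl
    have e2 : q.2 = p.2 + 0 := by rw [hq]; rfl
    refine ⟨h1, h2, (hL ?_ ?_).1 rfl⟩
    · intro i hi
      right
      rcases hvx i hi with h | h
      · rw [h]
        unfold ip
        simp only [Prod.fst_sub, Prod.snd_sub]
        omega
      · unfold InDom at h
        generalize vx o e0 t i = w at *
        unfold ip
        simp only [Prod.fst_sub, Prod.snd_sub]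
        omega
    · omega
  · right; left
    rw [hd] at hq hL
    generalize hqq : tip o e0 t = q at *
    generalize hpp : vx o e0 t t.length = p at *
    have e1 : q.1 = p.1 + 0 := by rw [hq]; rfl
    have e2 : q.2 = p.2 + 1 := by rw [hq]; rfl
    refine ⟨h1, h2, (hL ?_ ?_).2.1 rfl⟩
    · intro i hi
      right
      rcases hvx i hi with h | h
      · rw [h]
        unfold ip
        simp only [Prod.fst_sub, Prod.snd_sub]
        omega
      · unfold InDom at h
        generalize vx o e0 t i = w at *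
        unfold ip
        simp only [Prod.fst_sub, Prod.snd_sub]
        omega
    · omega
  · right; right; left
    rw [hd] at hq hL
    generalize hqq : tip o e0 t = q at *
    generalize hpp : vx o e0 t t.length = p at *
    have e1 : q.1 = p.1 + (-1) := by rw [hq]; rfl
    have e2 : q.2 = p.2 + 1 := by rw [hq]; rfl
    refine ⟨h1, h2, (hL ?_ ?_).2.2.1 (by decide)⟩
    · intro i hi
      right
      rcases hvx i hi with h | h
      · rw [h]
        unfold ip
        simp only [Prod.fst_sub, Prod.snd_sub]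
        omega
      · unfold InDom at h
        generalize vx o e0 t i = w at *
        unfold ip
        simp only [Prod.fst_sub, Prod.snd_sub]
        omega
    · omega
  · right; right; right; left
    rw [hd] at hq hL
    generalize hqq : tip o e0 t = q at *
    generalize hpp : vx o e0 t t.length = p at *
    have e1 : q.1 = p.1 + (-1) := by rw [hq]; rfl
    have e2 : q.2 = p.2 + 0 := by rw [hq]; rfl
    refine ⟨h2, (hL ?_ ?_).2.2.2 (by decide)⟩
    · intro i hi
      right
      rcases hvx i hi with h | h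
      · rw [h]
        unfold ip
        simp only [Prod.fst_sub, Prod.snd_sub]
        omega
      · unfold InDom at h
        generalize vx o e0 t i = w at *
        unfold ip
        simp only [Prod.fst_sub, Prod.snd_sub]
        omega
    · omega
  · right; right; right; right; left
    rw [hd] at hq hR
    generalize hqq : tip o e0 t = q at *
    generalize hpp : vx o e0 t t.length = p at *
    have e1 : q.1 = p.1 + 1 := by rw [hq]; rfl
    have e2 : q.2 = p.2 + (-1) := by rw [hq]; rfl
    refine (hR ?_ ?_).2.1 (by decide)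
    · intro i hi
      right
      rcases hvx i hi with h | h
      · rw [h]
        unfold ip
        simp only [Prod.fst_sub, Prod.snd_sub]
        omega
      · unfold InDom at h
        generalize vx o e0 t i = w at *
        unfold ip
        simp only [Prod.fst_sub, Prod.snd_sub]
        omega
    · omega
  · right; right; right; right; right
    rw [hd] at hq hR
    generalize hqq : tip o e0 t = q at *
    generalize hpp : vx o e0 t t.length = p at *
    have e1 : q.1 = p.1 + (-1) := by rw [hq]; rfl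
    have e2 : q.2 = p.2 + 0 := by rw [hq]; rfl
    refine (hR ?_ ?_).2.2.2 (by decide)
    · intro i hi
      unfold Off
      rcases hvx i hi with h | h
      · rw [h]
        unfold ip cross
        simp only [Prod.fst_sub, Prod.snd_sub]
        omega
      · unfold InDom at h
        generalize vx o e0 t i = w at *
        unfold ip cross
        simp only [Prod.fst_sub, Prod.snd_sub]
        omega
    · omega


/-- exits of `E4 r` with winding 4 end on the slit. -/
private lemma inj_slit4 {r : ℤ} (hr : 1 ≤ r) {t : List Bool} (ht : t ∈ exits (E4 r) o e0)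
    (hw : HexObs.wind t = 4) : ¬ Off e0 (tip o e0 t - o) := by
  intro h
  obtain ⟨p, hp, h⟩ := inj_dom_exit_off hr (by omega) (by omega) (by omega) (by omega) (by omega) ht h
  omega

/-- exits of `D0 r` with winding 5 end on the slit. -/
private lemma inj_slit5 {r : ℤ} (hr : 1 ≤ r) {t : List Bool} (ht : t ∈ exits (D0 r) o e0)
    (hw : HexObs.wind t = 5) : ¬ Off e0 (tip o e0 t - o) := by
  intro h
  obtain ⟨p, hp, h⟩ := inj_dom_exit_off hr (by omega) (by omega) (by omega) (by omega) (by omega) ht h
  omega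

/-- points of the slit are not in the domain -/
private lemma inj_slit_notin {r la lb lh : ℤ} (hr : 1 ≤ r) {p : Pt} (h2 : p.2 = 0) (h1 : p.1 ≤ 0) :
    p ∉ dom r la lb lh := by
  rw [mem_dom hr]
  unfold InDom
  omega

/-- the last vertex and the last direction of a landing with winding 4 -/
private lemma inj_data {r la lb lh : ℤ} (hr : 1 ≤ r) {t : List Bool} (hA : IsArr (dom r la lb lh) o e0 t)
    (hlen : 1 ≤ t.length) (hs : ¬ Off e0 (tip o e0 t - o)) (hw : HexObs.wind t = 4) :
    ∃ q : ℤ, vx o e0 t t.length = (q, 1) ∧ q ≤ -2 ∧ q % 3 = 1 ∧ dx e0 t t.length = (0, -1) := by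
  have h0 : e0 ∈ dirs := by decide
  have hoff := dom_off (la := la) (lb := lb) (lh := lh) hr
  have hd : dx e0 t t.length = (0, -1) := by
    rcases wind_slit h0 hoff hA hlen hs with ⟨h, _⟩ | ⟨_, h⟩ | ⟨_, h⟩ | ⟨_, h⟩
    · rw [h]
      decide
    · omega
    · omega
    · omega
  have hq : tip o e0 t = vx o e0 t t.length + dx e0 t t.length := vx_succ o e0 t t.length
  have hl := inj_dom_last t t.length
  rw [hd] at hq hl
  generalize hqq : tip o e0 t = w at *
  generalize hpp : vx o e0 t t.length = p at *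
  have e1 : w.1 = p.1 + 0 := by rw [hq]; rfl
  have e2 : w.2 = p.2 + (-1) := by rw [hq]; rfl
  have hcl : (p.1 - p.2) % 3 = 0 := by
    rcases hl with ⟨h, _⟩ | ⟨_, h | h | h⟩
    · exact h
    · exact absurd h (by decide)
    · exact absurd h (by decide)
    · exact absurd h (by decide)
  have h3 : w.2 = 0 ∧ w.1 ≤ 0 := by
    unfold Off cross ip e0 o at hs
    simp only [Prod.fst_sub, Prod.snd_sub] at hs
    omega
  refine ⟨p.1, ?_, by omega, by omega, hd⟩
  apply Prod.ext
  · rfl
  · show p.2 = 1
    omega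

/-- case 1: the walk arrives from the right -/
private lemma inj_case1 {r la lb lh : ℤ} (hr : 1 ≤ r) {s : List Bool} (hA : IsArr (dom r la lb lh) o e0 (s ++ [true]))
    (hs : ¬ Off e0 (tip o e0 (s ++ [true]) - o)) (hw : HexObs.wind (s ++ [true]) = 4) :
    ∃ u : List Bool, s = u ++ [false] ∧ u ++ [true] ∈ exits (dom r la lb lh) o e0 ∧
      HexObs.wind (u ++ [true]) = 5 ∧ ∃ q : ℤ, q ≤ -2 ∧ tip o e0 u = (q + 1, 1) ∧ tip o e0 s = (q, 1) := by
  obtain ⟨q, h1, h2, h3, h4⟩ := inj_data hr hA (by simp) hs hw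
  have hl : (s ++ [true]).length = s.length + 1 := by simp
  rw [dx_append_one] at h4
  have ht1 : tip o e0 s = (q, 1) := by
    rw [hl, vx_append le_rfl] at h1
    exact h1
  have hds : dx e0 s s.length = (-1, 0) := by
    generalize dx e0 s s.length = d at h4
    have h5 : rotL d = (0, -1) := h4
    unfold rotL at h5
    have e1 : -d.2 = 0 := congrArg Prod.fst h5
    have e2 : d.1 + d.2 = -1 := congrArg Prod.snd h5
    apply Prod.ext
    · show d.1 = -1
      omega
    · show d.2 = 0
      omega
  rcases List.eq_nil_or_concat s with hnil | ⟨u, c, hc⟩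
  · exfalso
    rw [hnil] at hds
    have h6 : ((1, 0) : Pt) = (-1, 0) := hds
    exact absurd h6 (by decide)
  have hc' : s = u ++ [c] := by rw [hc, List.concat_eq_append]
  subst hc'
  rw [dx_append_one] at hds
  have hAs := (isArr_append_one.1 hA).1
  rw [tip_append_one] at ht1
  rw [dx_append_one] at h4
  cases c with
  | true =>
    exfalso
    have hdu : dx e0 u u.length = (-1, 1) := by
      generalize dx e0 u u.length = d at hds
      have h5 : rotL d = (-1, 0) := hds
      unfold rotL at h5
      have e1 : -d.2 = -1 := congrArg Prod.fst h5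
      have e2 : d.1 + d.2 = 0 := congrArg Prod.snd h5
      apply Prod.ext
      · show d.1 = -1
        omega
      · show d.2 = 1
        omega
    have hu : 1 ≤ u.length := by
      by_contra hcon
      have hn : u = [] := List.eq_nil_of_length_eq_zero (by omega)
      rw [hn] at hdu
      have h6 : ((1, 0) : Pt) = (-1, 1) := hdu
      exact absurd h6 (by decide)
    have hm := (isArr_append_one.1 hAs).1.mem u.length hu le_rfl
    have hq : tip o e0 u = vx o e0 u u.length + dx e0 u u.length := vx_succ o e0 u u.length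
    rw [hdu] at hq ht1 hds
    rw [hds] at ht1
    generalize vx o e0 u u.length = w at *
    generalize tip o e0 u = z at *
    have a1 : z.1 + (-1) = q := congrArg Prod.fst ht1
    have a2 : z.2 + 0 = 1 := congrArg Prod.snd ht1
    have a3 : z.1 = w.1 + (-1) := by rw [hq]; rfl
    have a4 : z.2 = w.2 + 1 := by rw [hq]; rfl
    exact inj_slit_notin hr (by omega) (by omega) hm
  | false =>
    have hdu : dx e0 u u.length = (0, -1) := by
      generalize dx e0 u u.length = d at hds
      have h5 : rotR d = (-1, 0) := hds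
      unfold rotR at h5
      have e1 : d.1 + d.2 = -1 := congrArg Prod.fst h5
      have e2 : -d.1 = 0 := congrArg Prod.snd h5
      apply Prod.ext
      · show d.1 = 0
        omega
      · show d.2 = -1
        omega
    rw [hds] at ht1
    have htu : tip o e0 u = (q + 1, 1) := by
      generalize tip o e0 u = z at ht1
      have a1 : z.1 + (-1) = q := congrArg Prod.fst ht1
      have a2 : z.2 + 0 = 1 := congrArg Prod.snd ht1
      apply Prod.ext
      · show z.1 = q + 1
        omega
      · show z.2 = 1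
        omega
    refine ⟨u, rfl, mem_exits.2 ⟨isArr_append_one.2 (isArr_append_one.1 hAs), ?_⟩, ?_, q, h2, htu, ?_⟩
    · have h7 : tip o e0 (u ++ [true]) = (q + 2, 0) := by
        rw [tip_append_one, hdu, htu]
        apply Prod.ext
        · show q + 1 + -(-1) = q + 2
          ring
        · show (1 : ℤ) + (0 + -1) = 0
          ring
      rw [h7]
      exact inj_slit_notin hr rfl (by show q + 2 ≤ 0; omega)
    · rw [wind_append, wind_append] at hw
      rw [wind_append]
      have w1 : HexObs.wind [true] = 1 := rfl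
      have w2 : HexObs.wind [false] = -1 := rfl
      rw [w1, w2] at hw
      rw [w1]
      omega
    · rw [tip_append_one, hds]
      exact ht1

/-- case 2: the walk arrives from the left -/
private lemma inj_case2 {r la lb lh : ℤ} (hr : 1 ≤ r) (hla : 3 * r ≤ la) {s : List Bool}
    (hA : IsArr (dom r la lb lh) o e0 (s ++ [false]))
    (hs : ¬ Off e0 (tip o e0 (s ++ [false]) - o)) (hw : HexObs.wind (s ++ [false]) = 4) :
    s ++ [true] ++ [false] ∈ exits (dom r la lb lh) o e0 ∧ HexObs.wind (s ++ [true] ++ [false]) = 5 := by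
  obtain ⟨q, h1, h2, h3, h4⟩ := inj_data hr hA (by simp) hs hw
  have hl : (s ++ [false]).length = s.length + 1 := by simp
  rw [dx_append_one] at h4
  have ht1 : tip o e0 s = (q, 1) := by
    rw [hl, vx_append le_rfl] at h1
    exact h1
  have hds : dx e0 s s.length = (1, -1) := by
    generalize dx e0 s s.length = d at h4
    have h5 : rotR d = (0, -1) := h4
    unfold rotR at h5
    have e1 : d.1 + d.2 = 0 := congrArg Prod.fst h5
    have e2 : -d.1 = -1 := congrArg Prod.snd h5
    apply Prod.ext
    · show d.1 = 1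
      omega
    · show d.2 = -1
      omega
  have hAs := isArr_append_one.1 hA
  have hta : tip o e0 (s ++ [true]) = (q + 1, 1) := by
    rw [tip_append_one, hds, ht1]
    apply Prod.ext
    · show q + -(-1) = q + 1
      ring
    · show (1 : ℤ) + (1 + -1) = 1
      ring
  have hda : dx e0 (s ++ [true]) (s ++ [true]).length = (1, 0) := by
    rw [dx_append_one, hds]
    rfl
  have hvs : (q, 1) ∈ dom r la lb lh := by
    rw [← ht1]
    exact hAs.2.1
  have ha : ((q + 1, 1) : Pt) ∈ dom r la lb lh := by
    obtain ⟨_, _, c3, _⟩ := (mem_dom hr).1 hvs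
    obtain ⟨d1, d2, d3, d4⟩ := c3 (by show (0 : ℤ) ≤ 1; norm_num)
    have f1 : q + 2 * 1 < la := d1
    have f2 : lb < q - 1 := d2
    have f3 : lh < 2 * q + 1 := d3
    refine (mem_dom hr).2 ⟨Or.inr ?_, Or.inl ?_, fun _ => ⟨?_, ?_, ?_, ?_⟩, fun h => absurd h ?_⟩
    · show (q + 1 - 1) % 3 = 1
      omega
    · show (1 : ℤ) ≠ 0
      norm_num
    · show q + 1 + 2 * 1 < la
      omega
    · show lb < q + 1 - 1
      omega
    · show lh < 2 * (q + 1) + 1
      omega
    · show 2 * (q + 1) + 1 < 6 * r - 1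
      omega
    · show ¬ (1 : ℤ) < 0
      norm_num
  have hmem : ∀ i, 1 ≤ i → i ≤ s.length + 1 → vx o e0 s i ∈ dom r la lb lh := by
    intro i h5 h6
    have := hA.mem i h5 (by omega)
    rwa [vx_append (by omega)] at this
  have hinj : ∀ i k, i < k → k ≤ s.length + 1 → vx o e0 s i ≠ vx o e0 s k := by
    intro i k h5 h6
    have := hA.inj i k h5 (by omega)
    rwa [vx_append (by omega), vx_append (by omega)] at this
  have hend : vx o e0 s (s.length + 1) = (q, 1) := ht1
  have hfree : ∀ i, i ≤ s.length → vx o e0 s i ≠ (q + 1, 1) := by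
    intro i hi heq
    rcases Nat.eq_zero_or_pos i with h5 | h5
    · rw [h5] at heq
      have h6 : ((0, 0) : Pt) = (q + 1, 1) := heq
      have h7 : (0 : ℤ) = 1 := congrArg Prod.snd h6
      omega
    obtain ⟨j, rfl⟩ : ∃ j, i = j + 1 := ⟨i - 1, by omega⟩
    have hn : vx o e0 s (j + 1 + 1) = vx o e0 s (j + 1) + dx e0 s (j + 1) := vx_succ o e0 s (j + 1)
    have hp : vx o e0 s (j + 1) = vx o e0 s j + dx e0 s j := vx_succ o e0 s j
    have hcn := inj_dom_last s (j + 1)
    have hcp := inj_dom_last s j
    rw [heq] at hn hp hcn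
    have hdn : dx e0 s (j + 1) = (-1, 0) ∨ dx e0 s (j + 1) = (0, 1) ∨ dx e0 s (j + 1) = (1, -1) := by
      rcases hcn with ⟨h, _⟩ | ⟨_, h⟩
      · exfalso
        simp only at h
        omega
      · exact h
    have hlast : j + 1 ≠ s.length := by
      intro h
      rw [h, hds, hend] at hn
      have := congrArg Prod.snd hn
      have h8 : (1 : ℤ) = 1 + -1 := this
      omega
    have hnext : vx o e0 s (j + 1 + 1) = (q + 1, 2) := by
      rcases hdn with h | h | h
      · exfalso
        rw [h] at hn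
        have h8 : vx o e0 s (j + 1 + 1) = vx o e0 s (s.length + 1) := by
          rw [hn, hend]
          apply Prod.ext
          · show q + 1 + -1 = q
            ring
          · show (1 : ℤ) + 0 = 1
            ring
        exact hinj (j + 1 + 1) (s.length + 1) (by omega) le_rfl h8
      · rw [hn, h]
        apply Prod.ext
        · show q + 1 + 0 = q + 1
          ring
        · show (1 : ℤ) + 1 = 2
          ring
      · exfalso
        rw [h] at hn
        have h8 := hmem (j + 1 + 1) (by omega) (by omega)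
        rw [hn] at h8
        refine inj_slit_notin hr ?_ ?_ h8
        · show (1 : ℤ) + -1 = 0
          ring
        · show q + 1 + 1 ≤ 0
          omega
    have e1 : (vx o e0 s j).1 + (dx e0 s j).1 = q + 1 := (congrArg Prod.fst hp).symm
    have e2 : (vx o e0 s j).2 + (dx e0 s j).2 = 1 := (congrArg Prod.snd hp).symm
    rcases hcp with ⟨_, h | h | h⟩ | ⟨h, h'⟩
    · rw [h] at e1 e2
      have h8 : vx o e0 s j = vx o e0 s (s.length + 1) := by
        rw [hend]
        apply Prod.ext
        · show (vx o e0 s j).1 = q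
          have e3 : (vx o e0 s j).1 + 1 = q + 1 := e1
          omega
        · show (vx o e0 s j).2 = 1
          have e3 : (vx o e0 s j).2 + 0 = 1 := e2
          omega
      exact hinj j (s.length + 1) (by omega) le_rfl h8
    · rw [h] at e1 e2
      have e3 : (vx o e0 s j).1 + (-1) = q + 1 := e1
      have e4 : (vx o e0 s j).2 + 1 = 1 := e2
      rcases Nat.eq_zero_or_pos j with h5 | h5
      · rw [h5] at heq
        have h6 : ((1, 0) : Pt) = (q + 1, 1) := heq
        have h7 : (0 : ℤ) = 1 := congrArg Prod.snd h6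
        omega
      · exact inj_slit_notin hr (by omega) (by omega) (hmem j h5 (by omega))
    · rw [h] at e1 e2
      have h8 : vx o e0 s j = vx o e0 s (j + 1 + 1) := by
        rw [hnext]
        apply Prod.ext
        · show (vx o e0 s j).1 = q + 1
          have e3 : (vx o e0 s j).1 + 0 = q + 1 := e1
          omega
        · show (vx o e0 s j).2 = 2
          have e3 : (vx o e0 s j).2 + (-1) = 1 := e2
          omega
      exact hinj j (j + 1 + 1) (by omega) (by omega) h8
    · rcases h' with h' | h' | h'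
      · rw [h'] at e1 e2
        have e3 : (vx o e0 s j).1 + (-1) = q + 1 := e1
        have e4 : (vx o e0 s j).2 + 0 = 1 := e2
        omega
      · rw [h'] at e1 e2
        have e3 : (vx o e0 s j).1 + 0 = q + 1 := e1
        have e4 : (vx o e0 s j).2 + 1 = 1 := e2
        omega
      · rw [h'] at e1 e2
        have e3 : (vx o e0 s j).1 + 1 = q + 1 := e1
        have e4 : (vx o e0 s j).2 + (-1) = 1 := e2
        omega
  constructor
  · refine mem_exits.2 ⟨isArr_append_one.2 ⟨isArr_append_one.2 hAs, ?_, ?_⟩, ?_⟩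
    · rw [hta]
      exact ha
    · intro i hi
      have hl2 : (s ++ [true]).length = s.length + 1 := by simp
      rw [hl2] at hi
      rw [hta, vx_append (by omega)]
      rcases Nat.lt_or_ge s.length i with h5 | h5
      · have h6 : i = s.length + 1 := by omega
        rw [h6, hend]
        intro h7
        have h8 : q = q + 1 := congrArg Prod.fst h7
        omega
      · exact hfree i h5
    · rw [tip_append_one, hda, hta]
      refine inj_slit_notin hr ?_ ?_
      · show (1 : ℤ) + -1 = 0
        ring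
      · show q + 1 + (1 + 0) ≤ 0
        omega
  · rw [wind_append] at hw
    rw [wind_append, wind_append]
    have w1 : HexObs.wind [true] = 1 := rfl
    have w2 : HexObs.wind [false] = -1 := rfl
    rw [w2] at hw
    rw [w1, w2]
    omega

private lemma inj_sum {A B : Finset (List Bool)} (φ : List Bool → List Bool) (c : ℝ) (hc : 0 ≤ c)
    (hφ : ∀ t ∈ A, φ t ∈ B) (hi : Set.InjOn φ A) (hw : ∀ t ∈ A, xc ^ t.length ≤ c * xc ^ (φ t).length) :
    ∑ t ∈ A, xc ^ t.length ≤ c * ∑ t ∈ B, xc ^ t.length := by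
  classical
  refine le_trans (Finset.sum_le_sum hw) ?_
  rw [← Finset.mul_sum]
  apply mul_le_mul_of_nonneg_left _ hc
  rw [← Finset.sum_image (f := fun s : List Bool => xc ^ s.length) hi]
  apply Finset.sum_le_sum_of_subset_of_nonneg
  · intro s hs
    rw [Finset.mem_image] at hs
    obtain ⟨t, ht, rfl⟩ := hs
    exact hφ t ht
  · intro s _ _
    exact pow_nonneg xc_pos.le _

private lemma inj_D0_sub {r : ℤ} (hr : 2 ≤ r) {p : Pt} (hp : p ∈ D0 (r - 1)) : p ∈ D0 r := by
  unfold D0 at hp ⊢
  rw [mem_dom (by omega)] at hp ⊢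
  unfold InDom at hp ⊢
  omega

private lemma inj_D0_sub_E4' {r : ℤ} (hr : 1 ≤ r) {p : Pt} (hp : p ∈ D0 r) : p ∈ E4 r := by
  unfold D0 at hp
  unfold E4
  rw [mem_dom hr] at hp ⊢
  unfold InDom at hp ⊢
  omega

private lemma inj_xc_le_one : xc ≤ 1 := by
  have h1 : Real.cos (Real.pi / 3) ≤ Real.cos (Real.pi / 8) :=
    Real.cos_le_cos_of_nonneg_of_le_pi (by positivity) (by linarith [Real.pi_pos]) (by linarith [Real.pi_pos])
  rw [Real.cos_pi_div_three] at h1
  unfold xc
  rw [div_le_one (by linarith)]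
  linarith

/-- some vertex of the walk is outside the finset -/
private def InjOut (Ω : Finset Pt) (t : List Bool) : Prop := ∃ i, 1 ≤ i ∧ i ≤ t.length ∧ vx o e0 t i ∉ Ω

/-- outside the small domain: the vertex before the last one -/
private lemma inj_out_step {r : ℤ} (hr : 2 ≤ r) {q : ℤ} (_hq : q ≤ -2) (h1 : ((q, 1) : Pt) ∈ E4 r)
    (h2 : ((q, 1) : Pt) ∉ D0 r) : ((q + 1, 1) : Pt) ∉ D0 (r - 1) := by
  intro h3
  apply h2
  unfold D0 at h3 ⊢
  unfold E4 at h1
  obtain ⟨c1, _, _, _⟩ := (mem_dom (by omega)).1 h1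
  obtain ⟨_, _, d3, _⟩ := (mem_dom (by omega)).1 h3
  obtain ⟨g1, g2, g3, g4⟩ := d3 (by show (0 : ℤ) ≤ 1; norm_num)
  have f2 : 1 - 12 * (r - 1) < q + 1 - 1 := g2
  have f3 : 1 - 9 * (r - 1) < 2 * (q + 1) + 1 := g3
  refine (mem_dom (by omega)).2 ⟨c1, Or.inl ?_, fun _ => ⟨?_, ?_, ?_, ?_⟩, fun h => absurd h ?_⟩
  · show (1 : ℤ) ≠ 0
    norm_num
  · show q + 2 * 1 < 3 * r
    omega
  · show 1 - 12 * r < q - 1
    omega
  · show 1 - 9 * r < 2 * q + 1
    omega
  · show 2 * q + 1 < 6 * r - 1
    omega
  · show ¬ (1 : ℤ) < 0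
    norm_num

/- S8 -/
/-- landings with winding 4 against landings with winding 5 -/
theorem inject {r : ℤ} (hr : 2 ≤ r) :
    W (E4 r) 4 - W (D0 r) 4 ≤ xc⁻¹ * (W (E4 r) 5 - W (D0 (r - 1)) 5) := by
  classical
  obtain ⟨A, hA⟩ : ∃ A : Finset (List Bool), A = ((exits (E4 r) o e0).filter (fun t => HexObs.wind t = 4)).filter
    (fun t => InjOut (D0 r) t) := ⟨_, rfl⟩
  obtain ⟨B, hB⟩ : ∃ B : Finset (List Bool), B = ((exits (E4 r) o e0).filter (fun t => HexObs.wind t = 5)).filter
    (fun t => InjOut (D0 (r - 1)) t) := ⟨_, rfl⟩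
  -- left side
  have h4 : W (E4 r) 4 ≤ W (D0 r) 4 + ∑ t ∈ A, xc ^ t.length := by
    have e1 : W (E4 r) 4 = ∑ t ∈ ((exits (E4 r) o e0).filter (fun t => HexObs.wind t = 4)), xc ^ t.length := rfl
    have e2 := Finset.sum_filter_add_sum_filter_not ((exits (E4 r) o e0).filter (fun t => HexObs.wind t = 4))
      (fun t => InjOut (D0 r) t) (fun t => xc ^ t.length)
    rw [← hA] at e2
    have e3 : ∑ t ∈ ((exits (E4 r) o e0).filter (fun t => HexObs.wind t = 4)).filter
        (fun t => ¬ InjOut (D0 r) t), xc ^ t.length ≤ W (D0 r) 4 := by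
      apply Finset.sum_le_sum_of_subset_of_nonneg
      · intro t ht
        rw [Finset.mem_filter, Finset.mem_filter, mem_exits] at ht
        obtain ⟨⟨⟨h1, h2⟩, h3⟩, h5⟩ := ht
        rw [Finset.mem_filter, mem_exits]
        refine ⟨⟨⟨?_, h1.inj⟩, fun h => h2 (inj_D0_sub_E4' (by omega) h)⟩, h3⟩
        intro i h6 h7
        by_contra h8
        exact h5 ⟨i, h6, h7, h8⟩
      · intro t _ _
        exact pow_nonneg xc_pos.le _
    linarith
  -- right side
  have h5 : W (D0 (r - 1)) 5 + ∑ t ∈ B, xc ^ t.length ≤ W (E4 r) 5 := by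
    have e1 : W (E4 r) 5 = ∑ t ∈ ((exits (E4 r) o e0).filter (fun t => HexObs.wind t = 5)), xc ^ t.length := rfl
    have e2 := Finset.sum_filter_add_sum_filter_not ((exits (E4 r) o e0).filter (fun t => HexObs.wind t = 5))
      (fun t => InjOut (D0 (r - 1)) t) (fun t => xc ^ t.length)
    rw [← hB] at e2
    have e3 : W (D0 (r - 1)) 5 ≤ ∑ t ∈ ((exits (E4 r) o e0).filter (fun t => HexObs.wind t = 5)).filter
        (fun t => ¬ InjOut (D0 (r - 1)) t), xc ^ t.length := by
      apply Finset.sum_le_sum_of_subset_of_nonneg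
      · intro t ht
        rw [Finset.mem_filter] at ht
        obtain ⟨h1, h3⟩ := ht
        have hs := inj_slit5 (by omega) h1 h3
        rw [mem_exits] at h1
        rw [Finset.mem_filter, Finset.mem_filter, mem_exits]
        refine ⟨⟨⟨⟨fun i h6 h7 => inj_D0_sub_E4' (by omega) (inj_D0_sub hr (h1.1.mem i h6 h7)), h1.1.inj⟩, ?_⟩, h3⟩, ?_⟩
        · intro h
          unfold E4 at h
          exact hs (dom_off (by omega) _ h)
        · rintro ⟨i, h6, h7, h8⟩
          exact h8 (h1.1.mem i h6 h7)
      · intro t _ _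
        exact pow_nonneg xc_pos.le _
    linarith
  -- comparison
  have key : ∀ t ∈ A, ∃ t' ∈ B, (∃ u, t = u ++ [false] ++ [true] ∧ t' = u ++ [true]) ∨
      (∃ s, t = s ++ [false] ∧ t' = s ++ [true] ++ [false]) := by
    intro t ht
    rw [hA, Finset.mem_filter, Finset.mem_filter] at ht
    obtain ⟨⟨h1, h2⟩, i, hi1, hi2, hi3⟩ := ht
    have hs := inj_slit4 (by omega) h1 h2
    have h1' := mem_exits.1 h1
    rcases List.eq_nil_or_concat t with h | ⟨s, b, h⟩
    · exfalso
      rw [h] at h2
      have h7 : (0 : ℤ) = 4 := h2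
      omega
    rw [List.concat_eq_append] at h
    subst h
    cases b with
    | true =>
      obtain ⟨u, hu, hu1, hu2, q, hq, htu, hts⟩ := inj_case1 (r := r) (by omega) h1'.1 hs h2
      subst hu
      refine ⟨u ++ [true], ?_, Or.inl ⟨u, rfl, rfl⟩⟩
      rw [hB, Finset.mem_filter, Finset.mem_filter]
      refine ⟨⟨hu1, hu2⟩, ?_⟩
      have hl : (u ++ [false] ++ [true]).length = u.length + 2 := by simp
      have hl' : (u ++ [true]).length = u.length + 1 := by simp
      have hl'' : (u ++ [false]).length = u.length + 1 := by simp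
      rcases Nat.lt_or_ge (u.length + 1) i with h6 | h6
      · have h7 : i = (u ++ [false]).length + 1 := by omega
        rw [h7, vx_append le_rfl] at hi3
        have h8 : vx o e0 (u ++ [false]) ((u ++ [false]).length + 1) = (q, 1) := hts
        rw [h8] at hi3
        refine ⟨u.length + 1, by omega, by omega, ?_⟩
        rw [vx_append le_rfl]
        have h9 : vx o e0 u (u.length + 1) = (q + 1, 1) := htu
        rw [h9]
        have h11 : ((q, 1) : Pt) ∈ E4 r := by
          have := (isArr_append_one.1 h1'.1).2.1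
          rw [hts] at this
          exact this
        exact inj_out_step hr hq h11 hi3
      · refine ⟨i, hi1, by omega, ?_⟩
        intro h10
        apply hi3
        rw [vx_append (by omega)] at h10
        rw [List.append_assoc, vx_append (by omega)]
        exact inj_D0_sub hr h10
    | false =>
      obtain ⟨hu1, hu2⟩ := inj_case2 (r := r) (by omega) (by omega) h1'.1 hs h2
      refine ⟨s ++ [true] ++ [false], ?_, Or.inr ⟨s, rfl, rfl⟩⟩
      rw [hB, Finset.mem_filter, Finset.mem_filter]
      refine ⟨⟨hu1, hu2⟩, ?_⟩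
      have hl : (s ++ [false]).length = s.length + 1 := by simp
      have hl' : (s ++ [true] ++ [false]).length = s.length + 2 := by simp
      refine ⟨i, hi1, by omega, ?_⟩
      intro h10
      apply hi3
      rw [List.append_assoc, vx_append (by omega)] at h10
      rw [vx_append (by omega)]
      exact inj_D0_sub hr h10
  choose! f hf1 hf2 using key
  have hx := inj_xc_le_one
  have hx0 := xc_pos
  have hcmp : ∑ t ∈ A, xc ^ t.length ≤ xc⁻¹ * ∑ t ∈ B, xc ^ t.length := by
    refine inj_sum f xc⁻¹ (inv_nonneg.2 xc_pos.le) hf1 ?_ ?_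
    · intro t ht t' ht' h
      rcases hf2 t ht with ⟨u, hu, hu'⟩ | ⟨s, hs, hs'⟩
      · rcases hf2 t' ht' with ⟨w, hw, hw'⟩ | ⟨w, hw, hw'⟩
        · have h6 : u = w := by
            rw [hu', hw'] at h
            exact List.append_cancel_right h
          rw [hu, hw, h6]
        · exfalso
          rw [hu', hw'] at h
          have h6 := congrArg List.getLast? h
          simp at h6
      · rcases hf2 t' ht' with ⟨w, hw, hw'⟩ | ⟨w, hw, hw'⟩
        · exfalso
          rw [hs', hw'] at h
          have h6 := congrArg List.getLast? h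
          simp at h6
        · have h6 : s = w := by
            rw [hs', hw'] at h
            exact List.append_cancel_right (List.append_cancel_right h)
          rw [hs, hw, h6]
    · intro t ht
      rw [le_inv_mul_iff₀ xc_pos, ← pow_succ']
      apply pow_le_pow_of_le_one xc_pos.le hx
      rcases hf2 t ht with ⟨u, hu, hu'⟩ | ⟨s, hs, hs'⟩
      · have e1 : t.length = u.length + 2 := by
          conv_lhs => rw [hu]
          simp
        have e2 : (f t).length = u.length + 1 := by
          rw [hu']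
          simp
        omega
      · have e1 : t.length = s.length + 1 := by
          conv_lhs => rw [hs]
          simp
        have e2 : (f t).length = s.length + 2 := by
          rw [hs']
          simp
        omega
  have hc : (0 : ℝ) ≤ xc⁻¹ := inv_nonneg.2 xc_pos.le
  have h6 : xc⁻¹ * ∑ t ∈ B, xc ^ t.length ≤ xc⁻¹ * (W (E4 r) 5 - W (D0 (r - 1)) 5) :=
    mul_le_mul_of_nonneg_left (by linarith) hc
  linarith

end HexSlit
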