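import Pool.Agent.HexSlit.Dom
import Pool.Agent.HexDecay.Mirror

set_option autoImplicit false

namespace HexSlit

open HexObs Complex Finset

/-- the classes and the directions of the last edge. -/
private lemma mo_last (t : List Bool) :
    (((vx o e0 t t.length).1 - (vx o e0 t t.length).2) % 3 = 0 ∧
      (dx e0 t t.length = (1, 0) ∨ dx e0 t t.length = (-1, 1) ∨ dx e0 t t.length = (0, -1))) ∨
    (((vx o e0 t t.length).1 - (vx o e0 t t.length).2) % 3 = 1 ∧
      (dx e0 t t.length = (-1, 0) ∨ dx e0 t t.length = (0, 1) ∨ dx e0 t t.length = (1, -1))) := by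
  have h0 : e0 ∈ dirs := by decide
  have hc := cl_vx o e0 t t.length
  by_cases he : Even t.length
  · left
    rw [if_pos he] at hc
    constructor
    · have h1 : (((vx o e0 t t.length).1 - (vx o e0 t t.length).2 : ℤ) : ZMod 3) = 0 := by
        have h2 : cl o = 0 := by decide
        rw [h2] at hc
        exact hc
      exact Int.emod_eq_zero_of_dvd ((ZMod.intCast_zmod_eq_zero_iff_dvd _ 3).1 h1)
    · rcases step_even h0 t he with ⟨h, _⟩ | ⟨h, _⟩ | ⟨h, _⟩
      · left
        rw [h]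
        rfl
      · right; left
        rw [h]
        decide
      · right; right
        rw [h]
        decide
  · right
    rw [if_neg he] at hc
    constructor
    · have h1 : (((vx o e0 t t.length).1 - (vx o e0 t t.length).2 - 1 : ℤ) : ZMod 3) = 0 := by
        have h2 : cl o + cl e0 = 1 := by decide
        rw [h2] at hc
        unfold cl at hc
        push_cast at hc ⊢
        rw [hc]
        ring
      have h3 := (ZMod.intCast_zmod_eq_zero_iff_dvd _ 3).1 h1
      push_cast at h3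
      omega
    · rcases step_odd h0 t he with ⟨h, _⟩ | ⟨h, _⟩ | ⟨h, _⟩
      · left
        rw [h]
        decide
      · right; left
        rw [h]
        decide
      · right; right
        rw [h]
        decide

/-- the steps out of the domain. -/
private lemma mo_step {r la lb lh : ℤ} (hr : 1 ≤ r) (hla : la % 3 = 0) (hla' : 3 * r ≤ la) (hlb : lb % 3 = 1)
    (hlb' : lb ≤ 1 - 12 * r) (hlh : lh = 1 - 9 * r ∨ lh ≤ 2 * lb - 1) {p q d : Pt} (hq : q = p + d)
    (hp : InDom r la lb lh p) (hnq : ¬ InDom r la lb lh q) (hqo : q.2 ≠ 0 ∨ 0 < q.1)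
    (hd : ((p.1 - p.2) % 3 = 0 ∧ (d = (1, 0) ∨ d = (-1, 1) ∨ d = (0, -1))) ∨
      ((p.1 - p.2) % 3 = 1 ∧ (d = (-1, 0) ∨ d = (0, 1) ∨ d = (1, -1)))) :
    (d = (1, 0) ∧ 0 < p.2 ∧ 2 * p.1 + p.2 = 6 * r - 3) ∨
    (d = (0, 1) ∧ 0 ≤ p.2 ∧ p.1 + 2 * p.2 = la - 2) ∨
    (d = (-1, 1) ∧ 0 ≤ p.2 ∧ p.1 - p.2 = lb + 2) ∨
    (d = (-1, 0) ∧ 0 < p.2 ∧ lh = 1 - 9 * r ∧ 2 * p.1 + p.2 = 2 - 9 * r) ∨
    (d = (1, -1) ∧ p.2 ≤ 0 ∧ p.1 - p.2 = 3 * r - 2) ∨
    (d = (-1, 0) ∧ p.2 < 0 ∧ 2 * p.1 + p.2 = 2 - 9 * r) := by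
  unfold InDom at hp hnq
  rcases hd with ⟨hm, rfl | rfl | rfl⟩ | ⟨hm, rfl | rfl | rfl⟩
  · left
    have e1 : q.1 = p.1 + 1 := by rw [hq]; rfl
    have e2 : q.2 = p.2 + 0 := by rw [hq]; rfl
    refine ⟨rfl, ?_⟩
    rw [e1, e2] at hnq hqo
    omega
  · right; right; left
    have e1 : q.1 = p.1 + (-1) := by rw [hq]; rfl
    have e2 : q.2 = p.2 + 1 := by rw [hq]; rfl
    refine ⟨rfl, ?_⟩
    rw [e1, e2] at hnq hqo
    omega
  · exfalso
    have e1 : q.1 = p.1 + 0 := by rw [hq]; rfl
    have e2 : q.2 = p.2 + (-1) := by rw [hq]; rfl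
    rw [e1, e2] at hnq hqo
    omega
  · have e1 : q.1 = p.1 + (-1) := by rw [hq]; rfl
    have e2 : q.2 = p.2 + 0 := by rw [hq]; rfl
    rw [e1, e2] at hnq hqo
    rcases lt_or_ge p.2 0 with h | h
    · right; right; right; right; right
      refine ⟨rfl, h, ?_⟩
      omega
    · right; right; right; left
      refine ⟨rfl, ?_⟩
      omega
  · right; left
    have e1 : q.1 = p.1 + 0 := by rw [hq]; rfl
    have e2 : q.2 = p.2 + 1 := by rw [hq]; rfl
    refine ⟨rfl, ?_⟩
    rw [e1, e2] at hnq hqo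
    omega
  · right; right; right; right; left
    have e1 : q.1 = p.1 + 1 := by rw [hq]; rfl
    have e2 : q.2 = p.2 + (-1) := by rw [hq]; rfl
    refine ⟨rfl, ?_⟩
    rw [e1, e2] at hnq hqo
    omega

/-- exits are not empty. -/
private lemma mo_len {r la lb lh : ℤ} (hr : 1 ≤ r) (hla' : 3 * r ≤ la)
    (hlb' : lb ≤ 1 - 12 * r) (hlh : lh = 1 - 9 * r ∨ lh ≤ 2 * lb - 1) {t : List Bool}
    (ht : t ∈ exits (dom r la lb lh) o e0) : 1 ≤ t.length := by
  obtain ⟨hA, htip⟩ := mem_exits.1 ht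
  by_contra h
  have h1 : t = [] := List.eq_nil_of_length_eq_zero (by omega)
  rw [h1] at htip
  apply htip
  rw [mem_dom hr]
  have h2 : tip o e0 [] = (1, 0) := rfl
  rw [h2]
  unfold InDom
  simp only
  omega

/-- all the exits off the slit. -/
private lemma mo_off {r la lb lh : ℤ} (hr : 1 ≤ r) (hla : la % 3 = 0) (hla' : 3 * r ≤ la) (hlb : lb % 3 = 1)
    (hlb' : lb ≤ 1 - 12 * r) (hlh : lh = 1 - 9 * r ∨ lh ≤ 2 * lb - 1) {t : List Bool}
    (ht : t ∈ exits (dom r la lb lh) o e0) (hs : Off e0 (tip o e0 t - o)) :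
    ∃ p : Pt, InDom r la lb lh p ∧
      ((((tip o e0 t).1 = p.1 + 1 ∧ (tip o e0 t).2 = p.2) ∧ 0 < p.2 ∧ 2 * p.1 + p.2 = 6 * r - 3 ∧ HexObs.wind t = 0) ∨
       (((tip o e0 t).1 = p.1 ∧ (tip o e0 t).2 = p.2 + 1) ∧ 0 ≤ p.2 ∧ p.1 + 2 * p.2 = la - 2 ∧ HexObs.wind t = 1) ∨
       (((tip o e0 t).1 = p.1 - 1 ∧ (tip o e0 t).2 = p.2 + 1) ∧ 0 ≤ p.2 ∧ p.1 - p.2 = lb + 2 ∧ HexObs.wind t = 2) ∨
       (((tip o e0 t).1 = p.1 - 1 ∧ (tip o e0 t).2 = p.2) ∧ 0 < p.2 ∧ lh = 1 - 9 * r ∧ 2 * p.1 + p.2 = 2 - 9 * r ∧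
         HexObs.wind t = 3) ∨
       (((tip o e0 t).1 = p.1 + 1 ∧ (tip o e0 t).2 = p.2 - 1) ∧ p.2 ≤ 0 ∧ p.1 - p.2 = 3 * r - 2 ∧ HexObs.wind t = -1) ∨
       (((tip o e0 t).1 = p.1 - 1 ∧ (tip o e0 t).2 = p.2) ∧ p.2 < 0 ∧ 2 * p.1 + p.2 = 2 - 9 * r ∧
         HexObs.wind t = -3)) := by
  obtain ⟨hA, htip⟩ := mem_exits.1 ht
  have h0 : e0 ∈ dirs := by decide
  have hoff := dom_off (la := la) (lb := lb) (lh := lh) hr
  have hlen := mo_len hr hla' hlb' hlh ht
  have hp : InDom r la lb lh (vx o e0 t t.length) := (mem_dom hr).1 (hA.mem _ hlen le_rfl)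
  have hvx : ∀ i, i ≤ t.length → vx o e0 t i = (0, 0) ∨ InDom r la lb lh (vx o e0 t i) := by
    intro i hi
    rcases Nat.eq_zero_or_pos i with h | h
    · left
      rw [h]
      rfl
    · right
      exact (mem_dom hr).1 (hA.mem i h hi)
  refine ⟨_, hp, ?_⟩
  have hnq : ¬ InDom r la lb lh (tip o e0 t) := fun h => htip ((mem_dom hr).2 h)
  have hq : tip o e0 t = vx o e0 t t.length + dx e0 t t.length := vx_succ o e0 t t.length
  have hqo : (tip o e0 t).2 ≠ 0 ∨ 0 < (tip o e0 t).1 := by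
    generalize tip o e0 t = q at hs
    unfold Off cross ip e0 o at hs
    simp only [Prod.fst_sub, Prod.snd_sub] at hs
    omega
  have hstep := mo_step hr hla hla' hlb hlb' hlh hq hp hnq hqo (mo_last t)
  have hL := wind_left h0 hoff hA hlen
  have hR := wind_right h0 hoff hA hlen
  have hze : cross e0 (vx o e0 t t.length + tip o e0 t - (o + o)) =
      (vx o e0 t t.length).2 + (tip o e0 t).2 := by
    unfold cross e0 o
    simp only [Prod.fst_sub, Prod.snd_sub, Prod.fst_add, Prod.snd_add]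
    ring
  rw [hze] at hL hR
  rcases hstep with ⟨hd, h1, h2⟩ | ⟨hd, h1, h2⟩ | ⟨hd, h1, h2⟩ | ⟨hd, h1, h2, h3⟩ | ⟨hd, h1, h2⟩ | ⟨hd, h1, h2⟩
  · left
    rw [hd] at hq hL
    generalize hqq : tip o e0 t = q at *
    generalize hpp : vx o e0 t t.length = p at *
    have e1 : q.1 = p.1 + 1 := by rw [hq]; rfl
    have e2 : q.2 = p.2 + 0 := by rw [hq]; rfl
    refine ⟨⟨by omega, by omega⟩, h1, h2, (hL ?_ ?_).1 rfl⟩
    · intro i hi
      right
      rcases hvx i hi with h | h
      · rw [h]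
        unfold ip
        simp only [Prod.fst_sub, Prod.snd_sub]
        omega
      · unfold InDom at h
        generalize vx o e0 t i = w at *
        unfold ip
        simp only [Prod.fst_sub, Prod.snd_sub]
        omega
    · omega
  · right; left
    rw [hd] at hq hL
    generalize hqq : tip o e0 t = q at *
    generalize hpp : vx o e0 t t.length = p at *
    have e1 : q.1 = p.1 + 0 := by rw [hq]; rfl
    have e2 : q.2 = p.2 + 1 := by rw [hq]; rfl
    refine ⟨⟨by omega, by omega⟩, h1, h2, (hL ?_ ?_).2.1 rfl⟩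
    · intro i hi
      right
      rcases hvx i hi with h | h
      · rw [h]
        unfold ip
        simp only [Prod.fst_sub, Prod.snd_sub]
        omega
      · unfold InDom at h
        generalize vx o e0 t i = w at *
        unfold ip
        simp only [Prod.fst_sub, Prod.snd_sub]
        omega
    · omega
  · right; right; left
    rw [hd] at hq hL
    generalize hqq : tip o e0 t = q at *
    generalize hpp : vx o e0 t t.length = p at *
    have e1 : q.1 = p.1 + (-1) := by rw [hq]; rfl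
    have e2 : q.2 = p.2 + 1 := by rw [hq]; rfl
    refine ⟨⟨by omega, by omega⟩, h1, h2, (hL ?_ ?_).2.2.1 (by decide)⟩
    · intro i hi
      right
      rcases hvx i hi with h | h
      · rw [h]
        unfold ip
        simp only [Prod.fst_sub, Prod.snd_sub]
        omega
      · unfold InDom at h
        generalize vx o e0 t i = w at *
        unfold ip
        simp only [Prod.fst_sub, Prod.snd_sub]
        omega
    · omega
  · right; right; right; left
    rw [hd] at hq hL
    generalize hqq : tip o e0 t = q at *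
    generalize hpp : vx o e0 t t.length = p at *
    have e1 : q.1 = p.1 + (-1) := by rw [hq]; rfl
    have e2 : q.2 = p.2 + 0 := by rw [hq]; rfl
    refine ⟨⟨by omega, by omega⟩, h1, h2, h3, (hL ?_ ?_).2.2.2 (by decide)⟩
    · intro i hi
      right
      rcases hvx i hi with h | h
      · rw [h]
        unfold ip
        simp only [Prod.fst_sub, Prod.snd_sub]
        omega
      · unfold InDom at h
        generalize vx o e0 t i = w at *
        unfold ip
        simp only [Prod.fst_sub, Prod.snd_sub]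
        omega
    · omega
  · right; right; right; right; left
    rw [hd] at hq hR
    generalize hqq : tip o e0 t = q at *
    generalize hpp : vx o e0 t t.length = p at *
    have e1 : q.1 = p.1 + 1 := by rw [hq]; rfl
    have e2 : q.2 = p.2 + (-1) := by rw [hq]; rfl
    refine ⟨⟨by omega, by omega⟩, h1, h2, (hR ?_ ?_).2.1 (by decide)⟩
    · intro i hi
      right
      rcases hvx i hi with h | h
      · rw [h]
        unfold ip
        simp only [Prod.fst_sub, Prod.snd_sub]
        omega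
      · unfold InDom at h
        generalize vx o e0 t i = w at *
        unfold ip
        simp only [Prod.fst_sub, Prod.snd_sub]
        omega
    · omega
  · right; right; right; right; right
    rw [hd] at hq hR
    generalize hqq : tip o e0 t = q at *
    generalize hpp : vx o e0 t t.length = p at *
    have e1 : q.1 = p.1 + (-1) := by rw [hq]; rfl
    have e2 : q.2 = p.2 + 0 := by rw [hq]; rfl
    refine ⟨⟨by omega, by omega⟩, h1, h2, (hR ?_ ?_).2.2.2 (by decide)⟩
    · intro i hi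
      unfold Off
      rcases hvx i hi with h | h
      · rw [h]
        unfold ip cross
        simp only [Prod.fst_sub, Prod.snd_sub]
        omega
      · unfold InDom at h
        generalize vx o e0 t i = w at *
        unfold ip cross
        simp only [Prod.fst_sub, Prod.snd_sub]
        omega
    · omega


/-- monotonicity in the domain. -/
private lemma mo_le {Ω1 Ω2 : Finset Pt} {v0 d0 : Pt} {n : ℤ} (h1 : Ω1 ⊆ Ω2)
    (h2 : ∀ t ∈ exits Ω1 v0 d0, HexObs.wind t = n → tip v0 d0 t ∉ Ω2) :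
    Wn Ω1 v0 d0 n ≤ Wn Ω2 v0 d0 n := by
  classical
  unfold Wn
  apply Finset.sum_le_sum_of_subset_of_nonneg
  · intro t ht
    rw [Finset.mem_filter] at ht ⊢
    have h3 := mem_exits.1 ht.1
    exact ⟨mem_exits.2 ⟨⟨fun i h5 h4 => h1 (h3.1.mem i h5 h4), h3.1.inj⟩, h2 t ht.1 ht.2⟩, ht.2⟩
  · intro _ _ _
    exact pow_nonneg xc_pos.le _

private lemma mo_ns {r la lb lh : ℤ} (hr : 1 ≤ r) {q : Pt} (hq : ¬ Off e0 (q - o)) : q ∉ dom r la lb lh :=
  fun h => hq (dom_off hr q h)

/-- monotonicity for all windings except the removed one -/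
theorem mono_a {r : ℤ} (hr : 1 ≤ r) {n : ℤ} (hn : n ≠ 1) : W (D0 r) n ≤ W (E2 r) n := by
  apply mo_le
  · intro v hv
    unfold D0 at hv
    unfold E2
    rw [mem_dom hr] at hv ⊢
    unfold InDom at hv ⊢
    omega
  · intro t ht hw
    by_cases hs : Off e0 (tip o e0 t - o)
    · obtain ⟨p, hp, h⟩ := mo_off hr (by omega) (by omega) (by omega) (by omega) (by omega) ht hs
      unfold E2
      rw [mem_dom hr]
      unfold InDom at hp ⊢
      omega
    · exact mo_ns hr hs

theorem mono_b {r : ℤ} (hr : 1 ≤ r) {n : ℤ} (hn : n ≠ 2) : W (E2 r) n ≤ W (E3 r) n := by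
  apply mo_le
  · intro v hv
    unfold E2 at hv
    unfold E3
    rw [mem_dom hr] at hv ⊢
    unfold InDom at hv ⊢
    omega
  · intro t ht hw
    by_cases hs : Off e0 (tip o e0 t - o)
    · obtain ⟨p, hp, h⟩ := mo_off hr (by omega) (by omega) (by omega) (by omega) (by omega) ht hs
      unfold E3
      rw [mem_dom hr]
      unfold InDom at hp ⊢
      omega
    · exact mo_ns hr hs

theorem mono_c {r : ℤ} (hr : 1 ≤ r) {n : ℤ} (hn : n ≠ 3) : W (E3 r) n ≤ W (E4 r) n := by
  apply mo_le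
  · intro v hv
    unfold E3 at hv
    unfold E4
    rw [mem_dom hr] at hv ⊢
    unfold InDom at hv ⊢
    omega
  · intro t ht hw
    by_cases hs : Off e0 (tip o e0 t - o)
    · obtain ⟨p, hp, h⟩ := mo_off hr (by omega) (by omega) (by omega) (by omega) (by omega) ht hs
      unfold E4
      rw [mem_dom hr]
      unfold InDom at hp ⊢
      omega
    · exact mo_ns hr hs

/-- landings of E4 r are landings of D0 (10 r) -/
theorem E4_le {r : ℤ} (hr : 1 ≤ r) : W (E4 r) 5 ≤ W (D0 (6 * r)) 5 := by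
  apply mo_le
  · intro v hv
    unfold E4 at hv
    unfold D0
    rw [mem_dom hr] at hv
    rw [mem_dom (by omega)]
    unfold InDom at hv ⊢
    omega
  · intro t ht hw
    by_cases hs : Off e0 (tip o e0 t - o)
    · obtain ⟨p, hp, h⟩ := mo_off hr (by omega) (by omega) (by omega) (by omega) (by omega) ht hs
      omega
    · exact mo_ns (by omega) hs

/-- landings are monotone in r -/
theorem D0_mono {r s : ℤ} (hr : 1 ≤ r) (hs : r ≤ s) : W (D0 r) 5 ≤ W (D0 s) 5 := by
  apply mo_le
  · intro v hv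
    unfold D0 at hv ⊢
    rw [mem_dom hr] at hv
    rw [mem_dom (by omega)]
    unfold InDom at hv ⊢
    omega
  · intro t ht hw
    by_cases hs' : Off e0 (tip o e0 t - o)
    · obtain ⟨p, hp, h⟩ := mo_off hr (by omega) (by omega) (by omega) (by omega) (by omega) ht hs'
      omega
    · exact mo_ns (by omega) hs'

/-- the mirror map. -/
private lemma mo_refl (p : Pt) : (0, 0) + mulE (reflU e0) (conjE (p - (0, 0))) = (p.1 + p.2, -p.2) := by
  have h1 : reflU e0 = (1, 0) := by decide
  rw [h1]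
  unfold mulE conjE
  ext
  · simp
  · simp

private lemma mo_mir {r : ℤ} (hr : 1 ≤ r) (p : Pt) : (p.1 + p.2, -p.2) ∈ D0 r ↔ p ∈ D0 r := by
  unfold D0
  rw [mem_dom hr, mem_dom hr]
  unfold InDom
  simp only
  omega

private lemma mo_ex {r : ℤ} (hr : 1 ≤ r) {t : List Bool} (ht : t ∈ exits (D0 r) o e0) :
    t.map not ∈ exits (D0 r) o e0 := by
  obtain ⟨⟨h1, h2⟩, h3⟩ := mem_exits.1 ht
  have h0 : e0 ∈ dirs := by decide
  have hl : (t.map not).length = t.length := List.length_map _
  have hv : ∀ i, i ≤ t.length + 1 → vx o e0 (t.map not) i =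
      ((vx o e0 t i).1 + (vx o e0 t i).2, -(vx o e0 t i).2) := by
    intro i hi
    have := vx_refl (reflU e0) o o e0 t hi
    rw [reflU_apply h0] at this
    rw [this]
    exact mo_refl _
  refine mem_exits.2 ⟨⟨?_, ?_⟩, ?_⟩
  · intro i hi hil
    rw [hl] at hil
    rw [hv i (by omega), mo_mir hr]
    exact h1 i hi hil
  · intro i k hik hk heq
    rw [hl] at hk
    rw [hv i (by omega), hv k (by omega)] at heq
    refine h2 i k hik hk ?_
    have e1 := congrArg Prod.fst heq
    have e2 := congrArg Prod.snd heq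
    simp only at e1 e2
    exact Prod.ext (by omega) (by omega)
  · unfold tip
    rw [hl, hv _ le_rfl, mo_mir hr]
    exact h3

/-- mirror symmetry -/
theorem D0_mirror {r : ℤ} (hr : 1 ≤ r) (n : ℤ) : W (D0 r) (-n) = W (D0 r) n := by
  unfold W Wn
  apply Finset.sum_nbij' (fun t => t.map not) (fun t => t.map not)
  · intro t ht
    rw [Finset.mem_filter] at ht ⊢
    exact ⟨mo_ex hr ht.1, by rw [wind_map_not, ht.2, neg_neg]⟩
  · intro t ht
    rw [Finset.mem_filter] at ht ⊢
    exact ⟨mo_ex hr ht.1, by rw [wind_map_not, ht.2]⟩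
  · intro t _
    exact map_not_not t
  · intro t _
    exact map_not_not t
  · intro t _
    rw [List.length_map]

end HexSlit
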