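import Pool.Agent.HexSlit.Ident
import Pool.Agent.HexSlit.Inject

set_option autoImplicit false

namespace HexSlit

open HexObs Complex Finset

/-- the windings that occur -/
private def Win (n : ℤ) : Prop :=
  n = 0 ∨ n = 1 ∨ n = 2 ∨ n = 3 ∨ n = -1 ∨ n = -3 ∨ n = 4 ∨ n = -4 ∨ n = 5 ∨ n = -5

private lemma sweep_sum (Ω : Finset Pt) (hw : ∀ t ∈ exits Ω o e0, Win (HexObs.wind t)) (f : ℤ → ℝ) :
    ∑ t ∈ exits Ω o e0, f (HexObs.wind t) * xc ^ t.length =
      f 0 * W Ω 0 + f 1 * W Ω 1 + f 2 * W Ω 2 + f 3 * W Ω 3 + f (-1) * W Ω (-1) + f (-3) * W Ω (-3) +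
      f 4 * W Ω 4 + f (-4) * W Ω (-4) + f 5 * W Ω 5 + f (-5) * W Ω (-5) := by
  classical
  unfold W Wn
  simp only [Finset.sum_filter]
  simp only [Finset.mul_sum]
  simp only [← Finset.sum_add_distrib]
  apply Finset.sum_congr rfl
  intro t ht
  rcases hw t ht with h | h | h | h | h | h | h | h | h | h <;> rw [h] <;> norm_num

/-- a winding that does not occur has no mass -/
private lemma W_zero (Ω : Finset Pt) (n : ℤ) (h : ∀ t ∈ exits Ω o e0, HexObs.wind t ≠ n) : W Ω n = 0 := by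
  unfold W Wn
  rw [Finset.filter_false_of_mem h, Finset.sum_empty]

private noncomputable def ph (j : ℤ) : ℝ :=
  Real.cos (j * (Real.pi / 8)) + (1 + Real.sqrt 2) * Real.sin (j * (Real.pi / 8))

private lemma re_slit (Ω : Finset Pt) (hoff : ∀ v ∈ Ω, Off e0 (v - o)) :
    ∑ t ∈ exits Ω o e0, Real.cos (HexObs.wind t * (Real.pi / 8)) * xc ^ t.length = 1 := by
  have h1 := congrArg Complex.re (slit_identity Ω (by decide : e0 ∈ dirs) hoff)
  rw [Complex.re_sum, Complex.one_re] at h1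
  rw [← h1]
  apply Finset.sum_congr rfl
  intro t _
  unfold wt
  rw [← Complex.ofReal_pow, Complex.re_mul_ofReal, Complex.exp_ofReal_mul_I_re]

private lemma im_slit (Ω : Finset Pt) (hoff : ∀ v ∈ Ω, Off e0 (v - o)) :
    ∑ t ∈ exits Ω o e0, Real.sin (HexObs.wind t * (Real.pi / 8)) * xc ^ t.length = 0 := by
  have h1 := congrArg Complex.im (slit_identity Ω (by decide : e0 ∈ dirs) hoff)
  rw [Complex.im_sum, Complex.one_im] at h1
  rw [← h1]
  apply Finset.sum_congr rfl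
  intro t _
  unfold wt
  rw [← Complex.ofReal_pow, Complex.im_mul_ofReal, Complex.exp_ofReal_mul_I_im]

private lemma ph_slit (Ω : Finset Pt) (hoff : ∀ v ∈ Ω, Off e0 (v - o)) (k : ℤ) :
    ∑ t ∈ exits Ω o e0, ph (HexObs.wind t - k) * xc ^ t.length = ph (-k) := by
  have h1 : ∀ t ∈ exits Ω o e0, ph (HexObs.wind t - k) * xc ^ t.length =
      (Real.cos (k * (Real.pi / 8)) - (1 + Real.sqrt 2) * Real.sin (k * (Real.pi / 8))) *
        (Real.cos (HexObs.wind t * (Real.pi / 8)) * xc ^ t.length) +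
      (Real.sin (k * (Real.pi / 8)) + (1 + Real.sqrt 2) * Real.cos (k * (Real.pi / 8))) *
        (Real.sin (HexObs.wind t * (Real.pi / 8)) * xc ^ t.length) := by
    intro t _
    unfold ph
    push_cast
    rw [sub_mul, Real.cos_sub, Real.sin_sub]
    ring
  rw [Finset.sum_congr rfl h1, Finset.sum_add_distrib, ← Finset.mul_sum, ← Finset.mul_sum,
    re_slit Ω hoff, im_slit Ω hoff]
  unfold ph
  push_cast
  rw [neg_mul, Real.cos_neg, Real.sin_neg]
  ring

/-! values -/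

private lemma c_sq : Real.cos (Real.pi / 8) ^ 2 = (2 + Real.sqrt 2) / 4 := by
  rw [Real.cos_pi_div_eight, div_pow, Real.sq_sqrt (by positivity)]
  norm_num

private lemma s_c : (1 + Real.sqrt 2) * Real.sin (Real.pi / 8) = Real.cos (Real.pi / 8) := by
  have h1 : Real.sin (2 * (Real.pi / 8)) = 2 * Real.sin (Real.pi / 8) * Real.cos (Real.pi / 8) := Real.sin_two_mul _
  have h2 : (2 : ℝ) * (Real.pi / 8) = Real.pi / 4 := by ring
  rw [h2, Real.sin_pi_div_four] at h1
  have h3 := c_sq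
  have hc : 0 < Real.cos (Real.pi / 8) := Real.cos_pos_of_mem_Ioo ⟨by linarith [Real.pi_pos], by linarith [Real.pi_pos]⟩
  have h4 : Real.sqrt 2 * Real.sqrt 2 = 2 := Real.mul_self_sqrt (by norm_num)
  have h5 : ((1 + Real.sqrt 2) * Real.sin (Real.pi / 8)) * Real.cos (Real.pi / 8) =
      Real.cos (Real.pi / 8) * Real.cos (Real.pi / 8) := by
    nlinarith
  exact mul_right_cancel₀ hc.ne' h5

private lemma r2_lo : 1.41421 < Real.sqrt 2 := by
  rw [Real.lt_sqrt (by norm_num)]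
  norm_num

private lemma r2_hi : Real.sqrt 2 < 1.41422 := by
  rw [Real.sqrt_lt' (by norm_num)]
  norm_num

private lemma c_pos : 0 < Real.cos (Real.pi / 8) :=
  Real.cos_pos_of_mem_Ioo ⟨by linarith [Real.pi_pos], by linarith [Real.pi_pos]⟩

private lemma c_hi : Real.cos (Real.pi / 8) < 0.9239 := by
  have h1 := c_sq
  have h2 := r2_hi
  have h3 := c_pos
  nlinarith

private lemma c_lo : 0.9238 < Real.cos (Real.pi / 8) := by
  have h1 := c_sq
  have h2 := r2_lo
  have h3 := c_pos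
  nlinarith

private lemma s_pos : 0 < Real.sin (Real.pi / 8) :=
  Real.sin_pos_of_pos_of_lt_pi (by linarith [Real.pi_pos]) (by linarith [Real.pi_pos])

private lemma s_hi : Real.sin (Real.pi / 8) < 0.38275 := by
  have h1 := s_c
  have h2 := r2_lo
  have h3 := s_pos
  have h4 := c_hi
  nlinarith

private lemma trig3 : Real.cos (3 * (Real.pi / 8)) = Real.sin (Real.pi / 8) ∧
    Real.sin (3 * (Real.pi / 8)) = Real.cos (Real.pi / 8) := by
  rw [show (3 : ℝ) * (Real.pi / 8) = Real.pi / 2 - Real.pi / 8 by ring]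
  exact ⟨Real.cos_pi_div_two_sub _, Real.sin_pi_div_two_sub _⟩

private lemma trig2 : Real.cos (2 * (Real.pi / 8)) = Real.sqrt 2 / 2 ∧
    Real.sin (2 * (Real.pi / 8)) = Real.sqrt 2 / 2 := by
  rw [show (2 : ℝ) * (Real.pi / 8) = Real.pi / 4 by ring]
  exact ⟨Real.cos_pi_div_four, Real.sin_pi_div_four⟩

private lemma trig4 : Real.cos (4 * (Real.pi / 8)) = 0 ∧ Real.sin (4 * (Real.pi / 8)) = 1 := by
  rw [show (4 : ℝ) * (Real.pi / 8) = Real.pi / 2 by ring]
  exact ⟨Real.cos_pi_div_two, Real.sin_pi_div_two⟩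

private lemma trig5 : Real.cos (5 * (Real.pi / 8)) = - Real.sin (Real.pi / 8) ∧
    Real.sin (5 * (Real.pi / 8)) = Real.cos (Real.pi / 8) := by
  rw [show (5 : ℝ) * (Real.pi / 8) = Real.pi / 8 + Real.pi / 2 by ring]
  exact ⟨Real.cos_add_pi_div_two _, Real.sin_add_pi_div_two _⟩

private lemma trig6 : Real.cos (6 * (Real.pi / 8)) = - (Real.sqrt 2 / 2) ∧
    Real.sin (6 * (Real.pi / 8)) = Real.sqrt 2 / 2 := by
  rw [show (6 : ℝ) * (Real.pi / 8) = 2 * (Real.pi / 8) + Real.pi / 2 by ring, Real.cos_add_pi_div_two,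
    Real.sin_add_pi_div_two, trig2.1, trig2.2]
  exact ⟨rfl, rfl⟩

private lemma trig7 : Real.cos (7 * (Real.pi / 8)) = - Real.cos (Real.pi / 8) ∧
    Real.sin (7 * (Real.pi / 8)) = Real.sin (Real.pi / 8) := by
  rw [show (7 : ℝ) * (Real.pi / 8) = 3 * (Real.pi / 8) + Real.pi / 2 by ring, Real.cos_add_pi_div_two,
    Real.sin_add_pi_div_two, trig3.1, trig3.2]
  exact ⟨rfl, rfl⟩

private lemma trig8 : Real.cos (8 * (Real.pi / 8)) = - 1 ∧ Real.sin (8 * (Real.pi / 8)) = 0 := by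
  rw [show (8 : ℝ) * (Real.pi / 8) = Real.pi by ring]
  exact ⟨Real.cos_pi, Real.sin_pi⟩

private lemma ph0 : ph 0 = 1 := by
  unfold ph
  simp

private lemma ph1 : ph 1 ≤ 1.8478 := by
  unfold ph
  push_cast
  rw [one_mul, s_c]
  have := c_hi
  linarith

private lemma ph2 : ph 2 ≤ 2.4143 := by
  unfold ph
  push_cast
  rw [trig2.1, trig2.2]
  have h4 : Real.sqrt 2 * Real.sqrt 2 = 2 := Real.mul_self_sqrt (by norm_num)
  have := r2_hi
  nlinarith

private lemma ph3 : ph 3 ≤ 2.6133 := by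
  unfold ph
  push_cast
  rw [trig3.1, trig3.2]
  have h1 := r2_hi
  have h2 := r2_lo
  have h3 := c_hi
  have h4 := s_hi
  have h5 := c_pos
  nlinarith

private lemma ph4 : ph 4 ≤ 2.4143 := by
  unfold ph
  push_cast
  rw [trig4.1, trig4.2]
  have := r2_hi
  linarith

private lemma phn1 : ph (-1) ≤ 0 := by
  unfold ph
  push_cast
  rw [neg_mul, Real.cos_neg, Real.sin_neg, one_mul, mul_neg, s_c]
  linarith

private lemma phn2 : ph (-2) ≤ 0 := by
  unfold ph
  push_cast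
  rw [neg_mul, Real.cos_neg, Real.sin_neg, trig2.1, trig2.2]
  have := r2_lo
  nlinarith

private lemma phn3 : ph (-3) ≤ 0 := by
  unfold ph
  push_cast
  rw [neg_mul, Real.cos_neg, Real.sin_neg, trig3.1, trig3.2]
  have h1 := r2_lo
  have h2 := c_lo
  have h3 := s_hi
  nlinarith

private lemma phn4 : ph (-4) ≤ 0 := by
  unfold ph
  push_cast
  rw [neg_mul, Real.cos_neg, Real.sin_neg, trig4.1, trig4.2]
  have h1 := r2_lo
  linarith

private lemma phn5 : ph (-5) ≤ 0 := by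
  unfold ph
  push_cast
  rw [neg_mul, Real.cos_neg, Real.sin_neg, trig5.1, trig5.2]
  have h1 := r2_lo
  have h2 := c_pos
  have h3 := s_pos
  nlinarith

private lemma phn6 : ph (-6) ≤ 0 := by
  unfold ph
  push_cast
  rw [neg_mul, Real.cos_neg, Real.sin_neg, trig6.1, trig6.2]
  have h1 := r2_lo
  nlinarith

private lemma phn7 : ph (-7) ≤ 0 := by
  unfold ph
  push_cast
  rw [neg_mul, Real.cos_neg, Real.sin_neg, trig7.1, trig7.2]
  have h1 := r2_lo
  have h2 := c_pos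
  have h3 := s_pos
  nlinarith

private lemma phn8 : ph (-8) ≤ 0 := by
  unfold ph
  push_cast
  rw [neg_mul, Real.cos_neg, Real.sin_neg, trig8.1, trig8.2]
  linarith

/-- difference of the identities of two domains -/
private lemma diff (A B : Finset Pt) (hA : ∀ v ∈ A, Off e0 (v - o)) (hB : ∀ v ∈ B, Off e0 (v - o))
    (wA : ∀ t ∈ exits A o e0, Win (HexObs.wind t)) (wB : ∀ t ∈ exits B o e0, Win (HexObs.wind t)) (k : ℤ) :
    ph (0 - k) * (W B 0 - W A 0) + ph (1 - k) * (W B 1 - W A 1) + ph (2 - k) * (W B 2 - W A 2) +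
      ph (3 - k) * (W B 3 - W A 3) + ph (-1 - k) * (W B (-1) - W A (-1)) + ph (-3 - k) * (W B (-3) - W A (-3)) +
      ph (4 - k) * (W B 4 - W A 4) + ph (-4 - k) * (W B (-4) - W A (-4)) + ph (5 - k) * (W B 5 - W A 5) +
      ph (-5 - k) * (W B (-5) - W A (-5)) = 0 := by
  have h1 := sweep_sum A wA (fun n => ph (n - k))
  have h2 := sweep_sum B wB (fun n => ph (n - k))
  have h3 := ph_slit A hA k
  have h4 := ph_slit B hB k
  rw [h3] at h1
  rw [h4] at h2
  linear_combination h1 - h2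

theorem sweep {r : ℤ} (hr : 2 ≤ r) :
    1 + 2 * Real.cos (3 * Real.pi / 8) * W (D0 r) 5 ≤ 37 * (W (E4 r) 5 - W (D0 (r - 1)) 5) := by
  have hr1 : 1 ≤ r := by omega
  have off0 : ∀ v ∈ D0 r, Off e0 (v - o) := dom_off hr1
  have off2 : ∀ v ∈ E2 r, Off e0 (v - o) := dom_off hr1
  have off3 : ∀ v ∈ E3 r, Off e0 (v - o) := dom_off hr1
  have off4 : ∀ v ∈ E4 r, Off e0 (v - o) := dom_off hr1
  have w0 : ∀ t ∈ exits (D0 r) o e0, Win (HexObs.wind t) := by
    intro t ht
    have := D0_wind hr1 ht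
    unfold Win
    omega
  have w2 : ∀ t ∈ exits (E2 r) o e0, Win (HexObs.wind t) := by
    intro t ht
    have := E2_wind hr1 ht
    unfold Win
    omega
  have w3 : ∀ t ∈ exits (E3 r) o e0, Win (HexObs.wind t) := by
    intro t ht
    have := E3_wind hr1 ht
    unfold Win
    omega
  have w4 : ∀ t ∈ exits (E4 r) o e0, Win (HexObs.wind t) := by
    intro t ht
    have := E4_wind hr1 ht
    unfold Win
    omega
  have z00 : W (D0 r) 0 = 0 := W_zero _ _ (fun t ht => by have := D0_wind hr1 ht; omega)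
  have z02 : W (D0 r) 2 = 0 := W_zero _ _ (fun t ht => by have := D0_wind hr1 ht; omega)
  have z21 : W (E2 r) 1 = 0 := W_zero _ _ (fun t ht => by have := E2_wind hr1 ht; omega)
  have z32 : W (E3 r) 2 = 0 := W_zero _ _ (fun t ht => by have := E3_wind hr1 ht; omega)
  have z43 : W (E4 r) 3 = 0 := W_zero _ _ (fun t ht => by have := E4_wind hr1 ht; omega)
  have ma : ∀ n : ℤ, n ≠ 1 → W (D0 r) n ≤ W (E2 r) n := fun n hn => mono_a hr1 hn
  have mb : ∀ n : ℤ, n ≠ 2 → W (E2 r) n ≤ W (E3 r) n := fun n hn => mono_b hr1 hn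
  have mc : ∀ n : ℤ, n ≠ 3 → W (E3 r) n ≤ W (E4 r) n := fun n hn => mono_c hr1 hn
  obtain ⟨Δ, hΔ⟩ : ∃ x, x = W (E4 r) 5 - W (D0 (r - 1)) 5 := ⟨_, rfl⟩
  have a4 := ma 4 (by norm_num)
  have b4 := mb 4 (by norm_num)
  have c4 := mc 4 (by norm_num)
  have a5 := ma 5 (by norm_num)
  have b5 := mb 5 (by norm_num)
  have c5 := mc 5 (by norm_num)
  have d5 : W (E4 r) 5 - W (D0 r) 5 ≤ Δ := by
    have := D0_mono (r := r - 1) (s := r) (by omega) (by omega)
    rw [hΔ]
    linarith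
  have hΔ0 : 0 ≤ Δ := by linarith
  have hq : xc⁻¹ ≤ 1.8478 := by
    have h1 : xc⁻¹ = 2 * Real.cos (Real.pi / 8) := by
      unfold xc
      rw [one_div, inv_inv]
    have h2 := c_hi
    rw [h1]
    linarith
  have d4 : W (E4 r) 4 - W (D0 r) 4 ≤ 1.8478 * Δ := by
    have h1 := inject hr
    rw [← hΔ] at h1
    have h2 := mul_le_mul_of_nonneg_right hq hΔ0
    linarith
  -- step c
  have hc : W (E3 r) 3 ≤ 1.8478 * (W (E4 r) 4 - W (E3 r) 4) + 2.4143 * (W (E4 r) 5 - W (E3 r) 5) := by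
    have h := diff (E3 r) (E4 r) off3 off4 w3 w4 3
    norm_num at h
    rw [z43, ph0] at h
    have e0' := mul_nonpos_of_nonpos_of_nonneg phn3 (sub_nonneg.2 (mc 0 (by norm_num)))
    have e1' := mul_nonpos_of_nonpos_of_nonneg phn2 (sub_nonneg.2 (mc 1 (by norm_num)))
    have e2' := mul_nonpos_of_nonpos_of_nonneg phn1 (sub_nonneg.2 (mc 2 (by norm_num)))
    have e3' := mul_nonpos_of_nonpos_of_nonneg phn4 (sub_nonneg.2 (mc (-1) (by norm_num)))
    have e4' := mul_nonpos_of_nonpos_of_nonneg phn6 (sub_nonneg.2 (mc (-3) (by norm_num)))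
    have e5' := mul_nonpos_of_nonpos_of_nonneg phn7 (sub_nonneg.2 (mc (-4) (by norm_num)))
    have e6' := mul_nonpos_of_nonpos_of_nonneg phn8 (sub_nonneg.2 (mc (-5) (by norm_num)))
    have p4 := mul_le_mul_of_nonneg_right ph1 (sub_nonneg.2 c4)
    have p5 := mul_le_mul_of_nonneg_right ph2 (sub_nonneg.2 c5)
    linarith
  -- step b
  have hb : W (E2 r) 2 ≤ 1.8478 * (W (E3 r) 3 - W (E2 r) 3) + 2.4143 * (W (E3 r) 4 - W (E2 r) 4) +
      2.6133 * (W (E3 r) 5 - W (E2 r) 5) := by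
    have h := diff (E2 r) (E3 r) off2 off3 w2 w3 2
    norm_num at h
    rw [z32, ph0] at h
    have e0' := mul_nonpos_of_nonpos_of_nonneg phn2 (sub_nonneg.2 (mb 0 (by norm_num)))
    have e1' := mul_nonpos_of_nonpos_of_nonneg phn1 (sub_nonneg.2 (mb 1 (by norm_num)))
    have e3' := mul_nonpos_of_nonpos_of_nonneg phn3 (sub_nonneg.2 (mb (-1) (by norm_num)))
    have e4' := mul_nonpos_of_nonpos_of_nonneg phn5 (sub_nonneg.2 (mb (-3) (by norm_num)))
    have e5' := mul_nonpos_of_nonpos_of_nonneg phn6 (sub_nonneg.2 (mb (-4) (by norm_num)))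
    have e6' := mul_nonpos_of_nonpos_of_nonneg phn7 (sub_nonneg.2 (mb (-5) (by norm_num)))
    have p3 := mul_le_mul_of_nonneg_right ph1 (sub_nonneg.2 (mb 3 (by norm_num)))
    have p4 := mul_le_mul_of_nonneg_right ph2 (sub_nonneg.2 b4)
    have p5 := mul_le_mul_of_nonneg_right ph3 (sub_nonneg.2 b5)
    linarith
  -- step a
  have ha : W (D0 r) 1 ≤ 1.8478 * W (E2 r) 2 + 2.4143 * (W (E2 r) 3 - W (D0 r) 3) +
      2.6133 * (W (E2 r) 4 - W (D0 r) 4) + 2.4143 * (W (E2 r) 5 - W (D0 r) 5) := by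
    have h := diff (D0 r) (E2 r) off0 off2 w0 w2 1
    norm_num at h
    rw [z21, ph0, z02] at h
    have e0' := mul_nonpos_of_nonpos_of_nonneg phn1 (sub_nonneg.2 (ma 0 (by norm_num)))
    have e3' := mul_nonpos_of_nonpos_of_nonneg phn2 (sub_nonneg.2 (ma (-1) (by norm_num)))
    have e4' := mul_nonpos_of_nonpos_of_nonneg phn4 (sub_nonneg.2 (ma (-3) (by norm_num)))
    have e5' := mul_nonpos_of_nonpos_of_nonneg phn5 (sub_nonneg.2 (ma (-4) (by norm_num)))
    have e6' := mul_nonpos_of_nonpos_of_nonneg phn6 (sub_nonneg.2 (ma (-5) (by norm_num)))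
    have p2 := mul_le_mul_of_nonneg_right ph1 (W_nonneg (E2 r) 2)
    have p3 := mul_le_mul_of_nonneg_right ph2 (sub_nonneg.2 (ma 3 (by norm_num)))
    have p4 := mul_le_mul_of_nonneg_right ph3 (sub_nonneg.2 a4)
    have p5 := mul_le_mul_of_nonneg_right ph4 (sub_nonneg.2 a5)
    rw [sub_zero] at h
    linarith
  -- real part
  have hre := sweep_sum (D0 r) w0 (fun n => Real.cos (n * (Real.pi / 8)))
  rw [re_slit (D0 r) off0] at hre
  push_cast at hre
  have t3 : Real.cos (-3 * (Real.pi / 8)) = Real.sin (Real.pi / 8) := by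
    rw [neg_mul, Real.cos_neg, trig3.1]
  have t1 : Real.cos (-1 * (Real.pi / 8)) = Real.cos (Real.pi / 8) := by
    rw [neg_mul, one_mul, Real.cos_neg]
  have t4 : Real.cos (-4 * (Real.pi / 8)) = 0 := by
    rw [neg_mul, Real.cos_neg, trig4.1]
  have t5 : Real.cos (-5 * (Real.pi / 8)) = - Real.sin (Real.pi / 8) := by
    rw [neg_mul, Real.cos_neg, trig5.1]
  rw [z00, z02, trig3.1, trig4.1, trig5.1, t1, t3, t4, t5, one_mul, D0_mirror hr1 1, D0_mirror hr1 3,
    D0_mirror hr1 5] at hre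
  have e3 : Real.cos (3 * Real.pi / 8) = Real.sin (Real.pi / 8) := by
    rw [← trig3.1]
    congr 1
    ring
  rw [e3, ← hΔ]
  have k1 := mul_le_mul_of_nonneg_right c_hi.le (W_nonneg (D0 r) 1)
  have k3 := mul_le_mul_of_nonneg_right s_hi.le (W_nonneg (D0 r) 3)
  have n3 := W_nonneg (D0 r) 3
  have m3a := ma 3 (by norm_num)
  have m3b := mb 3 (by norm_num)
  linarith

end HexSlit
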