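import Pool.Agent.HexSlit.Arg

set_option autoImplicit false

namespace HexSlit

open HexObs Complex Finset

private lemma wo_cross_dir : ∀ d ∈ dirs, ∀ e ∈ dirs, -1 ≤ cross d e ∧ cross d e ≤ 1 := by
  decide

private lemma wo_cross_add (d p q : Pt) : cross d (p + q) = cross d p + cross d q := by
  simp only [cross, Prod.fst_add, Prod.snd_add]
  ring

private lemma wo_cross_sub (d p q : Pt) : cross d (p - q) = cross d p - cross d q := by
  simp only [cross, Prod.fst_sub, Prod.snd_sub]
  ring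

private lemma wo_cross_self (d : Pt) : cross d d = 0 := by
  unfold cross
  ring

/-- telescoping of the angles -/
private lemma wo_tel {d : Pt} (hd : d ∈ dirs) (q : ℕ → Pt) (n : ℕ) (hoff : ∀ i, i ≤ n → Off d (q i))
    (hstep : ∀ i, i < n → (0 ≤ cross d (q i) ∧ 0 ≤ cross d (q (i + 1))) ∨
      (cross d (q i) ≤ 0 ∧ cross d (q (i + 1)) ≤ 0)) :
    ∑ i ∈ range n, arg (emb (q (i + 1)) / emb (q i)) =
      arg (emb (q n) / emb d) - arg (emb (q 0) / emb d) := by
  have e : ∀ i ∈ range n, arg (emb (q (i + 1)) / emb (q i)) =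
      arg (emb (q (i + 1)) / emb d) - arg (emb (q i) / emb d) := by
    intro i hi
    rw [mem_range] at hi
    apply arg_step hd (hoff i (by omega)) (hoff (i + 1) (by omega))
    rcases hstep i hi with h | h
    · exact Or.inl h
    · exact Or.inr (Or.inl h)
  rw [Finset.sum_congr rfl e, Finset.sum_range_sub (fun j => arg (emb (q j) / emb d))]

private lemma wo_step_sign {d p e : Pt} (hd : d ∈ dirs) (he : e ∈ dirs) :
    (0 ≤ cross d (p + p) ∧ 0 ≤ cross d (p + p + e)) ∨ (cross d (p + p) ≤ 0 ∧ cross d (p + p + e) ≤ 0) := by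
  have h := wo_cross_dir d hd e he
  have a1 := wo_cross_add d p p
  have a2 := wo_cross_add d (p + p) e
  omega

private lemma wo_step_sign2 {d p e : Pt} (hd : d ∈ dirs) (he : e ∈ dirs) :
    (0 ≤ cross d (p + p) ∧ 0 ≤ cross d ((p + e) + (p + e))) ∨
      (cross d (p + p) ≤ 0 ∧ cross d ((p + e) + (p + e)) ≤ 0) := by
  have h := wo_cross_dir d hd e he
  have a1 := wo_cross_add d p p
  have a2 := wo_cross_add d (p + e) (p + e)
  have a3 := wo_cross_add d p e
  omega

private lemma wo_step_sign3 {d p e : Pt} (hd : d ∈ dirs) (he : e ∈ dirs) :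
    (0 ≤ cross d (p + p - d) ∧ 0 ≤ cross d ((p - e) + (p - e) - d)) ∨
      (cross d (p + p - d) ≤ 0 ∧ cross d ((p - e) + (p - e) - d) ≤ 0) := by
  have h := wo_cross_dir d hd e he
  have a1 := wo_cross_add d p p
  have a2 := wo_cross_sub d (p + p) d
  have a3 := wo_cross_sub d p e
  have a4 := wo_cross_add d (p - e) (p - e)
  have a5 := wo_cross_sub d ((p - e) + (p - e)) d
  have a6 := wo_cross_self d
  omega

private lemma wo_off_two {d p : Pt} (h : Off d p) : Off d (p + p) := by
  rcases h with h | h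
  · left
    rw [wo_cross_add]
    omega
  · right
    rw [ip_add_left]
    omega

private lemma wo_par {d : Pt} (hd : d ∈ dirs) {w : Pt} (h : cross d w = 0) : ∃ k : ℤ, w = (k * d.1, k * d.2) := by
  obtain ⟨w1, w2⟩ := w
  have hd' : d = (1, 0) ∨ d = (0, 1) ∨ d = (-1, 1) ∨ d = (-1, 0) ∨ d = (0, -1) ∨ d = (1, -1) := by
    revert hd
    revert d
    intro d _ hd
    simpa [dirs] using hd
  unfold cross at h
  rcases hd' with rfl | rfl | rfl | rfl | rfl | rfl <;> simp at h
  · exact ⟨w1, by ext <;> simp <;> omega⟩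
  · exact ⟨w2, by ext <;> simp <;> omega⟩
  · exact ⟨w2, by ext <;> simp <;> omega⟩
  · exact ⟨-w1, by ext <;> simp <;> omega⟩
  · exact ⟨-w2, by ext <;> simp <;> omega⟩
  · exact ⟨w1, by ext <;> simp <;> omega⟩

private lemma wo_off_half {d w : Pt} (hd : d ∈ dirs) (h : Off d w) : Off d (w + w - d) := by
  by_cases hc : cross d w = 0
  · rcases h with h | h
    · exact absurd hc h
    · right
      obtain ⟨k, rfl⟩ := wo_par hd hc
      have h1 : ip ((k * d.1, k * d.2) : Pt) d = k * ip d d := by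
        unfold ip
        ring
      rw [h1, ip_self_dir hd] at h
      rw [ip_sub_left, ip_add_left, h1, ip_self_dir hd]
      omega
  · left
    rw [wo_cross_sub, wo_cross_add, wo_cross_self]
    omega

/-- the winding is the difference of two angles -/
private lemma wo_key {Ω : Finset Pt} {v0 d0 : Pt} (h0 : d0 ∈ dirs) (hoff : ∀ v ∈ Ω, Off d0 (v - v0))
    {t : List Bool} (ht : IsArr Ω v0 d0 t) (hlen : 1 ≤ t.length)
    (hfree : ∀ i, i ≤ t.length → Off (dx d0 t t.length) (tip v0 d0 t - vx v0 d0 t i))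
    (hP : Off d0 (vx v0 d0 t t.length + tip v0 d0 t - (v0 + v0))) :
    (wind t : ℝ) * (Real.pi / 3) =
      arg (emb (vx v0 d0 t t.length + tip v0 d0 t - (v0 + v0)) / emb d0) -
      arg (emb (vx v0 d0 t t.length + tip v0 d0 t - (v0 + v0)) / emb (dx d0 t t.length)) := by
  obtain ⟨l, hl⟩ : ∃ l, t.length = l + 1 := ⟨t.length - 1, by omega⟩
  set d1 := dx d0 t t.length with hd1
  have hd1m : d1 ∈ dirs := ds_mem h0 _
  have htip : tip v0 d0 t = vx v0 d0 t t.length + d1 := rfl
  set Z : Pt := vx v0 d0 t t.length + vx v0 d0 t t.length + d1 with hZ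
  have hZ2 : vx v0 d0 t t.length + tip v0 d0 t = Z := by
    rw [htip, hZ]
    abel
  rw [hZ2] at hP ⊢
  have E := hopf_half (v0 := v0) (τ := tf t) h0 (a := 0) (b := t.length) (by omega) (c := tf t (t.length - 1))
    (fun i k _ h1 h2 => ht.inj i k h1 h2)
  have hds : turn (tf t (t.length - 1)) (ds d0 (tf t) (t.length - 1)) = d1 := by
    rw [hd1, hl]
    rfl
  rw [hds] at E
  have p1 : ∀ i, i ≤ t.length → poly v0 d0 (tf t) 0 t.length d1 i = vx v0 d0 t i + vx v0 d0 t i := by
    intro i hi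
    unfold poly
    rw [if_pos (by omega), zero_add]
    rfl
  have p1z : poly v0 d0 (tf t) 0 t.length d1 (t.length + 1) = Z := by
    unfold poly
    rw [if_neg (by omega)]
    rfl
  simp only [Nat.sub_zero] at E
  have hv0 : vx v0 d0 t 0 = v0 := rfl
  have hv1 : vx v0 d0 t 1 = v0 + d0 := rfl
  have hvs : ∀ i, vx v0 d0 t (i + 1) = vx v0 d0 t i + dx d0 t i := fun i => rfl
  have hdxm : ∀ i, dx d0 t i ∈ dirs := fun i => ds_mem h0 _
  -- the first sum
  have X1 : ∑ j ∈ range t.length, arg ((emb (poly v0 d0 (tf t) 0 t.length d1 (j + 2)) -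
        emb (poly v0 d0 (tf t) 0 t.length d1 0)) /
        (emb (poly v0 d0 (tf t) 0 t.length d1 (j + 1)) - emb (poly v0 d0 (tf t) 0 t.length d1 0))) =
      arg (emb (Z - (v0 + v0)) / emb d0) := by
    have T := wo_tel h0 (fun j => poly v0 d0 (tf t) 0 t.length d1 (j + 1) - (v0 + v0)) t.length ?_ ?_
    · have e0 : poly v0 d0 (tf t) 0 t.length d1 0 = v0 + v0 := by
        rw [p1 0 (by omega)]
        rfl
      have e1 : poly v0 d0 (tf t) 0 t.length d1 (0 + 1) - (v0 + v0) = d0 + d0 := by
        rw [p1 (0 + 1) (by omega), zero_add, hv1]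
        abel
      simp only [p1z, e1] at T
      have e2 : arg (emb (d0 + d0) / emb d0) = 0 := by
        rw [emb_two, mul_div_assoc, div_self (emb_ne h0), mul_one]
        exact Complex.arg_ofReal_of_nonneg (by norm_num)
      rw [e2, sub_zero] at T
      rw [← T]
      apply Finset.sum_congr rfl
      intro j _
      rw [e0, ← emb_sub, ← emb_sub]
    · intro i hi
      rcases Nat.lt_or_ge i t.length with h | h
      · show Off d0 (poly v0 d0 (tf t) 0 t.length d1 (i + 1) - (v0 + v0))
        rw [p1 (i + 1) (by omega)]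
        have h1 := wo_off_two (hoff _ (ht.mem (i + 1) (by omega) (by omega)))
        have e : vx v0 d0 t (i + 1) + vx v0 d0 t (i + 1) - (v0 + v0) =
            (vx v0 d0 t (i + 1) - v0) + (vx v0 d0 t (i + 1) - v0) := by abel
        rw [e]
        exact h1
      · have h' : i = t.length := by omega
        subst h'
        show Off d0 (poly v0 d0 (tf t) 0 t.length d1 (t.length + 1) - (v0 + v0))
        rw [p1z]
        exact hP
    · intro i hi
      show (0 ≤ cross d0 (poly v0 d0 (tf t) 0 t.length d1 (i + 1) - (v0 + v0)) ∧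
          0 ≤ cross d0 (poly v0 d0 (tf t) 0 t.length d1 (i + 1 + 1) - (v0 + v0))) ∨
        (cross d0 (poly v0 d0 (tf t) 0 t.length d1 (i + 1) - (v0 + v0)) ≤ 0 ∧
          cross d0 (poly v0 d0 (tf t) 0 t.length d1 (i + 1 + 1) - (v0 + v0)) ≤ 0)
      rw [p1 (i + 1) (by omega)]
      have e : vx v0 d0 t (i + 1) + vx v0 d0 t (i + 1) - (v0 + v0) =
            (vx v0 d0 t (i + 1) - v0) + (vx v0 d0 t (i + 1) - v0) := by abel
      rcases Nat.lt_or_ge (i + 1) t.length with h | h
      · rw [p1 (i + 1 + 1) (by omega), e]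
        have e' : vx v0 d0 t (i + 1 + 1) + vx v0 d0 t (i + 1 + 1) - (v0 + v0) =
            (vx v0 d0 t (i + 1) - v0 + dx d0 t (i + 1)) + (vx v0 d0 t (i + 1) - v0 + dx d0 t (i + 1)) := by
          rw [hvs (i + 1)]
          abel
        rw [e']
        exact wo_step_sign2 h0 (hdxm _)
      · have h' : i + 1 = t.length := by omega
        have e'' : poly v0 d0 (tf t) 0 t.length d1 (i + 1 + 1) = Z := by
          rw [h']
          exact p1z
        rw [e'', e]
        have e' : Z - (v0 + v0) = (vx v0 d0 t (i + 1) - v0) + (vx v0 d0 t (i + 1) - v0) + d1 := by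
          rw [hZ, h']
          abel
        rw [e']
        exact wo_step_sign h0 hd1m
  -- the second sum
  have X2 : ∑ i ∈ range t.length, arg ((emb (poly v0 d0 (tf t) 0 t.length d1 (t.length + 1)) -
        emb (poly v0 d0 (tf t) 0 t.length d1 (i + 1))) /
        (emb (poly v0 d0 (tf t) 0 t.length d1 (t.length + 1)) - emb (poly v0 d0 (tf t) 0 t.length d1 i))) =
      - arg (emb (Z - (v0 + v0)) / emb d1) := by
    have T := wo_tel hd1m (fun j => Z - (vx v0 d0 t j + vx v0 d0 t j)) t.length ?_ ?_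
    · have e1 : Z - (vx v0 d0 t t.length + vx v0 d0 t t.length) = d1 := by
        rw [hZ]
        abel
      simp only [e1, hv0] at T
      have e2 : arg (emb d1 / emb d1) = 0 := by
        rw [div_self (emb_ne hd1m), Complex.arg_one]
      rw [e2, zero_sub] at T
      rw [← T]
      apply Finset.sum_congr rfl
      intro j hj
      rw [mem_range] at hj
      rw [p1z, p1 j (by omega), p1 (j + 1) (by omega), ← emb_sub, ← emb_sub]
    · intro i hi
      show Off d1 (Z - (vx v0 d0 t i + vx v0 d0 t i))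
      have e : Z - (vx v0 d0 t i + vx v0 d0 t i) =
          (tip v0 d0 t - vx v0 d0 t i) + (tip v0 d0 t - vx v0 d0 t i) - d1 := by
        rw [hZ, htip]
        abel
      rw [e]
      exact wo_off_half hd1m (hfree i hi)
    · intro i hi
      show (0 ≤ cross d1 (Z - (vx v0 d0 t i + vx v0 d0 t i)) ∧
          0 ≤ cross d1 (Z - (vx v0 d0 t (i + 1) + vx v0 d0 t (i + 1)))) ∨
        (cross d1 (Z - (vx v0 d0 t i + vx v0 d0 t i)) ≤ 0 ∧
          cross d1 (Z - (vx v0 d0 t (i + 1) + vx v0 d0 t (i + 1))) ≤ 0)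
      have e : Z - (vx v0 d0 t i + vx v0 d0 t i) =
          (tip v0 d0 t - vx v0 d0 t i) + (tip v0 d0 t - vx v0 d0 t i) - d1 := by
        rw [hZ, htip]
        abel
      have e' : Z - (vx v0 d0 t (i + 1) + vx v0 d0 t (i + 1)) =
          (tip v0 d0 t - vx v0 d0 t i - dx d0 t i) + (tip v0 d0 t - vx v0 d0 t i - dx d0 t i) - d1 := by
        rw [hZ, htip, hvs i]
        abel
      rw [e, e']
      exact wo_step_sign3 hd1m (hdxm _)
  rw [X1, X2] at E
  have hW : ∑ k ∈ range (t.length - 1), (sgn (tf t (0 + k)) : ℝ) + (sgn (tf t (t.length - 1)) : ℝ) = (wind t : ℝ) := by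
    rw [wind_sum, hl, Finset.sum_range_succ]
    simp
  rw [hW] at E
  rw [E]
  ring

private lemma wo_im {d P : Pt} (hd : d ∈ dirs) : (emb P / emb d).im = (cross d P : ℝ) * (Real.sqrt 3 / 2) := by
  have hn : Complex.normSq (emb d) = 1 := by
    have h := Complex.mul_conj (emb d)
    have h1 := congrArg Complex.re h
    rw [re_emb_mul, ip_self_dir hd, Complex.ofReal_re] at h1
    rw [← h1]
    norm_num
  rw [div_eq_mul_inv, Complex.inv_def, hn, inv_one, Complex.ofReal_one, mul_one, im_emb_mul]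

private lemma wo_shift {θ : ℝ} (h1 : 0 < θ) (h2 : θ < Real.pi) {U : ℂ} (hU : arg U = θ) (hU0 : U ≠ 0) :
    arg (U / zt) = θ - Real.pi / 3 ∧ arg (U / (zt * zt)) = θ - 2 * (Real.pi / 3) ∧ arg (-U) = θ - Real.pi := by
  have hpi := Real.pi_pos
  have hz2 : arg (zt * zt) = 2 * (Real.pi / 3) := by
    rw [Complex.arg_mul zt_ne zt_ne, arg_zt]
    · ring
    · rw [arg_zt]
      constructor <;> linarith
  refine ⟨?_, ?_, ?_⟩
  · have hi : arg zt⁻¹ = - (Real.pi / 3) := arg_zt_inv
    rw [div_eq_mul_inv, Complex.arg_mul hU0 (inv_ne_zero zt_ne), hU, hi]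
    · ring
    · rw [hU, hi]
      constructor <;> linarith
  · have hi : arg (zt * zt)⁻¹ = - (2 * (Real.pi / 3)) := by
      rw [Complex.arg_inv, hz2, if_neg]
      intro h
      linarith
    rw [div_eq_mul_inv, Complex.arg_mul hU0 (inv_ne_zero (mul_ne_zero zt_ne zt_ne)), hU, hi]
    · ring
    · rw [hU, hi]
      constructor <;> linarith
  · have him : 0 < U.im := by
      by_contra hcon
      push Not at hcon
      rcases lt_or_eq_of_le hcon with h | h
      · have := Complex.arg_neg_iff.2 h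
        linarith
      · have h' := Complex.arg_nonneg_iff.1 (by rw [hU]; linarith : 0 ≤ arg U)
        rcases le_or_gt 0 U.re with hr | hr
        · have := Complex.arg_eq_zero_iff.2 ⟨hr, h⟩
          linarith
        · have := Complex.arg_eq_pi_iff.2 ⟨hr, h⟩
          linarith
    rw [Complex.arg_neg_eq_arg_sub_pi_of_im_pos him, hU]

private lemma wo_shift' {θ : ℝ} (h1 : -Real.pi < θ) (h2 : θ < 0) {U : ℂ} (hU : arg U = θ) (hU0 : U ≠ 0) :
    arg (U * zt) = θ + Real.pi / 3 ∧ arg (U * (zt * zt)) = θ + 2 * (Real.pi / 3) ∧ arg (-U) = θ + Real.pi := by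
  have hpi := Real.pi_pos
  have hz2 : arg (zt * zt) = 2 * (Real.pi / 3) := by
    rw [Complex.arg_mul zt_ne zt_ne, arg_zt]
    · ring
    · rw [arg_zt]
      constructor <;> linarith
  refine ⟨?_, ?_, ?_⟩
  · rw [Complex.arg_mul hU0 zt_ne, hU, arg_zt]
    rw [hU, arg_zt]
    constructor <;> linarith
  · rw [Complex.arg_mul hU0 (mul_ne_zero zt_ne zt_ne), hU, hz2]
    rw [hU, hz2]
    constructor <;> linarith
  · have him : U.im < 0 := by
      rw [← Complex.arg_neg_iff, hU]
      exact h2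
    rw [Complex.arg_neg_eq_arg_add_pi_of_im_neg him, hU]

/- S4 -/
/-- winding of a walk whose last edge can be prolonged to infinity. Z = twice the middle of the last edge minus 2 v0. -/
theorem wind_left {Ω : Finset Pt} {v0 d0 : Pt} (h0 : d0 ∈ dirs) (hoff : ∀ v ∈ Ω, Off d0 (v - v0))
    {t : List Bool} (ht : IsArr Ω v0 d0 t) (hlen : 1 ≤ t.length)
    (hfree : ∀ i, i ≤ t.length → Off (dx d0 t t.length) (tip v0 d0 t - vx v0 d0 t i))
    (hz : 0 < cross d0 (vx v0 d0 t t.length + tip v0 d0 t - (v0 + v0))) :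
    (dx d0 t t.length = d0 → wind t = 0) ∧ (dx d0 t t.length = rotL d0 → wind t = 1) ∧
    (dx d0 t t.length = rotL (rotL d0) → wind t = 2) ∧ (dx d0 t t.length = -d0 → wind t = 3) := by
  have K := wo_key h0 hoff ht hlen hfree (Or.inl hz.ne')
  set P : Pt := vx v0 d0 t t.length + tip v0 d0 t - (v0 + v0) with hPdef
  have hpi := Real.pi_pos
  have hs3 : 0 < Real.sqrt 3 := Real.sqrt_pos.2 (by norm_num)
  have him : 0 < (emb P / emb d0).im := by
    rw [wo_im h0]
    have : (0 : ℝ) < ((cross d0 P : ℤ) : ℝ) := by exact_mod_cast hz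
    positivity
  have hU0 : emb P / emb d0 ≠ 0 := by
    intro h
    rw [h] at him
    simp at him
  obtain ⟨θ, hθ⟩ : ∃ θ, arg (emb P / emb d0) = θ := ⟨_, rfl⟩
  have a1 : 0 < θ := by
    rw [← hθ]
    rcases lt_or_eq_of_le (Complex.arg_nonneg_iff.2 him.le) with h | h
    · exact h
    · exfalso
      have := Complex.arg_eq_zero_iff.1 h.symm
      linarith [this.2]
  have a2 : θ < Real.pi := by
    rcases lt_or_eq_of_le (Complex.arg_le_pi (emb P / emb d0)) with h | h
    · rw [← hθ]
      exact h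
    · exfalso
      have := Complex.arg_eq_pi_iff.1 h
      linarith [this.2]
  obtain ⟨s1, s2, s3⟩ := wo_shift a1 a2 hθ hU0
  rw [hθ] at K
  have fin : ∀ k : ℤ, (wind t : ℝ) * (Real.pi / 3) = k * (Real.pi / 3) → wind t = k := by
    intro k hk
    have h1 := mul_right_cancel₀ (by positivity : (Real.pi / 3 : ℝ) ≠ 0) hk
    exact_mod_cast h1
  refine ⟨?_, ?_, ?_, ?_⟩
  · intro hd
    apply fin
    rw [K, hd, hθ]
    push_cast
    ring
  · intro hd
    apply fin
    have e : emb P / (zt * emb d0) = emb P / emb d0 / zt := by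
      rw [div_div, mul_comm]
    rw [K, hd, emb_rotL, e, s1]
    push_cast
    ring
  · intro hd
    apply fin
    have e : emb P / (zt * (zt * emb d0)) = emb P / emb d0 / (zt * zt) := by
      rw [div_div, ← mul_assoc, mul_comm]
    rw [K, hd, emb_rotL, emb_rotL, e, s2]
    push_cast
    ring
  · intro hd
    apply fin
    have e : emb P / (-emb d0) = -(emb P / emb d0) := by
      rw [div_neg]
    rw [K, hd, emb_neg, e, s3]
    push_cast
    ring

theorem wind_right {Ω : Finset Pt} {v0 d0 : Pt} (h0 : d0 ∈ dirs) (hoff : ∀ v ∈ Ω, Off d0 (v - v0))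
    {t : List Bool} (ht : IsArr Ω v0 d0 t) (hlen : 1 ≤ t.length)
    (hfree : ∀ i, i ≤ t.length → Off (dx d0 t t.length) (tip v0 d0 t - vx v0 d0 t i))
    (hz : cross d0 (vx v0 d0 t t.length + tip v0 d0 t - (v0 + v0)) < 0) :
    (dx d0 t t.length = d0 → wind t = 0) ∧ (dx d0 t t.length = rotR d0 → wind t = -1) ∧
    (dx d0 t t.length = rotR (rotR d0) → wind t = -2) ∧ (dx d0 t t.length = -d0 → wind t = -3) := by
  have K := wo_key h0 hoff ht hlen hfree (Or.inl hz.ne)
  set P : Pt := vx v0 d0 t t.length + tip v0 d0 t - (v0 + v0) with hPdef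
  have hpi := Real.pi_pos
  have hs3 : 0 < Real.sqrt 3 := Real.sqrt_pos.2 (by norm_num)
  have him : (emb P / emb d0).im < 0 := by
    rw [wo_im h0]
    have : ((cross d0 P : ℤ) : ℝ) < 0 := by exact_mod_cast hz
    nlinarith
  have hU0 : emb P / emb d0 ≠ 0 := by
    intro h
    rw [h] at him
    simp at him
  obtain ⟨θ, hθ⟩ : ∃ θ, arg (emb P / emb d0) = θ := ⟨_, rfl⟩
  have a2 : θ < 0 := by
    rw [← hθ]
    exact Complex.arg_neg_iff.2 him
  have a1 : -Real.pi < θ := by
    rw [← hθ]
    exact Complex.neg_pi_lt_arg _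
  obtain ⟨s1, s2, s3⟩ := wo_shift' a1 a2 hθ hU0
  rw [hθ] at K
  have fin : ∀ k : ℤ, (wind t : ℝ) * (Real.pi / 3) = k * (Real.pi / 3) → wind t = k := by
    intro k hk
    have h1 := mul_right_cancel₀ (by positivity : (Real.pi / 3 : ℝ) ≠ 0) hk
    exact_mod_cast h1
  have hd0 := emb_ne h0
  refine ⟨?_, ?_, ?_, ?_⟩
  · intro hd
    apply fin
    rw [K, hd, hθ]
    push_cast
    ring
  · intro hd
    apply fin
    have e : emb P / (zt⁻¹ * emb d0) = emb P / emb d0 * zt := by
      have := zt_ne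
      field_simp
    rw [K, hd, emb_rotR, e, s1]
    push_cast
    ring
  · intro hd
    apply fin
    have e : emb P / (zt⁻¹ * (zt⁻¹ * emb d0)) = emb P / emb d0 * (zt * zt) := by
      have := zt_ne
      field_simp
    rw [K, hd, emb_rotR, emb_rotR, e, s2]
    push_cast
    ring
  · intro hd
    apply fin
    have e : emb P / (-emb d0) = -(emb P / emb d0) := by
      rw [div_neg]
    rw [K, hd, emb_neg, e, s3]
    push_cast
    ring

theorem wind_up {Ω : Finset Pt} {v0 d0 : Pt} (h0 : d0 ∈ dirs) (hoff : ∀ v ∈ Ω, Off d0 (v - v0))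
    {t : List Bool} (ht : IsArr Ω v0 d0 t) (hlen : 1 ≤ t.length)
    (hfree : ∀ i, i ≤ t.length → Off (dx d0 t t.length) (tip v0 d0 t - vx v0 d0 t i))
    (hz : cross d0 (vx v0 d0 t t.length + tip v0 d0 t - (v0 + v0)) = 0) (hd : dx d0 t t.length = d0) :
    wind t = 0 := by
  have htip : tip v0 d0 t = vx v0 d0 t t.length + dx d0 t t.length := rfl
  have e : vx v0 d0 t t.length + tip v0 d0 t - (v0 + v0) =
      (vx v0 d0 t t.length - v0) + (vx v0 d0 t t.length - v0) + d0 := by
    rw [htip, hd]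
    abel
  have hP : Off d0 (vx v0 d0 t t.length + tip v0 d0 t - (v0 + v0)) := by
    right
    rw [e] at hz ⊢
    rw [wo_cross_add, wo_cross_add, wo_cross_self] at hz
    rcases hoff _ (ht.mem t.length hlen le_rfl) with h | h
    · exact absurd (by omega) h
    · rw [ip_add_left, ip_add_left, ip_self_dir h0]
      omega
  have K := wo_key h0 hoff ht hlen hfree hP
  rw [hd, sub_self] at K
  have hpi := Real.pi_pos
  rcases mul_eq_zero.1 K with h | h
  · exact_mod_cast h
  · exfalso
    linarith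

end HexSlit
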